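import Pool.Agent.Helper15.An.Seq

/-! The lossless merge: leave-one-block-out spectral subspaces. -/

set_option linter.unusedSectionVars false

namespace Pool.Agent.Helper15.An

open Matrix
open scoped ComplexOrder

section merge
variable {d : Type} [Fintype d] [DecidableEq d]

theorem re_inner_comm (p q : d → ℂ) : (star q ⬝ᵥ p).re = (star p ⬝ᵥ q).re := by
  have : star q ⬝ᵥ p = star (star p ⬝ᵥ q) := by
    rw [← star_dotProduct_star, star_star, dotProduct_comm]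
  rw [this, Complex.star_def, Complex.conj_re]

theorem star_mulVec_aux {P : Matrix d d ℂ} (hP : Pᴴ = P) (w : d → ℂ) :
    star (P *ᵥ w) = star w ᵥ* P := by
  rw [star_mulVec, hP]

theorem proj_iso {e : Type} [Fintype e] [DecidableEq e] {J : Matrix d e ℂ} (hJ : Jᴴ * J = 1)
    (z : e → ℂ) : (J * Jᴴ) *ᵥ (J *ᵥ z) = J *ᵥ z := by
  rw [Matrix.mulVec_mulVec, Matrix.mul_assoc, hJ, Matrix.mul_one]

/-- product of two matrices diagonal in the same basis -/
theorem conj_diag_mul (U : Matrix.unitaryGroup d ℂ) (f g : d → ℂ) :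
    (U : Matrix d d ℂ) * diagonal f * (U : Matrix d d ℂ)ᴴ *
      ((U : Matrix d d ℂ) * diagonal g * (U : Matrix d d ℂ)ᴴ) =
      (U : Matrix d d ℂ) * diagonal (fun i => f i * g i) * (U : Matrix d d ℂ)ᴴ := by
  calc (U : Matrix d d ℂ) * diagonal f * (U : Matrix d d ℂ)ᴴ *
        ((U : Matrix d d ℂ) * diagonal g * (U : Matrix d d ℂ)ᴴ) =
      (U : Matrix d d ℂ) * diagonal f *
        ((U : Matrix d d ℂ)ᴴ * (U : Matrix d d ℂ)) * diagonal g * (U : Matrix d d ℂ)ᴴ := by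
        simp only [Matrix.mul_assoc]
    _ = (U : Matrix d d ℂ) * diagonal (fun i => f i * g i) * (U : Matrix d d ℂ)ᴴ := by
        rw [unitary_conj_mul, Matrix.mul_one, Matrix.mul_assoc (U : Matrix d d ℂ),
          diagonal_mul_diagonal]

/-- the spectral projection commutes with the matrix -/
theorem topIso_comm {T : Matrix d d ℂ} (hT : T.IsHermitian) (θ : ℝ) :
    (topIso hT θ * (topIso hT θ)ᴴ) * T = T * (topIso hT θ * (topIso hT θ)ᴴ) := by
  rw [topIso_mul_conj]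
  have hTd := spec_decomp hT
  set U := hT.eigenvectorUnitary with hU
  set f : d → ℂ := fun i => (if θ ≤ hT.eigenvalues i then (1 : ℂ) else 0) with hf
  set g : d → ℂ := fun i => ((hT.eigenvalues i : ℝ) : ℂ) with hg
  calc (U : Matrix d d ℂ) * diagonal f * (U : Matrix d d ℂ)ᴴ * T =
        (U : Matrix d d ℂ) * diagonal f * (U : Matrix d d ℂ)ᴴ *
          ((U : Matrix d d ℂ) * diagonal g * (U : Matrix d d ℂ)ᴴ) := by rw [← hTd]
    _ = (U : Matrix d d ℂ) * diagonal (fun i => g i * f i) * (U : Matrix d d ℂ)ᴴ := by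
        rw [conj_diag_mul]
        congr 3
        ext i
        rw [mul_comm]
    _ = ((U : Matrix d d ℂ) * diagonal g * (U : Matrix d d ℂ)ᴴ) *
          ((U : Matrix d d ℂ) * diagonal f * (U : Matrix d d ℂ)ᴴ) := by rw [conj_diag_mul]
    _ = T * ((U : Matrix d d ℂ) * diagonal f * (U : Matrix d d ℂ)ᴴ) := by rw [← hTd]

/-- one block against the others, on an eigenvector -/
theorem merge_one {e : Type} [Fintype e] [DecidableEq e] {H A T : Matrix d d ℂ}
    (hA : A.IsHermitian) (hA1 : ((1 : ℝ) • (1 : Matrix d d ℂ) - A).PosSemidef)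
    {J : Matrix d e ℂ} (hJ : Jᴴ * J = 1) (c η : ℝ) (hc : 0 ≤ c)
    (hH : H = ((1 : Matrix d d ℂ) - A) + c • ((1 : Matrix d d ℂ) - T))
    (hcomm : (J * Jᴴ) * T = T * (J * Jᴴ))
    (hgap : (((1 : ℝ) • (1 : Matrix d d ℂ) - T) - η • ((1 : Matrix d d ℂ) - J * Jᴴ)).PosSemidef)
    (hsmall : ∀ u : e → ℂ, nrm2 (A *ᵥ (J *ᵥ u)) ≤ 1 / 100 * nrm2 u)
    (α : ℝ) (hα : α < c * η - 1 / 2) (v : d → ℂ) (hv : H *ᵥ v = α • v) :
    qf A v ≤ 4 / 25 * nrm2 v := by
  set w := ((1 : Matrix d d ℂ) - J * Jᴴ) *ᵥ v with hw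
  set u := J *ᵥ (Jᴴ *ᵥ v) with hu
  have huw : v = u + w := by
    rw [hw, hu, Matrix.sub_mulVec, Matrix.one_mulVec, Matrix.mulVec_mulVec]
    abel
  set N := nrm2 v with hN
  have hw0 : 0 ≤ nrm2 w := nrm2_nonneg w
  have hu1 : nrm2 (Jᴴ *ᵥ v) = N - nrm2 w := by rw [hw, nrm2_proj hJ]; ring
  have hNw : nrm2 w ≤ N := by
    have := nrm2_nonneg (Jᴴ *ᵥ v)
    linarith
  have hPP : J * Jᴴ * (J * Jᴴ) = J * Jᴴ := by
    rw [Matrix.mul_assoc, ← Matrix.mul_assoc Jᴴ, hJ, Matrix.one_mul]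
  have hPw : (J * Jᴴ) *ᵥ w = 0 := by
    rw [hw, Matrix.mulVec_mulVec, Matrix.mul_sub, Matrix.mul_one, hPP, sub_self, zero_mulVec]
  have hPu : (J * Jᴴ) *ᵥ u = u := by
    rw [hu, proj_iso hJ]
  have hPH : (J * Jᴴ)ᴴ = J * Jᴴ := by rw [conjTranspose_mul, conjTranspose_conjTranspose]
  -- the gap on `w`
  have h1 : η * nrm2 w ≤ (star w ⬝ᵥ (((1 : Matrix d d ℂ) - T) *ᵥ w)).re := by
    have h2 := qf_nonneg hgap w
    rw [qf_sub, qf_smul, one_smul] at h2
    have h3 : qf ((1 : Matrix d d ℂ) - J * Jᴴ) w = nrm2 w := by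
      unfold qf
      rw [Matrix.sub_mulVec, Matrix.one_mulVec, hPw, sub_zero, nrm2_eq]
    rw [h3] at h2
    have h4 : qf ((1 : Matrix d d ℂ) - T) w = (star w ⬝ᵥ (((1 : Matrix d d ℂ) - T) *ᵥ w)).re := rfl
    linarith
  -- orthogonality
  have h5 : star w ⬝ᵥ (((1 : Matrix d d ℂ) - T) *ᵥ u) = 0 := by
    have h6 : ((1 : Matrix d d ℂ) - T) *ᵥ u = (J * Jᴴ) *ᵥ (((1 : Matrix d d ℂ) - T) *ᵥ u) := by
      calc ((1 : Matrix d d ℂ) - T) *ᵥ u = ((1 : Matrix d d ℂ) - T) *ᵥ ((J * Jᴴ) *ᵥ u) := by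
            rw [hPu]
        _ = (((1 : Matrix d d ℂ) - T) * (J * Jᴴ)) *ᵥ u := Matrix.mulVec_mulVec _ _ _
        _ = ((J * Jᴴ) * ((1 : Matrix d d ℂ) - T)) *ᵥ u := by
            rw [Matrix.sub_mul, Matrix.mul_sub, Matrix.one_mul, Matrix.mul_one, hcomm]
        _ = (J * Jᴴ) *ᵥ (((1 : Matrix d d ℂ) - T) *ᵥ u) := (Matrix.mulVec_mulVec _ _ _).symm
    rw [h6, dotProduct_mulVec, ← star_mulVec_aux hPH, hPw]
    simp
  have h7 : (star w ⬝ᵥ (((1 : Matrix d d ℂ) - T) *ᵥ v)).re =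
      (star w ⬝ᵥ (((1 : Matrix d d ℂ) - T) *ᵥ w)).re := by
    conv_lhs => rw [huw]
    rw [Matrix.mulVec_add, dotProduct_add, h5, zero_add]
  have h8 : c * (star w ⬝ᵥ (((1 : Matrix d d ℂ) - T) *ᵥ v)).re =
      (α - 1) * (star w ⬝ᵥ v).re + (star w ⬝ᵥ (A *ᵥ v)).re := by
    have h9 : c • (((1 : Matrix d d ℂ) - T) *ᵥ v) = α • v - v + A *ᵥ v := by
      have h9a : ((1 : Matrix d d ℂ) - A) *ᵥ v = v - A *ᵥ v := by
        rw [Matrix.sub_mulVec, Matrix.one_mulVec]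
      have h9b : H *ᵥ v = (v - A *ᵥ v) + c • (((1 : Matrix d d ℂ) - T) *ᵥ v) := by
        rw [hH, Matrix.add_mulVec, Matrix.smul_mulVec, h9a]
      rw [← hv, h9b]
      abel
    have h10 := congrArg (fun z => (star w ⬝ᵥ z).re) h9
    simp only [dotProduct_smul, dotProduct_add, dotProduct_sub, Complex.add_re,
      Complex.sub_re] at h10
    simp only [Complex.real_smul, Complex.re_ofReal_mul] at h10
    rw [h10]; ring
  have h11 : (star w ⬝ᵥ v).re = nrm2 w := by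
    conv_lhs => rw [huw]
    rw [dotProduct_add, Complex.add_re, nrm2_eq]
    have : star w ⬝ᵥ u = 0 := by
      rw [← hPu, dotProduct_mulVec, ← star_mulVec_aux hPH, hPw]
      simp
    rw [this]; simp
  have h12 : (star w ⬝ᵥ (A *ᵥ v)).re = (star w ⬝ᵥ (A *ᵥ u)).re + qf A w := by
    conv_lhs => rw [huw]
    rw [Matrix.mulVec_add, dotProduct_add, Complex.add_re]
    rfl
  have h13 : qf A w ≤ nrm2 w := by
    have := qf_nonneg hA1 w
    rw [qf_sub, qf_smul, qf_one] at this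
    linarith
  have hz : nrm2 (A *ᵥ u) ≤ 1 / 100 * (N - nrm2 w) := by
    rw [← hu1]
    exact hsmall _
  have h14 := two_re_inner_le (1 / 2) (by norm_num) w (A *ᵥ u)
  have h15 : nrm2 w ≤ N / 25 := by
    have h16 : c * (η * nrm2 w) ≤ c * (star w ⬝ᵥ (((1 : Matrix d d ℂ) - T) *ᵥ v)).re := by
      rw [h7]
      exact mul_le_mul_of_nonneg_left h1 hc
    rw [h8, h11, h12] at h16
    norm_num at h14
    nlinarith
  -- final estimate
  have h17 : qf A v = (star v ⬝ᵥ (A *ᵥ u)).re + (star w ⬝ᵥ (A *ᵥ u)).re + qf A w := by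
    have h18 : qf A v = (star v ⬝ᵥ (A *ᵥ u)).re + (star v ⬝ᵥ (A *ᵥ w)).re := by
      unfold qf
      conv_lhs => rw [show A *ᵥ v = A *ᵥ u + A *ᵥ w by rw [← Matrix.mulVec_add, ← huw]]
      rw [dotProduct_add, Complex.add_re]
    have h19 : (star v ⬝ᵥ (A *ᵥ w)).re = (star w ⬝ᵥ (A *ᵥ v)).re := by
      rw [re_inner_comm, star_mulVec_aux hA]
      rw [dotProduct_mulVec]
    rw [h18, h19, h12]
    ring
  have h20 := two_re_inner_le (1 / 10) (by norm_num) v (A *ᵥ u)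
  have h21 : nrm2 (A *ᵥ u) ≤ N / 100 := by linarith
  rw [h17]
  norm_num at h14 h20
  linarith

/-- The merge lemma: if every block is small on the top spectral subspace of the average of the
others, the sum over all blocks loses only an additive constant. -/
theorem merge {ι : Type} [DecidableEq ι] (I : Finset ι) (A T : ι → Matrix d d ℂ)
    (hA : ∀ j, (A j).IsHermitian)
    (hA1 : ∀ j, ((1 : ℝ) • (1 : Matrix d d ℂ) - A j).PosSemidef)
    (hT : ∀ j, (T j).IsHermitian)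
    (hT1 : ∀ j, ((1 : ℝ) • (1 : Matrix d d ℂ) - T j).PosSemidef) (c η : ℝ) (hc : 0 ≤ c)
    (hH : ∀ j ∈ I, ∑ k ∈ I, ((1 : Matrix d d ℂ) - A k) =
      ((1 : Matrix d d ℂ) - A j) + c • ((1 : Matrix d d ℂ) - T j))
    (hI : c * η - 1 / 2 ≤ 21 / 25 * (I.card : ℝ))
    (hsmall : ∀ j ∈ I, ∀ u : TopIdx (hT j) (1 - η) → ℂ,
      nrm2 (A j *ᵥ (topIso (hT j) (1 - η) *ᵥ u)) ≤ 1 / 100 * nrm2 u) :
    ((∑ k ∈ I, ((1 : Matrix d d ℂ) - A k)) -
      (c * η - 1 / 2) • (1 : Matrix d d ℂ)).PosSemidef := by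
  set H := ∑ k ∈ I, ((1 : Matrix d d ℂ) - A k) with hHdef
  have hHH : H.IsHermitian := by
    unfold Matrix.IsHermitian
    rw [hHdef, conjTranspose_sum]
    refine Finset.sum_congr rfl fun k _ => ?_
    rw [conjTranspose_sub, conjTranspose_one, (hA k).eq]
  refine posSemidef_of_le_eigenvalues hHH _ fun i => ?_
  by_contra hlt
  rw [not_le] at hlt
  set α := hHH.eigenvalues i with hα
  set v : d → ℂ := ⇑(hHH.eigenvectorBasis i) with hv
  have hvec : H *ᵥ v = α • v := hHH.mulVec_eigenvectorBasis i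
  have hnv : nrm2 v = 1 := by
    have h1 : star v ⬝ᵥ v = (1 : ℂ) := by
      have h2 := hHH.eigenvectorBasis.orthonormal.1 i
      have h4 : inner ℂ (hHH.eigenvectorBasis i) (hHH.eigenvectorBasis i) = (1 : ℂ) := by
        rw [inner_self_eq_norm_sq_to_K, h2]; simp
      rw [EuclideanSpace.inner_eq_star_dotProduct, dotProduct_comm] at h4
      exact h4
    rw [nrm2_eq, h1]; simp
  have h1 : ∀ j ∈ I, qf (A j) v ≤ 4 / 25 * nrm2 v := by
    intro j hj
    refine merge_one (hA j) (hA1 j) (topIso_conj_mul (hT j) (1 - η)) c η hc (hH j hj)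
      (topIso_comm (hT j) (1 - η)) ?_ (hsmall j hj) α hlt v hvec
    have := gap_off_top (hT j) (hT1 j) (1 - η)
    convert this using 3
    ring
  have h2 : qf H v = α := by
    unfold qf
    rw [hvec, dotProduct_smul, Complex.real_smul, Complex.re_ofReal_mul, ← nrm2_eq, hnv, mul_one]
  have h3 : qf H v = ∑ k ∈ I, (1 - qf (A k) v) := by
    rw [hHdef, qf_sum]
    refine Finset.sum_congr rfl fun k _ => ?_
    rw [qf_sub, qf_one, hnv]
  have h4 : (21 : ℝ) / 25 * I.card ≤ ∑ k ∈ I, (1 - qf (A k) v) := by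
    rw [mul_comm, ← nsmul_eq_mul, ← Finset.sum_const]
    refine Finset.sum_le_sum fun k hk => ?_
    have := h1 k hk
    rw [hnv] at this
    linarith
  linarith

end merge

end Pool.Agent.Helper15.An
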