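import Pool.Agent.Helper15.An.Dens
import Pool.Agent.Helper15.An.Merge

/-! A fresh block is small on a small spectral subspace, on all representations of a level. -/

set_option linter.unusedSectionVars false

namespace Pool.Agent.Helper15.An

open Matrix Equiv
open scoped ComplexOrder

section lin
variable {d : Type} [Fintype d] [DecidableEq d]

theorem nrm2_smul (c : ℝ) (v : d → ℂ) : nrm2 (c • v) = c ^ 2 * nrm2 v := by
  unfold nrm2
  rw [Finset.mul_sum]
  refine Finset.sum_congr rfl fun i _ => ?_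
  rw [Pi.smul_apply, norm_smul, mul_pow, Real.norm_eq_abs, sq_abs]

theorem nrm2_half_add (p q : d → ℂ) :
    nrm2 ((1 / 2 : ℝ) • (p + q)) ≤ 1 / 2 * (nrm2 p + nrm2 q) := by
  rw [nrm2_smul]
  unfold nrm2
  rw [← Finset.sum_add_distrib, Finset.mul_sum, Finset.mul_sum]
  refine Finset.sum_le_sum fun i _ => ?_
  have h : ‖(p + q) i‖ ≤ ‖p i‖ + ‖q i‖ := by
    rw [Pi.add_apply]; exact norm_add_le _ _
  have h0 : 0 ≤ ‖(p + q) i‖ := norm_nonneg _
  nlinarith [sq_nonneg (‖p i‖ - ‖q i‖)]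

theorem avg_small {m : ℕ} (hm : 300 ≤ m) (x : Fin m → Matrix d d ℂ) (a : d → ℂ) (N : ℝ)
    (hN : 0 ≤ N)
    (h1 : nrm2 ((∑ l, x l) *ᵥ a) ≤ (m + (m : ℝ) ^ 2 * (2 / 300)) * N)
    (h2 : nrm2 ((∑ l, (x l)ᴴ) *ᵥ a) ≤ (m + (m : ℝ) ^ 2 * (2 / 300)) * N) :
    nrm2 (avgRe x *ᵥ a) ≤ 1 / 100 * N := by
  have hm' : (300 : ℝ) ≤ m := by exact_mod_cast hm
  have hm0 : (0 : ℝ) < m := by linarith
  have h3 : avgRe x *ᵥ a = (1 / 2 : ℝ) • ((m : ℝ)⁻¹ • ((∑ l, x l) *ᵥ a) +
      (m : ℝ)⁻¹ • ((∑ l, (x l)ᴴ) *ᵥ a)) := by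
    unfold avgRe
    rw [Finset.sum_add_distrib, Matrix.smul_mulVec, Matrix.add_mulVec, ← smul_add, smul_smul]
    congr 1
    rw [mul_inv]; ring
  have h4 : ∀ z : d → ℂ, nrm2 z ≤ (m + (m : ℝ) ^ 2 * (2 / 300)) * N →
      nrm2 ((m : ℝ)⁻¹ • z) ≤ 1 / 100 * N := by
    intro z hz
    rw [nrm2_smul]
    calc ((m : ℝ)⁻¹) ^ 2 * nrm2 z ≤ ((m : ℝ)⁻¹) ^ 2 * ((m + (m : ℝ) ^ 2 * (2 / 300)) * N) := by
          gcongr
      _ = ((m : ℝ)⁻¹ + 2 / 300) * N := by field_simp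
      _ ≤ 1 / 100 * N := by
          have : (m : ℝ)⁻¹ ≤ (300 : ℝ)⁻¹ := by gcongr
          refine mul_le_mul_of_nonneg_right ?_ hN
          norm_num at this ⊢
          linarith
  rw [h3]
  refine (nrm2_half_add _ _).trans ?_
  have h5 := h4 _ h1
  have h6 := h4 _ h2
  linarith

end lin

variable {n : ℕ}

/-- the block `y` is small on the top spectral subspaces of `μ` -/
def Small (F : PW (Perm (Fin n))) (μ : Perm (Fin n) → ℝ) (η : ℝ) (q : ℕ) {m : ℕ}
    (y : Fin m → Alt n) : Prop :=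
  ∀ i, ¬ Triv (F.ρ i) (Alt n) → HasFix (F.ρ i) (stab n q) →
    ∀ hT : (wop (F.ρ i) μ).IsHermitian, ∀ u : TopIdx hT (1 - η) → ℂ,
      nrm2 (avgRe (fun l => F.ρ i (y l : Perm (Fin n))) *ᵥ (topIso hT (1 - η) *ᵥ u)) ≤
        1 / 100 * nrm2 u

theorem block_abs (F : PW (Perm (Fin n))) (hn : 2 ≤ n) (μ : Perm (Fin n) → ℝ)
    (hμ : IsSP (Alt n : Set (Perm (Fin n))) μ) (η s : ℝ) (hs : 0 ≤ s)
    (hcard : ∀ i, ¬ Triv (F.ρ i) (Alt n) →
      (Fintype.card (TopIdx (wop_isHermitian (F.ρ i) (F.irr i).unit hμ) (1 - η)) : ℝ) ≤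
        Real.exp (-s) * F.D i) (m : ℕ) (hm : 300 ≤ m) (q : ℕ) (hq : q ≤ n) :
    (Nat.card {y : Fin m → Alt n // ¬ Small F μ η q y} : ℝ) ≤
      (Fintype.card (Alt n) : ℝ) ^ m * (4 * 3 ^ m * Real.exp (-(s * m / 90000)) * (n : ℝ) ^ q) := by
  classical
  have h1 := union_bound F q hq (X := Fin m → Alt n)
    (fun i y => ¬ ∀ u : TopIdx (wop_isHermitian (F.ρ i) (F.irr i).unit hμ) (1 - η) → ℂ,
      nrm2 (avgRe (fun l => F.ρ i (y l : Perm (Fin n))) *ᵥ
        (topIso (wop_isHermitian (F.ρ i) (F.irr i).unit hμ) (1 - η) *ᵥ u)) ≤ 1 / 100 * nrm2 u)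
    (2 * ((Fintype.card (Alt n) : ℝ) ^ m * (3 ^ m * Real.exp (-(s * m / 90000))))) (by positivity)
    (fun i hi _ => by
      have hT := wop_isHermitian (F.ρ i) (F.irr i).unit hμ
      have hu := (F.irr i).unit
      have h2 := small_count (Ω := Alt n) (fun ω => F.ρ i (ω : Perm (Fin n)))
        (fun ω => hu _) (by rw [Fintype.card_fin]; exact (F.irr i).pos)
        (fun M hM => design (F.irr i) (Alt n) (card_Alt hn) M hM)
        (topIso_conj_mul hT (1 - η)) s hs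
        (by rw [Fintype.card_fin]; exact hcard i hi) m
      have h3 := small_count (Ω := Alt n) (fun ω => (F.ρ i (ω : Perm (Fin n)))ᴴ)
        (fun ω => by rw [conjTranspose_conjTranspose]; exact rho_mul_conj (F.ρ i) hu _)
        (by rw [Fintype.card_fin]; exact (F.irr i).pos)
        (fun M hM => by
          have h4 := design (F.irr i) (Alt n) (card_Alt hn) M hM
          convert h4 using 2
          rw [← Equiv.sum_comp (Equiv.inv (Alt n))
            (fun ω : Alt n => (F.ρ i (ω : Perm (Fin n)))ᴴ * M * F.ρ i (ω : Perm (Fin n)))]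
          refine Finset.sum_congr rfl fun ω _ => ?_
          rw [rho_conj (F.ρ i) hu]
          simp [rho_conj (F.ρ i) hu])
        (topIso_conj_mul hT (1 - η)) s hs
        (by rw [Fintype.card_fin]; exact hcard i hi) m
      rw [Fintype.card_fin] at h2 h3
      rw [Nat.card_eq_fintype_card, Fintype.card_subtype] at h2 h3 ⊢
      have h5 : (Finset.univ.filter fun y : Fin m → Alt n => ¬ ∀ u : TopIdx hT (1 - η) → ℂ,
          nrm2 (avgRe (fun l => F.ρ i (y l : Perm (Fin n))) *ᵥ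
            (topIso hT (1 - η) *ᵥ u)) ≤ 1 / 100 * nrm2 u) ⊆
          (Finset.univ.filter fun y : Fin m → Alt n => ¬ ∀ u : TopIdx hT (1 - η) → ℂ,
            nrm2 ((∑ l, F.ρ i (y l : Perm (Fin n))) *ᵥ (topIso hT (1 - η) *ᵥ u)) ≤
              (m + (m : ℝ) ^ 2 * (2 / 300)) * nrm2 u) ∪
          (Finset.univ.filter fun y : Fin m → Alt n => ¬ ∀ u : TopIdx hT (1 - η) → ℂ,
            nrm2 ((∑ l, (F.ρ i (y l : Perm (Fin n)))ᴴ) *ᵥ (topIso hT (1 - η) *ᵥ u)) ≤
              (m + (m : ℝ) ^ 2 * (2 / 300)) * nrm2 u) := by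
        intro y hy
        rw [Finset.mem_union]
        by_contra hno
        rw [not_or] at hno
        obtain ⟨h6, h7⟩ := hno
        simp only [Finset.mem_filter, Finset.mem_univ, true_and, not_not] at h6 h7
        apply (Finset.mem_filter.1 hy).2
        intro u
        exact avg_small hm _ _ _ (nrm2_nonneg u) (h6 u) (h7 u)
      have h8 := (Finset.card_le_card h5).trans (Finset.card_union_le _ _)
      have h9 := (Nat.cast_le (α := ℝ)).2 h8
      rw [Nat.cast_add] at h9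
      refine h9.trans ((add_le_add h2 h3).trans (le_of_eq ?_))
      ring)
  have h3 : Nat.card {y : Fin m → Alt n // ¬ Small F μ η q y} ≤
      Nat.card {y : Fin m → Alt n // ∃ i, ¬ Triv (F.ρ i) (Alt n) ∧ HasFix (F.ρ i) (stab n q) ∧
        ¬ ∀ u : TopIdx (wop_isHermitian (F.ρ i) (F.irr i).unit hμ) (1 - η) → ℂ,
      nrm2 (avgRe (fun l => F.ρ i (y l : Perm (Fin n))) *ᵥ
        (topIso (wop_isHermitian (F.ρ i) (F.irr i).unit hμ) (1 - η) *ᵥ u)) ≤
          1 / 100 * nrm2 u} := by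
    refine Nat.card_le_card_of_injective (fun y => ⟨y.1, ?_⟩) ?_
    · have := y.2
      unfold Small at this
      push Not at this ⊢
      obtain ⟨i, h4, h5, hT, u, h6⟩ := this
      exact ⟨i, h4, h5, u, h6⟩
    · intro a b hab
      simpa [Subtype.ext_iff] using hab
  calc (Nat.card {y : Fin m → Alt n // ¬ Small F μ η q y} : ℝ) ≤ _ := Nat.cast_le.2 h3
    _ ≤ _ := h1
    _ = _ := by ring

end Pool.Agent.Helper15.An
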