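import Pool.Agent.Helper15.An.Block

/-! The chain of levels: deterministic step and counting over blocks. -/

set_option linter.unusedSectionVars false

namespace Pool.Agent.Helper15.An

open Matrix Equiv
open scoped ComplexOrder

section fresh
variable {K : ℕ} {Y : Type} [Fintype Y] [Nonempty Y]

/-- exchanging a coordinate with a fresh copy -/
theorem fresh (j : Fin K) (B : (Fin K → Y) → Prop) (f : ℝ)
    (h : ∀ x : Fin K → Y, (Nat.card {y : Y // B (Function.update x j y)} : ℝ) ≤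
      f * Fintype.card Y) :
    (Nat.card {x : Fin K → Y // B x} : ℝ) ≤ f * (Fintype.card Y : ℝ) ^ K := by
  classical
  have hY : (0 : ℝ) < Fintype.card Y := by exact_mod_cast Fintype.card_pos
  have hinv : Function.Involutive (fun p : (Fin K → Y) × Y =>
      ((Function.update p.1 j p.2, p.1 j) : (Fin K → Y) × Y)) := by
    rintro ⟨x, y⟩
    simp
  have h1 : ∑ p : (Fin K → Y) × Y, (if B (Function.update p.1 j p.2) then (1 : ℝ) else 0) =
      ∑ p : (Fin K → Y) × Y, (if B p.1 then (1 : ℝ) else 0) :=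
    Equiv.sum_comp (hinv.toPerm) (fun p : (Fin K → Y) × Y => if B p.1 then (1 : ℝ) else 0)
  rw [Fintype.sum_prod_type, Fintype.sum_prod_type] at h1
  have h2 : ∑ x : Fin K → Y, ∑ _y : Y, (if B x then (1 : ℝ) else 0) =
      Fintype.card Y * Nat.card {x : Fin K → Y // B x} := by
    simp only [Finset.sum_const, Finset.card_univ, nsmul_eq_mul]
    rw [← Finset.mul_sum, Nat.card_eq_fintype_card, Fintype.card_subtype, Finset.card_filter]
    push_cast
    rfl
  have h3 : ∑ x : Fin K → Y, ∑ y : Y, (if B (Function.update x j y) then (1 : ℝ) else 0) ≤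
      ∑ _x : Fin K → Y, f * Fintype.card Y := by
    refine Finset.sum_le_sum fun x _ => ?_
    refine le_trans (le_of_eq ?_) (h x)
    rw [Nat.card_eq_fintype_card, Fintype.card_subtype, Finset.card_filter]
    push_cast
    rfl
  rw [h1, h2, Finset.sum_const, Finset.card_univ, nsmul_eq_mul, Fintype.card_fun,
    Fintype.card_fin] at h3
  push_cast at h3
  have h4 : (Nat.card {x : Fin K → Y // B x} : ℝ) * Fintype.card Y ≤
      (f * (Fintype.card Y : ℝ) ^ K) * Fintype.card Y := by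
    linarith
  exact le_of_mul_le_mul_right h4 hY

end fresh

variable {n : ℕ}

/-- average weight of the blocks in `I` -/
noncomputable def wI {K m : ℕ} (x : Fin K → Fin m → Alt n) (I : Finset (Fin K)) :
    Perm (Fin n) → ℝ := fun g => (I.card : ℝ)⁻¹ * ∑ j ∈ I, tupW (x j) g

theorem wI_isSP {K m : ℕ} (hm : 0 < m) (x : Fin K → Fin m → Alt n) (I : Finset (Fin K))
    (hI : I.Nonempty) : IsSP (Alt n : Set (Perm (Fin n))) (wI x I) := by
  have hc : (0 : ℝ) < I.card := by exact_mod_cast hI.card_pos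
  refine ⟨fun g => ?_, ?_, fun g => ?_, fun g hg => ?_⟩
  · unfold wI
    exact mul_nonneg (by positivity) (Finset.sum_nonneg fun j _ => (tupW_isSP hm (x j)).nonneg g)
  · unfold wI
    rw [← Finset.mul_sum, Finset.sum_comm]
    simp_rw [(tupW_isSP hm _).sum]
    rw [Finset.sum_const, nsmul_eq_mul, mul_one, inv_mul_cancel₀ hc.ne']
  · unfold wI
    congr 1
    exact Finset.sum_congr rfl fun j _ => (tupW_isSP hm (x j)).symm g
  · unfold wI
    rw [Finset.sum_eq_zero fun j _ => (tupW_isSP hm (x j)).supp g hg, mul_zero]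

theorem wop_wI {K m D : ℕ} (ρ : Perm (Fin n) →* Matrix (Fin D) (Fin D) ℂ)
    (hu : ∀ g, (ρ g)ᴴ * ρ g = 1) (x : Fin K → Fin m → Alt n) (I : Finset (Fin K)) :
    wop ρ (wI x I) = (I.card : ℝ)⁻¹ • ∑ j ∈ I, avgRe fun l => ρ (x j l : Perm (Fin n)) := by
  have h1 : ∀ j, avgRe (fun l => ρ (x j l : Perm (Fin n))) = ∑ g, tupW (x j) g • ρ g := by
    intro j
    rw [← wop_tupW ρ hu]; rfl
  simp_rw [h1]
  unfold wop wI
  rw [Finset.sum_comm, Finset.smul_sum]
  refine Finset.sum_congr rfl fun g _ => ?_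
  rw [mul_smul, Finset.sum_smul]

/-- deterministic step -/
theorem step_det {K m : ℕ} (F : PW (Perm (Fin n))) (hm : 0 < m) (x : Fin K → Fin m → Alt n)
    (I : Finset (Fin K)) (hI : 2 ≤ I.card) (h : ℝ) (q : ℕ) (hh : h - 1 ≤ 21 / 25 * (I.card : ℝ))
    (hsm : ∀ j ∈ I, Small F (wI x (I.erase j)) ((h - 1 / 2) / ((I.card : ℝ) - 1)) q (x j)) :
    Good F (wI x I) q ((h - 1) / I.card) := by
  intro i hi hf
  have hu := (F.irr i).unit
  have hIc : (2 : ℝ) ≤ I.card := by exact_mod_cast hI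
  have hne : ∀ j, (I.erase j).Nonempty := by
    intro j
    rw [← Finset.card_pos]
    have := Finset.pred_card_le_card_erase (s := I) (a := j)
    omega
  have hsp : ∀ j, IsSP (Alt n : Set (Perm (Fin n))) (wI x (I.erase j)) := fun j =>
    wI_isSP hm x _ (hne j)
  have hc0 : (I.card : ℝ) - 1 ≠ 0 := by linarith
  have hA1 : ∀ j, ((1 : ℝ) • (1 : Matrix (Fin (F.D i)) (Fin (F.D i)) ℂ) -
      avgRe (fun l => F.ρ i (x j l : Perm (Fin n)))).PosSemidef := by
    intro j
    have h1 := one_sub_wop (F.ρ i) hu (tupW_isSP hm (x j))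
    rwa [wop_tupW (F.ρ i) hu] at h1
  have hmer := merge I (fun j => avgRe (fun l => F.ρ i (x j l : Perm (Fin n))))
    (fun j => wop (F.ρ i) (wI x (I.erase j))) (fun j => avgRe_isHermitian _) hA1
    (fun j => wop_isHermitian (F.ρ i) hu (hsp j)) (fun j => one_sub_wop (F.ρ i) hu (hsp j))
    ((I.card : ℝ) - 1) ((h - 1 / 2) / ((I.card : ℝ) - 1)) (by linarith)
    (fun j hj => by
      have h2 : ((I.erase j).card : ℝ) = (I.card : ℝ) - 1 := by
        rw [Finset.card_erase_of_mem hj, Nat.cast_sub (by omega)]; simp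
      rw [wop_wI (F.ρ i) hu, h2, smul_sub, smul_smul, mul_inv_cancel₀ hc0, one_smul,
        ← Finset.add_sum_erase I _ hj, Finset.sum_sub_distrib, Finset.sum_const,
        ← Nat.cast_smul_eq_nsmul ℝ, h2])
    (by rw [mul_div_cancel₀ _ hc0]; linarith)
    (fun j hj u => hsm j hj i hi hf _ u)
  have h3 := hmer.smul (show (0 : ℝ) ≤ (I.card : ℝ)⁻¹ by positivity)
  convert h3 using 1
  rw [wop_wI (F.ρ i) hu, mul_div_cancel₀ _ hc0, Finset.sum_sub_distrib, Finset.sum_const,
    ← Nat.cast_smul_eq_nsmul ℝ, smul_sub, smul_sub, smul_smul, smul_smul,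
    inv_mul_cancel₀ (by linarith : (I.card : ℝ) ≠ 0)]
  have h4 : (1 - (h - 1) / (I.card : ℝ)) = 1 - (I.card : ℝ)⁻¹ * (h - 1 / 2 - 1 / 2) := by
    rw [div_eq_inv_mul]; ring
  rw [h4, sub_smul]
  abel

/-- deterministic chain -/
theorem chain_det {K m : ℕ} (F : PW (Perm (Fin n))) (hm : 0 < m) (x : Fin K → Fin m → Alt n)
    (q : ℕ → ℕ) (K1 : ℕ) (hK1 : 1 ≤ K1) (h0 : ℝ) (hh0 : h0 ≤ (K1 : ℝ) / 2)
    (hE1 : ∀ I : Finset (Fin K), I.card = K1 → Good F (wI x I) (q 0) (h0 / I.card)) (S : ℕ)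
    (hE2 : ∀ s < S, ∀ I : Finset (Fin K), I.card = K1 + s → ∀ j ∉ I,
      Good F (wI x I) (q s) ((h0 - s) / I.card) →
        Small F (wI x I) ((h0 - s - 1 / 2) / I.card) (q (s + 1)) (x j)) :
    ∀ s ≤ S, ∀ I : Finset (Fin K), I.card = K1 + s →
      Good F (wI x I) (q s) ((h0 - s) / I.card) := by
  intro s
  induction s with
  | zero =>
    intro _ I hI
    have := hE1 I (by simpa using hI)
    simpa using this
  | succ s ih =>
    intro hs I hI
    have hIc : (I.card : ℝ) = K1 + s + 1 := by rw [hI]; push_cast; ring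
    have h1 : (h0 - ((s + 1 : ℕ) : ℝ)) / I.card = ((h0 - s) - 1) / I.card := by
      push_cast; ring
    rw [h1]
    have hK1' : (1 : ℝ) ≤ K1 := by exact_mod_cast hK1
    have hs0 : (0 : ℝ) ≤ s := Nat.cast_nonneg s
    refine step_det F hm x I (by omega) (h0 - s) (q (s + 1)) ?_ ?_
    · rw [hIc]; linarith
    · intro j hj
      have h2 : (I.erase j).card = K1 + s := by rw [Finset.card_erase_of_mem hj, hI]; omega
      have h3 := hE2 s (by omega) (I.erase j) h2 j (Finset.notMem_erase j I)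
        (ih (by omega) _ h2)
      have h4 : ((I.erase j).card : ℝ) = (I.card : ℝ) - 1 := by
        rw [h2, hIc]; push_cast; ring
      rw [h4] at h3
      exact h3

/-- base event for a block -/
def Base (F : PW (Perm (Fin n))) (q : ℕ) {m : ℕ} (y : Fin m → Alt n) : Prop :=
  ∀ i, ¬ Triv (F.ρ i) (Alt n) → HasFix (F.ρ i) (stab n q) →
    ((1 / 2 : ℝ) • (1 : Matrix (Fin (F.D i)) (Fin (F.D i)) ℂ) -
      avgRe (fun l => F.ρ i (y l : Perm (Fin n)))).PosSemidef

theorem base_count (F : PW (Perm (Fin n))) (m : ℕ) (hm : 0 < m) (q : ℕ) (hq : q ≤ n) :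
    (Nat.card {y : Fin m → Alt n // ¬ Base F q y} : ℝ) ≤
      (Fintype.card (Alt n) : ℝ) ^ m * (2 * (9 / 10) ^ m * (n : ℝ) ^ q) := by
  classical
  have h1 := union_bound F q hq (X := Fin m → Alt n)
    (fun i y => ¬ ((1 / 2 : ℝ) • (1 : Matrix (Fin (F.D i)) (Fin (F.D i)) ℂ) -
      avgRe (fun l => F.ρ i (y l : Perm (Fin n)))).PosSemidef)
    ((Fintype.card (Alt n) : ℝ) ^ m * (9 / 10) ^ m) (by positivity)
    (fun i hi _ => by
      have h2 := base_bound (Ω := Alt n) (fun ω => F.ρ i (ω : Perm (Fin n)))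
        (fun ω => (F.irr i).unit _)
        (by
          rcases dichotomy (F.irr i) (Alt n) with h | h
          · exact absurd h hi
          · exact h) m hm
      rw [Fintype.card_fin] at h2
      exact h2)
  have h3 : Nat.card {y : Fin m → Alt n // ¬ Base F q y} =
      Nat.card {y : Fin m → Alt n // ∃ i, ¬ Triv (F.ρ i) (Alt n) ∧ HasFix (F.ρ i) (stab n q) ∧
        ¬ ((1 / 2 : ℝ) • (1 : Matrix (Fin (F.D i)) (Fin (F.D i)) ℂ) -
      avgRe (fun l => F.ρ i (y l : Perm (Fin n)))).PosSemidef} := by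
    refine Nat.card_congr (Equiv.subtypeEquivRight fun y => ?_)
    unfold Base
    push Not
    rfl
  rw [h3]
  refine h1.trans (le_of_eq ?_)
  ring

/-- the base event for all blocks gives the first gap -/
theorem good_of_base {K m : ℕ} (F : PW (Perm (Fin n))) (x : Fin K → Fin m → Alt n) (q : ℕ)
    (I : Finset (Fin K)) (hI : I.Nonempty) (h : ∀ j ∈ I, Base F q (x j)) (h0 : ℝ)
    (hh : h0 ≤ (I.card : ℝ) / 2) : Good F (wI x I) q (h0 / I.card) := by
  intro i hi hf
  have hu := (F.irr i).unit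
  have hc : (0 : ℝ) < I.card := by exact_mod_cast hI.card_pos
  have h1 : (∑ j ∈ I, ((1 / 2 : ℝ) • (1 : Matrix (Fin (F.D i)) (Fin (F.D i)) ℂ) -
      avgRe (fun l => F.ρ i (x j l : Perm (Fin n))))).PosSemidef :=
    posSemidef_sum _ fun j hj => h j hj i hi hf
  have h2 := h1.smul (show (0 : ℝ) ≤ (I.card : ℝ)⁻¹ by positivity)
  have h3 : (((1 - h0 / I.card) - 1 / 2) •
      (1 : Matrix (Fin (F.D i)) (Fin (F.D i)) ℂ)).PosSemidef := by
    refine Matrix.PosSemidef.one.smul ?_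
    have : h0 / (I.card : ℝ) ≤ 1 / 2 := by
      rw [div_le_iff₀ hc]; linarith
    linarith
  have h4 := h2.add h3
  convert h4 using 1
  have h5 : (1 - h0 / (I.card : ℝ)) • (1 : Matrix (Fin (F.D i)) (Fin (F.D i)) ℂ) =
      (1 / 2 : ℝ) • (1 : Matrix (Fin (F.D i)) (Fin (F.D i)) ℂ) +
        ((1 - h0 / (I.card : ℝ)) - 1 / 2) • (1 : Matrix (Fin (F.D i)) (Fin (F.D i)) ℂ) := by
    rw [← add_smul]; congr 1; ring
  rw [wop_wI (F.ρ i) hu, Finset.sum_sub_distrib, Finset.sum_const, ← Nat.cast_smul_eq_nsmul ℝ,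
    smul_sub, smul_smul, smul_smul, inv_mul_cancel₀ hc.ne', one_mul, h5]
  abel

end Pool.Agent.Helper15.An
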