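import Pool.Agent.Helper15.An.Count
import Pool.Agent.Helper17.RelDim
import Pool.Agent.Helper4.DimDoubling
import Pool.Agent.Helper51.KTrick

/-! Character bound for representations without vectors fixed by the alternating group of a
large subset, at permutations with few fixed points. -/

set_option linter.unusedSectionVars false

namespace Pool.Agent.Helper15.An

open Matrix Module Equiv
open Pool.Agent.Helper17.RelDim (fixS finrank_fixS_le)

theorem apply_inv_self' {n : ℕ} (g : Perm (Fin n)) (x : Fin n) : g (g⁻¹ x) = x := by simp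

theorem inv_apply_self' {n : ℕ} (g : Perm (Fin n)) (x : Fin n) : g⁻¹ (g x) = x := by simp

section T
variable {n : ℕ}

theorem exists_T (g : Perm (Fin n)) : ∃ T : Finset (Fin n), (∀ x ∈ T, g x ∉ T) ∧
    n ≤ fixc g + 3 * T.card := by
  classical
  obtain ⟨T, hT, hmax⟩ := Finset.exists_max_image
    (Finset.univ.filter fun T : Finset (Fin n) => ∀ x ∈ T, g x ∉ T) Finset.card
    ⟨∅, by simp⟩
  simp only [Finset.mem_filter, Finset.mem_univ, true_and] at hT hmax
  refine ⟨T, hT, ?_⟩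
  have hcov : (Finset.univ : Finset (Fin n)) ⊆
      (Finset.univ.filter fun x : Fin n => g x = x) ∪ (T ∪ (T.image g ∪ T.image (g⁻¹ : Perm (Fin n)))) := by
    intro x _
    by_contra hx
    simp only [Finset.mem_union, Finset.mem_filter, Finset.mem_univ, true_and, not_or,
      Finset.mem_image, not_exists, not_and] at hx
    obtain ⟨h1, h2, h3, h4⟩ := hx
    have h5 : ∀ y ∈ insert x T, g y ∉ insert x T := by
      intro y hy
      rw [Finset.mem_insert] at hy
      rw [Finset.mem_insert, not_or]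
      rcases hy with rfl | hy
      · refine ⟨h1, fun h => ?_⟩
        exact h4 (g y) h (by simp)
      · exact ⟨h3 y hy, hT y hy⟩
    have h6 := hmax _ h5
    rw [Finset.card_insert_of_notMem h2] at h6
    omega
  have h1 := Finset.card_le_card hcov
  rw [Finset.card_univ, Fintype.card_fin] at h1
  have h2 := Finset.card_union_le (Finset.univ.filter fun x : Fin n => g x = x)
    (T ∪ (T.image g ∪ T.image (g⁻¹ : Perm (Fin n))))
  have h3 := Finset.card_union_le T (T.image g ∪ T.image (g⁻¹ : Perm (Fin n)))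
  have h4 := Finset.card_union_le (T.image g) (T.image (g⁻¹ : Perm (Fin n)))
  have h5 : (T.image g).card ≤ T.card := Finset.card_image_le
  have h6 : (T.image (g⁻¹ : Perm (Fin n))).card ≤ T.card := Finset.card_image_le
  unfold fixc
  omega

end T

variable {n : ℕ} {V : Type} [NormedAddCommGroup V] [InnerProductSpace ℂ V] [FiniteDimensional ℂ V]

/-- vectors fixed by the even permutations supported in `C` -/
def altfix (ρ : Perm (Fin n) →* (V →ₗ[ℂ] V)) (C : Finset (Fin n)) : Submodule ℂ V where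
  carrier := {v | ∀ σ : Perm (Fin n), Perm.sign σ = 1 → (∀ x, x ∉ C → σ x = x) → ρ σ v = v}
  add_mem' := by intro a b ha hb σ hs hσ; rw [map_add, ha σ hs hσ, hb σ hs hσ]
  zero_mem' := by intro σ _ _; exact map_zero _
  smul_mem' := by intro c a ha σ hs hσ; rw [map_smul, ha σ hs hσ]

/-- twist by the sign -/
noncomputable def tw (ρ : Perm (Fin n) →* (V →ₗ[ℂ] V)) : Perm (Fin n) →* (V →ₗ[ℂ] V) where
  toFun σ := (((Perm.sign σ : ℤˣ) : ℤ) : ℂ) • ρ σ
  map_one' := by simp
  map_mul' a b := by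
    rw [map_mul, map_mul, Algebra.smul_mul_assoc, Algebra.mul_smul_comm, smul_smul]
    push_cast
    rfl

theorem tw_apply (ρ : Perm (Fin n) →* (V →ₗ[ℂ] V)) (σ : Perm (Fin n)) :
    tw ρ σ = (((Perm.sign σ : ℤˣ) : ℤ) : ℂ) • ρ σ := rfl

theorem tw_even (ρ : Perm (Fin n) →* (V →ₗ[ℂ] V)) {σ : Perm (Fin n)} (h : Perm.sign σ = 1) :
    tw ρ σ = ρ σ := by
  rw [tw_apply, h]; simp

theorem tw_odd (ρ : Perm (Fin n) →* (V →ₗ[ℂ] V)) {σ : Perm (Fin n)} (h : Perm.sign σ = -1) :
    tw ρ σ = - ρ σ := by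
  rw [tw_apply, h]; simp

theorem tw_unitary {ρ : Perm (Fin n) →* (V →ₗ[ℂ] V)}
    (hu : ∀ σ v w, inner ℂ (ρ σ v) (ρ σ w) = inner ℂ v w) (σ : Perm (Fin n)) (v w : V) :
    inner ℂ (tw ρ σ v) (tw ρ σ w) = inner ℂ v w := by
  rcases Int.units_eq_one_or (Perm.sign σ) with h | h
  · rw [tw_even ρ h, hu]
  · rw [tw_odd ρ h, LinearMap.neg_apply, LinearMap.neg_apply, inner_neg_neg, hu]

theorem fixS_le_altfix (ρ : Perm (Fin n) →* (V →ₗ[ℂ] V)) (C : Finset (Fin n)) :
    fixS ρ C ≤ altfix ρ C := fun _ hv σ _ hσ => hv σ hσ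

theorem fixS_tw_le_altfix (ρ : Perm (Fin n) →* (V →ₗ[ℂ] V)) (C : Finset (Fin n)) :
    fixS (tw ρ) C ≤ altfix ρ C := fun v hv σ hs hσ => by
  have := hv σ hσ
  rwa [tw_even ρ hs] at this

theorem altfix_le (ρ : Perm (Fin n) →* (V →ₗ[ℂ] V)) (C : Finset (Fin n)) (hC : 2 ≤ C.card) :
    altfix ρ C ≤ fixS ρ C ⊔ fixS (tw ρ) C := by
  classical
  intro v hv
  obtain ⟨a, ha, b, hb, hab⟩ := Finset.one_lt_card.1 hC
  set τ := swap a b with hτ
  have hτs : Perm.sign τ = -1 := Perm.sign_swap hab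
  have hτC : ∀ x, x ∉ C → τ x = x := by
    intro x hx
    rw [hτ, swap_apply_of_ne_of_ne]
    · rintro rfl; exact hx ha
    · rintro rfl; exact hx hb
  have hττ : τ * τ = 1 := swap_mul_self a b
  have hodd : ∀ σ : Perm (Fin n), Perm.sign σ = -1 → (∀ x, x ∉ C → σ x = x) →
      ρ σ v = ρ τ v := by
    intro σ hs hσ
    have h1 : ρ (τ⁻¹ * σ) v = v := by
      apply hv
      · rw [map_mul, Perm.sign_inv, hs, hτs]; rfl
      · intro x hx
        rw [Perm.mul_apply, hσ x hx, Perm.inv_eq_iff_eq, hτC x hx]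
    have h2 : σ = τ * (τ⁻¹ * σ) := by group
    rw [h2, map_mul]
    change ρ τ (ρ (τ⁻¹ * σ) v) = ρ τ v
    rw [h1]
  have hodd2 : ∀ σ : Perm (Fin n), Perm.sign σ = -1 → (∀ x, x ∉ C → σ x = x) →
      ρ σ (ρ τ v) = v := by
    intro σ hs hσ
    have h1 : ρ (σ * τ) v = v := by
      apply hv
      · rw [map_mul, hs, hτs]; rfl
      · intro x hx
        rw [Perm.mul_apply, hτC x hx, hσ x hx]
    rw [map_mul] at h1
    exact h1
  have heven2 : ∀ σ : Perm (Fin n), Perm.sign σ = 1 → (∀ x, x ∉ C → σ x = x) →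
      ρ σ (ρ τ v) = ρ τ v := by
    intro σ hs hσ
    have h1 : ρ (τ⁻¹ * σ * τ) v = v := by
      apply hv
      · rw [map_mul, map_mul, Perm.sign_inv, hs, hτs]; rfl
      · intro x hx
        rw [Perm.mul_apply, Perm.mul_apply, hτC x hx, hσ x hx, Perm.inv_eq_iff_eq, hτC x hx]
    have h2 : σ * τ = τ * (τ⁻¹ * σ * τ) := by group
    have h3 : ρ (σ * τ) v = ρ τ v := by
      rw [h2, map_mul]
      change ρ τ (ρ (τ⁻¹ * σ * τ) v) = ρ τ v
      rw [h1]
    rw [map_mul] at h3
    exact h3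
  rw [Submodule.mem_sup]
  refine ⟨(2 : ℂ)⁻¹ • (v + ρ τ v), ?_, (2 : ℂ)⁻¹ • (v - ρ τ v), ?_, ?_⟩
  · apply Submodule.smul_mem
    intro σ hσ
    rw [map_add]
    rcases Int.units_eq_one_or (Perm.sign σ) with h | h
    · rw [hv σ h hσ, heven2 σ h hσ]
    · rw [hodd σ h hσ, hodd2 σ h hσ, add_comm]
  · apply Submodule.smul_mem
    intro σ hσ
    rcases Int.units_eq_one_or (Perm.sign σ) with h | h
    · rw [tw_even ρ h, map_sub, hv σ h hσ, heven2 σ h hσ]
    · rw [tw_odd ρ h, LinearMap.neg_apply, map_sub, hodd σ h hσ, hodd2 σ h hσ, neg_sub]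
  · rw [← smul_add, add_add_sub_cancel, ← two_smul ℂ v, smul_smul]
    norm_num

/-- conjugating: no fixed vector of a stabilizer means no fixed vector of any conjugate -/
theorem altfix_eq_bot (ρ : Perm (Fin n) →* (V →ₗ[ℂ] V)) (r : ℕ)
    (hno : ∀ v : V, (∀ σ : Perm (Fin n), Perm.sign σ = 1 →
      (∀ j : Fin n, j.val < r → σ j = j) → ρ σ v = v) → v = 0)
    (C : Finset (Fin n)) (hC : C.card + r = n) : altfix ρ C = ⊥ := by
  classical
  rw [Submodule.eq_bot_iff]
  intro v hv
  have hcard : Fintype.card {j : Fin n // j.val < r} = Fintype.card {x : Fin n // x ∉ C} := by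
    rw [Fintype.card_subtype, Fintype.card_subtype]
    have h1 : (Finset.univ.filter fun x : Fin n => x ∉ C) = Cᶜ := by
      ext x; simp
    rw [h1, Finset.card_compl, Fintype.card_fin]
    have h2 : (Finset.univ.filter fun j : Fin n => j.val < r).card = r := by
      rcases Nat.lt_or_ge r n with h | h
      · have : (Finset.univ.filter fun j : Fin n => j.val < r) = Finset.Iio (⟨r, h⟩ : Fin n) := by
          ext j; simp [Fin.lt_def]
        rw [this, Fin.card_Iio]
      · have hr : r = n := by omega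
        subst hr
        have : (Finset.univ.filter fun j : Fin r => j.val < r) = Finset.univ := by
          ext j; simp
        rw [this]; simp
    rw [h2]; omega
  set π : Perm (Fin n) := (Fintype.equivOfCardEq hcard).extendSubtype with hπ
  have hπ1 : ∀ j : Fin n, j.val < r → π j ∉ C := fun j hj =>
    (Fintype.equivOfCardEq hcard).extendSubtype_mem j hj
  have h0 : ρ π⁻¹ v = 0 := by
    apply hno
    intro σ hs hσ
    have h1 : ρ (π * σ * π⁻¹) v = v := by
      apply hv
      · rw [map_mul, map_mul, hs, mul_one, ← map_mul, mul_inv_cancel, map_one]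
      · intro x hx
        rw [Perm.mul_apply, Perm.mul_apply]
        have h2 : (π⁻¹ x : Fin n).val < r := by
          by_contra hlt
          have h3 := (Fintype.equivOfCardEq hcard).extendSubtype_not_mem (π⁻¹ x) hlt
          apply h3
          change π (π⁻¹ x) ∉ C
          rwa [apply_inv_self']
        rw [hσ _ h2, apply_inv_self']
    have h2 : σ * π⁻¹ = π⁻¹ * (π * σ * π⁻¹) := by group
    have h3 : ρ (σ * π⁻¹) v = ρ π⁻¹ v := by
      rw [h2, map_mul]
      change ρ π⁻¹ (ρ (π * σ * π⁻¹) v) = _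
      rw [h1]
    rw [map_mul] at h3
    exact h3
  have h4 : ρ π (ρ π⁻¹ v) = v := by
    have : ρ (π * π⁻¹) v = v := by rw [mul_inv_cancel, map_one]; rfl
    rw [map_mul] at this
    exact this
  rw [← h4, h0, map_zero]

/-- dimension bound for the vectors fixed by a large alternating group -/
theorem finrank_altfix_le (ρ : Perm (Fin n) →* (V →ₗ[ℂ] V))
    (hu : ∀ σ v w, inner ℂ (ρ σ v) (ρ σ w) = inner ℂ v w) (r : ℕ)
    (hno : ∀ v : V, (∀ σ : Perm (Fin n), Perm.sign σ = 1 →
      (∀ j : Fin n, j.val < r → σ j = j) → ρ σ v = v) → v = 0)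
    (hr : 16 * (r + 1) ≤ n) (C : Finset (Fin n)) (hC : n ≤ 4 * C.card) (hn : 64 ≤ n) :
    (finrank ℂ (altfix ρ C) : ℝ) ≤ 2 * (7 / 8) ^ (r + 1) * finrank ℂ V := by
  have hlam : r + 1 ≤ n / 16 := by omega
  have h1 := finrank_fixS_le ρ hu r (n / 16)
    (fun C' hC' => by
      rw [eq_bot_iff, ← altfix_eq_bot ρ r hno C' hC']
      exact fixS_le_altfix ρ C') hlam C (by omega)
  have h2 := finrank_fixS_le (tw ρ) (tw_unitary hu) r (n / 16)
    (fun C' hC' => by
      rw [eq_bot_iff, ← altfix_eq_bot ρ r hno C' hC']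
      exact fixS_tw_le_altfix ρ C') hlam C (by omega)
  have h3 : (1 - ((C.card : ℝ) - 2 * (n / 16 : ℕ) - 1) / ((n : ℝ) - 2 * (n / 16 : ℕ) - 1)) ≤
      7 / 8 := by
    have hl : ((n / 16 : ℕ) : ℝ) ≤ n / 16 := Nat.cast_div_le
    have hn' : (64 : ℝ) ≤ n := by exact_mod_cast hn
    have hC' : (n : ℝ) ≤ 4 * C.card := by exact_mod_cast hC
    have hpos : (0 : ℝ) < (n : ℝ) - 2 * (n / 16 : ℕ) - 1 := by linarith
    have : 1 / 8 ≤ ((C.card : ℝ) - 2 * (n / 16 : ℕ) - 1) / ((n : ℝ) - 2 * (n / 16 : ℕ) - 1) := by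
      rw [le_div_iff₀ hpos]
      nlinarith
    linarith
  have h4 : 0 ≤ (1 - ((C.card : ℝ) - 2 * (n / 16 : ℕ) - 1) / ((n : ℝ) - 2 * (n / 16 : ℕ) - 1)) := by
    have hl : ((n / 16 : ℕ) : ℝ) ≤ n / 16 := Nat.cast_div_le
    have hn' : (64 : ℝ) ≤ n := by exact_mod_cast hn
    have hC' : (C.card : ℝ) ≤ n := by
      have := Finset.card_le_univ C
      rw [Fintype.card_fin] at this
      exact_mod_cast this
    have hpos : (0 : ℝ) < (n : ℝ) - 2 * (n / 16 : ℕ) - 1 := by linarith
    rw [sub_nonneg, div_le_one hpos]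
    linarith
  have h5 := pow_le_pow_left₀ h4 h3 (r + 1)
  have h6 : finrank ℂ (altfix ρ C) ≤ finrank ℂ (fixS ρ C) + finrank ℂ (fixS (tw ρ) C) :=
    (Submodule.finrank_mono (altfix_le ρ C (by omega))).trans
      (Submodule.finrank_add_le_finrank_add_finrank _ _)
  have h7 : (finrank ℂ (altfix ρ C) : ℝ) ≤ finrank ℂ (fixS ρ C) + finrank ℂ (fixS (tw ρ) C) := by
    exact_mod_cast h6
  have h8 : (0 : ℝ) ≤ finrank ℂ V := Nat.cast_nonneg _
  have h9 := mul_le_mul_of_nonneg_right h5 h8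
  linarith

theorem finrank_sup_le (S : Finset (Finset (Fin n))) (f : Finset (Fin n) → Submodule ℂ V) (b : ℝ)
    (hb : ∀ R ∈ S, (finrank ℂ (f R) : ℝ) ≤ b) :
    (finrank ℂ (S.sup f : Submodule ℂ V) : ℝ) ≤ S.card * b := by
  classical
  induction S using Finset.induction_on with
  | empty => simp
  | insert R S hR ih =>
    rw [Finset.sup_insert, Finset.card_insert_of_notMem hR]
    have h1 := ih fun R' hR' => hb R' (Finset.mem_insert_of_mem hR')
    have h2 := hb R (Finset.mem_insert_self R S)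
    have h3 : (finrank ℂ (f R ⊔ S.sup f : Submodule ℂ V) : ℝ) ≤
        finrank ℂ (f R) + finrank ℂ (S.sup f : Submodule ℂ V) := by
      exact_mod_cast Submodule.finrank_add_le_finrank_add_finrank _ _
    push_cast
    linarith

/-- moving the fixed space by a permutation -/
theorem map_altfix (ρ : Perm (Fin n) →* (V →ₗ[ℂ] V)) (π : Perm (Fin n)) (C C' : Finset (Fin n))
    (hC' : ∀ x, π x ∈ C' → x ∈ C)
    (v : V) (hv : v ∈ altfix ρ C) : ρ π v ∈ altfix ρ C' := by
  intro σ hs hσ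
  have h1 : ρ (π⁻¹ * σ * π) v = v := by
    apply hv
    · rw [map_mul, map_mul, hs, mul_one, ← map_mul, inv_mul_cancel, map_one]
    · intro x hx
      have h2 : π x ∉ C' := fun h => hx (hC' x h)
      rw [Perm.mul_apply, Perm.mul_apply, hσ _ h2, inv_apply_self']
  have h2 : σ * π = π * (π⁻¹ * σ * π) := by group
  have h3 : ρ (σ * π) v = ρ π v := by
    rw [h2, map_mul]
    change ρ π (ρ (π⁻¹ * σ * π) v) = _
    rw [h1]
  rw [map_mul] at h3
  exact h3

/-- The character bound. -/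
theorem char_bound (ρ : Perm (Fin n) →* (V →ₗ[ℂ] V))
    (hu : ∀ σ v w, inner ℂ (ρ σ v) (ρ σ w) = inner ℂ v w) (r : ℕ)
    (hno : ∀ v : V, (∀ σ : Perm (Fin n), Perm.sign σ = 1 →
      (∀ j : Fin n, j.val < r → σ j = j) → ρ σ v = v) → v = 0)
    (hn : 64 ≤ n) (hr : 16 * (r + 1) ≤ n) (J : ℕ) (hJ : 20 * (12 * J + 1) ≤ n)
    (g : Perm (Fin n)) (hg : 10 * fixc g < n) :
    ‖LinearMap.trace ℂ V (ρ g)‖ ≤
      (2 * (n : ℝ) ^ (12 * J) * (7 / 8) ^ (r + 1) + 1 / 2 ^ J) * finrank ℂ V := by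
  classical
  obtain ⟨T, hT, hTc⟩ := exists_T g
  have hT1 : 3 * n < 10 * T.card := by omega
  set s := 12 * J with hs
  set U : Submodule ℂ V := (T.powersetCard s).sup (fun R => altfix ρ (T \ R)) with hU
  have hTR : ∀ R ∈ T.powersetCard s, (T \ R).card + s = T.card := by
    intro R hR
    rw [Finset.mem_powersetCard] at hR
    rw [Finset.card_sdiff_of_subset hR.1, hR.2]
    have := Finset.card_le_card hR.1
    omega
  -- dimension of U
  have hUdim : (finrank ℂ U : ℝ) ≤ (n : ℝ) ^ s * (2 * (7 / 8) ^ (r + 1) * finrank ℂ V) := by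
    have h1 := finrank_sup_le (T.powersetCard s) (fun R => altfix ρ (T \ R))
      (2 * (7 / 8) ^ (r + 1) * finrank ℂ V) (fun R hR => by
        refine finrank_altfix_le ρ hu r hno hr (T \ R) ?_ hn
        have := hTR R hR
        omega)
    refine h1.trans ?_
    have h2 : ((T.powersetCard s).card : ℝ) ≤ (n : ℝ) ^ s := by
      rw [Finset.card_powersetCard]
      have h3 : T.card.choose s ≤ T.card ^ s := Nat.choose_le_pow T.card s
      have h4 : T.card ≤ n := by simpa using Finset.card_le_univ T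
      have h5 : T.card ^ s ≤ n ^ s := Nat.pow_le_pow_left h4 s
      exact_mod_cast h3.trans h5
    have h8 : (0 : ℝ) ≤ 2 * (7 / 8) ^ (r + 1) * finrank ℂ V := by positivity
    exact mul_le_mul_of_nonneg_right h2 h8
  -- invariance of U
  have hUT : ∀ σ : Perm (Fin n), Perm.sign σ = 1 → (∀ x, x ∉ T → σ x = x) →
      ∀ u ∈ U, ρ σ u ∈ U := by
    intro σ _ hσ
    have hle : U ≤ U.comap (ρ σ) := by
      rw [hU]
      refine Finset.sup_le fun R hR => ?_
      intro v hv
      rw [Submodule.mem_comap]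
      have hmemT : ∀ x, σ x ∈ T ↔ x ∈ T := by
        intro x
        constructor
        · intro h
          by_contra hx
          rw [hσ x hx] at h
          exact hx h
        · intro h
          by_contra hx
          have h1 := hσ (σ x) hx
          exact hx ((σ.injective h1).symm ▸ h)
      have hR' := Finset.mem_powersetCard.1 hR
      have hR2 : R.map σ.toEmbedding ∈ T.powersetCard s := by
        rw [Finset.mem_powersetCard, Finset.card_map]
        refine ⟨?_, hR'.2⟩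
        intro x hx
        rw [Finset.mem_map] at hx
        obtain ⟨y, hy, rfl⟩ := hx
        exact (hmemT y).2 (hR'.1 hy)
      have h2 : ρ σ v ∈ altfix ρ (T \ R.map σ.toEmbedding) := by
        refine map_altfix ρ σ (T \ R) _ ?_ v hv
        intro x hx
        rw [Finset.mem_sdiff] at hx ⊢
        refine ⟨(hmemT x).1 hx.1, fun h => hx.2 ?_⟩
        rw [Finset.mem_map]
        exact ⟨x, h, rfl⟩
      exact (Finset.le_sup (f := fun R => altfix ρ (T \ R)) hR2) h2
    exact fun u hu' => hle hu'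
  have hUgT : ∀ σ : Perm (Fin n), Perm.sign σ = 1 → (∀ x ∈ T, σ x = x) →
      ∀ u ∈ U, ρ σ u ∈ U := by
    intro σ _ hσ
    have hle : U ≤ U.comap (ρ σ) := by
      rw [hU]
      refine Finset.sup_le fun R hR => ?_
      intro v hv
      rw [Submodule.mem_comap]
      have h2 : ρ σ v ∈ altfix ρ (T \ R) := by
        refine map_altfix ρ σ (T \ R) _ ?_ v hv
        intro x hx
        have h3 := hσ (σ x) (Finset.mem_sdiff.1 hx).1
        have h4 : σ x = x := σ.injective h3
        rwa [h4] at hx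
      exact (Finset.le_sup (f := fun R => altfix ρ (T \ R)) hR) h2
    exact fun u hu' => hle hu'
  have hW : ∀ W : Submodule ℂ V, W ≤ Uᗮ → W ≠ ⊥ →
      (∀ σ : Perm (Fin n), Perm.sign σ = 1 → (∀ x, x ∉ T → σ x = x) →
        ∀ w ∈ W, ρ σ w ∈ W) → ((2 : ℝ) ^ J) ^ 4 ≤ finrank ℂ W := by
    intro W hWU hW0 hWinv
    have h1 := Pool.Agent.Helper4.DimDoubling.dim_doubling ρ (4 * J) T (by omega) W hW0 hWinv
      (fun C hCT hCc w hw hfix => by
        have hR : T \ C ∈ T.powersetCard s := by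
          rw [Finset.mem_powersetCard, Finset.card_sdiff_of_subset hCT]
          exact ⟨Finset.sdiff_subset, by omega⟩
        have h2 : w ∈ altfix ρ (T \ (T \ C)) := by
          rw [Finset.sdiff_sdiff_eq_self hCT]
          exact hfix
        have h3 : w ∈ U := (Finset.le_sup (f := fun R => altfix ρ (T \ R)) hR) h2
        have h4 : w ∈ Uᗮ := hWU hw
        have h5 : w ∈ U ⊓ Uᗮ := ⟨h3, h4⟩
        rw [Submodule.inf_orthogonal_eq_bot] at h5
        exact (Submodule.mem_bot ℂ).1 h5)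
    rw [← pow_mul, mul_comm J 4]
    exact_mod_cast h1
  have h1 := Pool.Agent.Helper51.KT.k_trick ρ hu g T hT U hUT hUgT ((2 : ℝ) ^ J) (by positivity) hW
  refine h1.trans ?_
  have h2 : (2 * (n : ℝ) ^ s * (7 / 8) ^ (r + 1) + 1 / 2 ^ J) * finrank ℂ V =
      (n : ℝ) ^ s * (2 * (7 / 8) ^ (r + 1) * finrank ℂ V) + finrank ℂ V / 2 ^ J := by ring
  rw [h2]
  linarith

end Pool.Agent.Helper15.An
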