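import Pool.Agent.Helper15.An.Stab
import Pool.Agent.Helper15.An.Char

/-! Matrix form of the character bound. -/

set_option linter.unusedSectionVars false

namespace Pool.Agent.Helper15.An

open Matrix Module Equiv

variable {n D : ℕ}

/-- the representation on Euclidean space -/
noncomputable def toV (ρ : Perm (Fin n) →* Matrix (Fin D) (Fin D) ℂ) :
    Perm (Fin n) →* (EuclideanSpace ℂ (Fin D) →ₗ[ℂ] EuclideanSpace ℂ (Fin D)) where
  toFun g := Matrix.toEuclideanLin (ρ g)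
  map_one' := by
    rw [map_one]
    ext v i
    simp
  map_mul' a b := by
    rw [map_mul]
    apply LinearMap.ext
    intro v
    rw [Module.End.mul_apply]
    ext i
    simp [Matrix.mulVec_mulVec]

theorem toV_apply (ρ : Perm (Fin n) →* Matrix (Fin D) (Fin D) ℂ) (g : Perm (Fin n))
    (v : EuclideanSpace ℂ (Fin D)) : toV ρ g v = WithLp.toLp 2 (ρ g *ᵥ v.ofLp) := rfl

theorem toV_inner (ρ : Perm (Fin n) →* Matrix (Fin D) (Fin D) ℂ)
    (hu : ∀ g, (ρ g)ᴴ * ρ g = 1) (g : Perm (Fin n)) (v w : EuclideanSpace ℂ (Fin D)) :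
    inner ℂ (toV ρ g v) (toV ρ g w) = inner ℂ v w := by
  rw [toV_apply, toV_apply, EuclideanSpace.inner_eq_star_dotProduct,
    EuclideanSpace.inner_eq_star_dotProduct]
  simp only []
  rw [dotProduct_comm, star_mulVec, ← dotProduct_mulVec, mulVec_mulVec, hu, one_mulVec,
    dotProduct_comm]

theorem toV_trace (ρ : Perm (Fin n) →* Matrix (Fin D) (Fin D) ℂ) (g : Perm (Fin n)) :
    LinearMap.trace ℂ (EuclideanSpace ℂ (Fin D)) (toV ρ g) = Matrix.trace (ρ g) := by
  rw [LinearMap.trace_eq_matrix_trace ℂ (EuclideanSpace.basisFun (Fin D) ℂ).toBasis]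
  congr 1
  change LinearMap.toMatrix _ _ (Matrix.toEuclideanLin (ρ g)) = ρ g
  rw [Matrix.toEuclideanLin_eq_toLin_orthonormal, LinearMap.toMatrix_toLin]

/-- the character bound, matrix form -/
theorem char_bound_mat (ρ : Perm (Fin n) →* Matrix (Fin D) (Fin D) ℂ)
    (hu : ∀ g, (ρ g)ᴴ * ρ g = 1) (r : ℕ) (hno : ¬ HasFix ρ (stab n r))
    (hn : 64 ≤ n) (hr : 16 * (r + 1) ≤ n) (J : ℕ) (hJ : 20 * (12 * J + 1) ≤ n)
    (g : Perm (Fin n)) (hg : 10 * fixc g < n) :
    ‖Matrix.trace (ρ g)‖ ≤ (2 * (n : ℝ) ^ (12 * J) * (7 / 8) ^ (r + 1) + 1 / 2 ^ J) * D := by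
  have h := char_bound (toV ρ) (toV_inner ρ hu) r (fun v hv => by
    by_contra hne
    apply hno
    refine ⟨v.ofLp, fun h0 => hne ?_, fun h => ?_⟩
    · ext i
      rw [h0]; rfl
    · have h1 := hv h.1 (mem_stab.1 h.2).1 (mem_stab.1 h.2).2
      rw [toV_apply] at h1
      exact congrArg WithLp.ofLp h1) hn hr J hJ g hg
  rw [toV_trace, finrank_euclideanSpace_fin] at h
  exact h

end Pool.Agent.Helper15.An
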