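import Pool.Agent.Helper65.GoldenThompson

/-! Golden-Thompson inequality (proved by helper65), re-exported. -/

namespace Pool.Agent.Helper15.An

open Matrix

theorem golden_thompson {d : Type} [Fintype d] [DecidableEq d] {A B : Matrix d d ℂ}
    (hA : A.IsHermitian) (hB : B.IsHermitian) :
    (Matrix.trace (NormedSpace.exp (A + B))).re ≤
      (Matrix.trace (NormedSpace.exp A * NormedSpace.exp B)).re :=
  Pool.Agent.Helper65.GoldenThompson.golden_thompson hA hB

end Pool.Agent.Helper15.An
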