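import Pool.Agent.Helper15.An.Spec
import Pool.Agent.Helper15.An.GT

/-! Matrix Chernoff bounds in counting form. -/

namespace Pool.Agent.Helper15.An

open Matrix
open scoped ComplexOrder

variable {d : Type} [Fintype d] [DecidableEq d] {Ω : Type} [Fintype Ω]

/-- general iteration of Golden-Thompson: if the exponentials of the Hermitian matrices `Z ω`
average to at most `κ`, the exponentials of sums of `m` independent copies have average trace
at most `κ ^ m * dim`. -/
theorem chernoff_general (Z : Ω → Matrix d d ℂ) (hZ : ∀ ω, (Z ω).IsHermitian) (κ : ℝ)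
    (hκ : 0 ≤ κ)
    (h : (((Fintype.card Ω : ℝ) * κ) • (1 : Matrix d d ℂ) -
      ∑ ω, NormedSpace.exp (Z ω)).PosSemidef) (m : ℕ) :
    ∑ ω : Fin m → Ω, (trace (NormedSpace.exp (∑ i, Z (ω i)))).re ≤
      ((Fintype.card Ω : ℝ) * κ) ^ m * Fintype.card d := by
  induction m with
  | zero =>
    simp [NormedSpace.exp_zero]
  | succ m ih =>
    have hC : (0 : ℝ) ≤ (Fintype.card Ω : ℝ) * κ := mul_nonneg (Nat.cast_nonneg _) hκ
    rw [← (Fin.consEquiv (fun _ : Fin (m + 1) => Ω)).sum_comp, Fintype.sum_prod_type,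
      Finset.sum_comm]
    calc ∑ y : Fin m → Ω, ∑ x : Ω,
          (trace (NormedSpace.exp (∑ i, Z ((Fin.consEquiv (fun _ : Fin (m + 1) => Ω)) (x, y) i)))).re
        ≤ ∑ y : Fin m → Ω, ∑ x : Ω,
          (trace (NormedSpace.exp (∑ i, Z (y i)) * NormedSpace.exp (Z x))).re := by
          refine Finset.sum_le_sum fun y _ => Finset.sum_le_sum fun x _ => ?_
          have hs : (∑ i, Z (y i)).IsHermitian := by
            unfold Matrix.IsHermitian
            rw [conjTranspose_sum]
            exact Finset.sum_congr rfl fun i _ => hZ _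
          have h1 := golden_thompson hs (hZ x)
          have h2 : (∑ i, Z ((Fin.consEquiv (fun _ : Fin (m + 1) => Ω)) (x, y) i)) =
              (∑ i, Z (y i)) + Z x := by
            rw [Fin.sum_univ_succ]
            simp [Fin.consEquiv, add_comm]
          rw [h2]
          exact h1
      _ = ∑ y : Fin m → Ω, (trace (NormedSpace.exp (∑ i, Z (y i)) *
            ∑ x : Ω, NormedSpace.exp (Z x))).re := by
          refine Finset.sum_congr rfl fun y _ => ?_
          rw [Matrix.mul_sum, Matrix.trace_sum, Complex.re_sum]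
      _ ≤ ∑ y : Fin m → Ω, (trace (NormedSpace.exp (∑ i, Z (y i)) *
            (((Fintype.card Ω : ℝ) * κ) • (1 : Matrix d d ℂ)))).re := by
          refine Finset.sum_le_sum fun y _ => ?_
          have hs : (∑ i, Z (y i)).IsHermitian := by
            unfold Matrix.IsHermitian
            rw [conjTranspose_sum]
            exact Finset.sum_congr rfl fun i _ => hZ _
          exact trace_mul_mono (exp_posSemidef hs) h
      _ = ((Fintype.card Ω : ℝ) * κ) *
            ∑ y : Fin m → Ω, (trace (NormedSpace.exp (∑ i, Z (y i)))).re := by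
          rw [Finset.mul_sum]
          refine Finset.sum_congr rfl fun y _ => ?_
          rw [Matrix.mul_smul, Matrix.mul_one, Matrix.trace_smul]
          simp
      _ ≤ ((Fintype.card Ω : ℝ) * κ) *
            (((Fintype.card Ω : ℝ) * κ) ^ m * Fintype.card d) :=
          mul_le_mul_of_nonneg_left ih hC
      _ = ((Fintype.card Ω : ℝ) * κ) ^ (m + 1) * Fintype.card d := by ring

/-- convexity of the exponential on `[0,1]` -/
theorem exp_le_chord (s x : ℝ) (h0 : 0 ≤ x) (h1 : x ≤ 1) :
    Real.exp (s * x) ≤ 1 + (Real.exp s - 1) * x := by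
  have := convexOn_exp.2 (Set.mem_univ (0 : ℝ)) (Set.mem_univ s)
    (show (0 : ℝ) ≤ 1 - x by linarith) h0 (by ring)
  simp only [smul_eq_mul, mul_zero, zero_add, Real.exp_zero, mul_one] at this
  rw [mul_comm s x]
  linarith

/-- convexity of the exponential on `[-1,1]` -/
theorem exp_le_cosh (t x : ℝ) (h0 : -1 ≤ x) (h1 : x ≤ 1) :
    Real.exp (t * x) ≤ Real.cosh t + Real.sinh t * x := by
  have := convexOn_exp.2 (Set.mem_univ (-t)) (Set.mem_univ t)
    (show (0 : ℝ) ≤ (1 - x) / 2 by linarith) (show (0 : ℝ) ≤ (1 + x) / 2 by linarith) (by ring)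
  simp only [smul_eq_mul] at this
  rw [Real.cosh_eq, Real.sinh_eq]
  have h2 : (1 - x) / 2 * -t + (1 + x) / 2 * t = t * x := by ring
  rw [h2] at this
  linarith

/-- eigenvalue bounds from operator bounds -/
theorem eigenvalues_le_of {A : Matrix d d ℂ} (hA : A.IsHermitian) (c : ℝ)
    (h : (c • (1 : Matrix d d ℂ) - A).PosSemidef) (i : d) : hA.eigenvalues i ≤ c := by
  have h1 := hA.eigenvalues_eq i
  have h2 := (Matrix.posSemidef_iff_dotProduct_mulVec.1 h).2 (⇑(hA.eigenvectorBasis i))
  rw [Matrix.sub_mulVec, dotProduct_sub, Matrix.smul_mulVec, Matrix.one_mulVec] at h2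
  have h3 : star (⇑(hA.eigenvectorBasis i)) ⬝ᵥ (⇑(hA.eigenvectorBasis i)) = (1 : ℂ) := by
    have := hA.eigenvectorBasis.orthonormal.1 i
    have h4 : inner ℂ (hA.eigenvectorBasis i) (hA.eigenvectorBasis i) = (1 : ℂ) := by
      rw [inner_self_eq_norm_sq_to_K, this]; simp
    rw [EuclideanSpace.inner_eq_star_dotProduct, dotProduct_comm] at h4
    exact h4
  have h5 := (Complex.nonneg_iff.1 h2).1
  rw [Complex.sub_re, dotProduct_smul, h3] at h5
  simp at h5
  rw [h1]
  simpa using h5

theorem le_eigenvalues_of {A : Matrix d d ℂ} (hA : A.IsHermitian) (c : ℝ)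
    (h : (A - c • (1 : Matrix d d ℂ)).PosSemidef) (i : d) : c ≤ hA.eigenvalues i := by
  have h1 := hA.eigenvalues_eq i
  have h2 := (Matrix.posSemidef_iff_dotProduct_mulVec.1 h).2 (⇑(hA.eigenvectorBasis i))
  rw [Matrix.sub_mulVec, dotProduct_sub, Matrix.smul_mulVec, Matrix.one_mulVec] at h2
  have h3 : star (⇑(hA.eigenvectorBasis i)) ⬝ᵥ (⇑(hA.eigenvectorBasis i)) = (1 : ℂ) := by
    have := hA.eigenvectorBasis.orthonormal.1 i
    have h4 : inner ℂ (hA.eigenvectorBasis i) (hA.eigenvectorBasis i) = (1 : ℂ) := by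
      rw [inner_self_eq_norm_sq_to_K, this]; simp
    rw [EuclideanSpace.inner_eq_star_dotProduct, dotProduct_comm] at h4
    exact h4
  have h5 := (Complex.nonneg_iff.1 h2).1
  rw [Complex.sub_re, dotProduct_smul, h3] at h5
  simp at h5
  rw [h1]
  simpa using h5

/-- Chernoff bound for positive semidefinite contractions with average at most `c`. -/
theorem psd_chernoff [Nonempty Ω] (Y : Ω → Matrix d d ℂ) (hY : ∀ ω, (Y ω).PosSemidef)
    (hY1 : ∀ ω, ((1 : ℝ) • (1 : Matrix d d ℂ) - Y ω).PosSemidef) (c : ℝ) (hc : 0 ≤ c)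
    (hav : (((Fintype.card Ω : ℝ) * c) • (1 : Matrix d d ℂ) - ∑ ω, Y ω).PosSemidef)
    (s : ℝ) (hs : 0 ≤ s) (m : ℕ) :
    ∑ ω : Fin m → Ω, (trace (NormedSpace.exp (s • ∑ i, Y (ω i)))).re ≤
      ((Fintype.card Ω : ℝ) * (1 + (Real.exp s - 1) * c)) ^ m * Fintype.card d := by
  have he : 0 ≤ Real.exp s - 1 := by
    have := Real.one_le_exp hs
    linarith
  have hκ : 0 ≤ 1 + (Real.exp s - 1) * c := by positivity
  have h := chernoff_general (fun ω => s • Y ω) (fun ω => by
    unfold Matrix.IsHermitian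
    rw [conjTranspose_smul, (hY ω).isHermitian.eq]; simp) _ hκ ?_ m
  · simpa [← Finset.smul_sum] using h
  · -- operator inequality
    have h1 : ∀ ω, ((1 : ℝ) • (1 : Matrix d d ℂ) + (Real.exp s - 1) • Y ω -
        NormedSpace.exp (s • Y ω)).PosSemidef := by
      intro ω
      refine affine_sub_exp (hY ω).isHermitian s 1 (Real.exp s - 1) fun i => ?_
      exact exp_le_chord s _ ((hY ω).eigenvalues_nonneg i)
        (eigenvalues_le_of (hY ω).isHermitian 1 (hY1 ω) i)
    have h2 : (∑ ω, ((1 : ℝ) • (1 : Matrix d d ℂ) + (Real.exp s - 1) • Y ω -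
        NormedSpace.exp (s • Y ω))).PosSemidef :=
      posSemidef_sum _ fun ω _ => h1 ω
    have h3 : ((Real.exp s - 1) • (((Fintype.card Ω : ℝ) * c) • (1 : Matrix d d ℂ) -
        ∑ ω, Y ω)).PosSemidef := hav.smul he
    have h4 := h2.add h3
    convert h4 using 1
    rw [Finset.sum_sub_distrib, Finset.sum_add_distrib,
      ← Finset.smul_sum (r := Real.exp s - 1) (f := fun ω => Y ω)]
    simp only [Finset.sum_const, Finset.card_univ, smul_sub]
    rw [← Nat.cast_smul_eq_nsmul ℝ, smul_smul, smul_smul]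
    rw [show ((Fintype.card Ω : ℝ) * (1 + (Real.exp s - 1) * c)) =
      (Fintype.card Ω : ℝ) * 1 + (Real.exp s - 1) * ((Fintype.card Ω : ℝ) * c) by ring, add_smul]
    abel

/-- Chernoff bound for centred Hermitian contractions. -/
theorem centred_chernoff (X : Ω → Matrix d d ℂ) (hX : ∀ ω, (X ω).IsHermitian)
    (hX1 : ∀ ω, ((1 : ℝ) • (1 : Matrix d d ℂ) - X ω).PosSemidef)
    (hX2 : ∀ ω, (X ω - (-1 : ℝ) • (1 : Matrix d d ℂ)).PosSemidef)
    (hav : ∑ ω, X ω = 0) (t : ℝ) (m : ℕ) :
    ∑ ω : Fin m → Ω, (trace (NormedSpace.exp (t • ∑ i, X (ω i)))).re ≤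
      ((Fintype.card Ω : ℝ) * Real.cosh t) ^ m * Fintype.card d := by
  have h := chernoff_general (fun ω => t • X ω) (fun ω => by
    unfold Matrix.IsHermitian
    rw [conjTranspose_smul, (hX ω).eq]; simp) (Real.cosh t) (Real.cosh_pos t).le ?_ m
  · simpa [← Finset.smul_sum] using h
  · have h1 : ∀ ω, (Real.cosh t • (1 : Matrix d d ℂ) + Real.sinh t • X ω -
        NormedSpace.exp (t • X ω)).PosSemidef := by
      intro ω
      refine affine_sub_exp (hX ω) t _ _ fun i => ?_
      exact exp_le_cosh t _ (le_eigenvalues_of (hX ω) (-1) (hX2 ω) i)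
        (eigenvalues_le_of (hX ω) 1 (hX1 ω) i)
    have h2 : (∑ ω, (Real.cosh t • (1 : Matrix d d ℂ) + Real.sinh t • X ω -
        NormedSpace.exp (t • X ω))).PosSemidef :=
      posSemidef_sum _ fun ω _ => h1 ω
    convert h2 using 1
    rw [Finset.sum_sub_distrib, Finset.sum_add_distrib,
      ← Finset.smul_sum (r := Real.sinh t) (f := fun ω => X ω), hav]
    simp only [Finset.sum_const, Finset.card_univ, smul_zero, add_zero]
    rw [← Nat.cast_smul_eq_nsmul ℝ, smul_smul]

end Pool.Agent.Helper15.An
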