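import Mathlib

/-! Counting permutations with prescribed behaviour on an initial segment. -/

namespace Pool.Agent.Helper15.An

open Equiv

variable {n : ℕ}

/-- number of fixed points -/
def fixc (g : Perm (Fin n)) : ℕ := (Finset.univ.filter fun x : Fin n => g x = x).card

/-- permutations sending the first `r` points into `F` -/
def intoS (F : Finset (Fin n)) (r : ℕ) : Finset (Perm (Fin n)) :=
  Finset.univ.filter fun x => ∀ j : Fin n, j.val < r → x j ∈ F

/-- permutations fixing the first `r` points -/
def fixI (n r : ℕ) : Finset (Perm (Fin n)) :=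
  Finset.univ.filter fun x => ∀ j : Fin n, j.val < r → x j = j

theorem intoS_succ (F : Finset (Fin n)) (r : ℕ) (hr : r < n) :
    (intoS F r).card * (F.card - r) ≤ (intoS F (r + 1)).card * (n - r) := by
  classical
  set P := (intoS F r ×ˢ (Finset.univ.filter fun j : Fin n => r ≤ j.val)).filter
    (fun p => p.1 p.2 ∈ F) with hP
  have h1 : (intoS F r).card * (F.card - r) ≤ P.card := by
    have h2 : P.card = ∑ x ∈ intoS F r,
        ((Finset.univ.filter fun j : Fin n => r ≤ j.val).filter (fun j => x j ∈ F)).card := by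
      rw [hP, Finset.card_filter, Finset.sum_product]
      refine Finset.sum_congr rfl fun x _ => ?_
      rw [Finset.card_filter]
    rw [h2, ← smul_eq_mul, ← Finset.sum_const]
    refine Finset.sum_le_sum fun x _ => ?_
    have h3 : (Finset.univ.filter (fun j : Fin n => x j ∈ F)).card = F.card := by
      have : Finset.univ.filter (fun j : Fin n => x j ∈ F) = F.map (x⁻¹ : Perm (Fin n)).toEmbedding := by
        ext j
        simp only [Finset.mem_filter, Finset.mem_univ, true_and, Finset.mem_map_equiv]
        rfl
      rw [this, Finset.card_map]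
    have h4 : (Finset.univ.filter (fun j : Fin n => x j ∈ F)) ⊆
        ((Finset.univ.filter fun j : Fin n => r ≤ j.val).filter (fun j => x j ∈ F)) ∪
        (Finset.univ.filter fun j : Fin n => j.val < r) := by
      intro j hj
      simp only [Finset.mem_filter, Finset.mem_univ, true_and, Finset.mem_union] at hj ⊢
      rcases lt_or_ge j.val r with h | h
      · right; exact h
      · left; exact ⟨h, hj⟩
    have h5 := (Finset.card_le_card h4).trans (Finset.card_union_le _ _)
    have h6 : (Finset.univ.filter fun j : Fin n => j.val < r).card ≤ r := by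
      have : (Finset.univ.filter fun j : Fin n => j.val < r).card ≤ (Finset.range r).card := by
        refine Finset.card_le_card_of_injOn (fun j => j.val) ?_ ?_
        · intro j hj
          simp only [Finset.coe_filter, Finset.mem_univ, true_and, Set.mem_ofPred_eq] at hj
          simpa using hj
        · intro a _ b _ hab
          exact Fin.ext hab
      simpa using this
    omega
  refine h1.trans ?_
  have h7 : (Finset.univ.filter fun j : Fin n => r ≤ j.val).card ≤ n - r := by
    have : (Finset.univ.filter fun j : Fin n => r ≤ j.val).card ≤ (Finset.Ico r n).card := by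
      refine Finset.card_le_card_of_injOn (fun j => j.val) ?_ ?_
      · intro j hj
        simp only [Finset.coe_filter, Finset.mem_univ, true_and, Set.mem_ofPred_eq] at hj
        simp only [Finset.coe_Ico, Set.mem_Ico]
        exact ⟨hj, j.2⟩
      · intro a _ b _ hab
        exact Fin.ext hab
    simpa using this
  have h8 : P.card ≤ (intoS F (r + 1) ×ˢ (Finset.univ.filter fun j : Fin n => r ≤ j.val)).card := by
    refine Finset.card_le_card_of_injOn (fun p => (p.1 * swap ⟨r, hr⟩ p.2, p.2)) ?_ ?_
    · rintro ⟨x, j⟩ hp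
      simp only [hP, intoS, Finset.coe_filter, Finset.mem_product, Finset.mem_filter,
        Finset.mem_univ, true_and, Set.mem_ofPred_eq] at hp
      simp only [intoS, Finset.coe_product, Finset.coe_filter, Finset.mem_univ, true_and,
        Set.mem_prod, Set.mem_ofPred_eq]
      refine ⟨fun i hi => ?_, hp.1.2⟩
      rw [Perm.mul_apply]
      rcases Nat.lt_succ_iff_lt_or_eq.1 hi with h | h
      · rw [swap_apply_of_ne_of_ne]
        · exact hp.1.1 i h
        · intro h'; rw [h'] at h; exact lt_irrefl _ h
        · intro h'; rw [h'] at h; exact absurd hp.1.2 (not_le.2 h)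
      · have : i = ⟨r, hr⟩ := Fin.ext h
        rw [this, swap_apply_left]
        exact hp.2
    · rintro ⟨x, j⟩ _ ⟨y, i⟩ _ h
      simp only [Prod.mk.injEq] at h
      obtain ⟨h9, h10⟩ := h
      subst h10
      rw [mul_left_inj] at h9
      rw [h9]
  refine h8.trans ?_
  rw [Finset.card_product]
  gcongr

theorem intoS_zero (F : Finset (Fin n)) : (intoS F 0).card = n.factorial := by
  unfold intoS
  simp [Fintype.card_perm]

theorem le_intoS (F : Finset (Fin n)) (hF : n ≤ 10 * F.card) :
    ∀ r : ℕ, 20 * r ≤ n → (n.factorial : ℝ) * (1 / 20) ^ r ≤ (intoS F r).card := by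
  intro r
  induction r with
  | zero => intro _; simp [intoS_zero]
  | succ r ih =>
    intro hr
    have h1 := ih (by omega)
    have h2 := intoS_succ F r (by omega)
    have h3 : ((intoS F r).card : ℝ) * ((F.card : ℝ) - r) ≤ (intoS F (r + 1)).card * ((n : ℝ) - r) := by
      have h4 : r ≤ F.card := by omega
      have h5 : r ≤ n := by omega
      have := (Nat.cast_le (α := ℝ)).2 h2
      rw [Nat.cast_mul, Nat.cast_mul, Nat.cast_sub h4, Nat.cast_sub h5] at this
      exact this
    have h6 : ((n : ℝ) - r) * (1 / 20) ≤ (F.card : ℝ) - r := by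
      have h7 : (n : ℝ) ≤ 10 * F.card := by exact_mod_cast hF
      have h8 : (20 : ℝ) * (r + 1) ≤ n := by exact_mod_cast hr
      have h9 : (0 : ℝ) ≤ r := Nat.cast_nonneg r
      linarith
    have hpos : (0 : ℝ) < (n : ℝ) - r := by
      have h8 : (20 : ℝ) * (r + 1) ≤ n := by exact_mod_cast hr
      have h9 : (0 : ℝ) ≤ r := Nat.cast_nonneg r
      linarith
    have h10 : ((intoS F r).card : ℝ) * (1 / 20) * ((n : ℝ) - r) ≤
        (intoS F (r + 1)).card * ((n : ℝ) - r) := by
      refine le_trans ?_ h3
      have : (0 : ℝ) ≤ (intoS F r).card := Nat.cast_nonneg _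
      nlinarith
    have h11 := le_of_mul_le_mul_right h10 hpos
    rw [pow_succ]
    linarith

theorem fixI_zero : (fixI n 0).card = n.factorial := by
  unfold fixI
  simp [Fintype.card_perm]

theorem fixI_succ_mul (r : ℕ) (hr : r < n) :
    (fixI n (r + 1)).card * (n - r) ≤ (fixI n r).card := by
  classical
  have h7 : (Finset.univ.filter fun j : Fin n => r ≤ j.val).card = n - r := by
    have : (Finset.univ.filter fun j : Fin n => r ≤ j.val) = Finset.Ici (⟨r, hr⟩ : Fin n) := by
      ext j
      simp [Fin.le_def]
    rw [this, Fin.card_Ici]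
  rw [← h7, ← Finset.card_product]
  refine Finset.card_le_card_of_injOn (fun p => swap ⟨r, hr⟩ p.2 * p.1) ?_ ?_
  · rintro ⟨x, j⟩ hp
    simp only [fixI, Finset.coe_product, Finset.coe_filter, Finset.mem_univ, true_and,
      Set.mem_prod, Set.mem_ofPred_eq] at hp
    simp only [fixI, Finset.coe_filter, Finset.mem_univ, true_and, Set.mem_ofPred_eq]
    intro i hi
    rw [Perm.mul_apply, hp.1 i (by omega), swap_apply_of_ne_of_ne]
    · intro h'; rw [h'] at hi; exact lt_irrefl _ hi
    · intro h'; rw [h'] at hi; exact absurd hp.2 (not_le.2 hi)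
  · rintro ⟨x, j⟩ hp ⟨y, i⟩ hq h
    simp only [fixI, Finset.coe_product, Finset.coe_filter, Finset.mem_univ, true_and,
      Set.mem_prod, Set.mem_ofPred_eq] at hp hq
    simp only at h
    have h1 : j = i := by
      have h2 := congrArg (fun σ : Perm (Fin n) => σ ⟨r, hr⟩) h
      simp only [Perm.mul_apply] at h2
      rw [hp.1 ⟨r, hr⟩ (Nat.lt_succ_self r), hq.1 ⟨r, hr⟩ (Nat.lt_succ_self r), swap_apply_left,
        swap_apply_left] at h2
      exact h2
    subst h1
    rw [mul_right_inj] at h
    rw [h]

theorem fixI_le (r : ℕ) (hr : 2 * r ≤ n) (hn : 0 < n) :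
    ((fixI n r).card : ℝ) ≤ (n.factorial : ℝ) * (2 / n) ^ r := by
  induction r with
  | zero => simp [fixI_zero]
  | succ r ih =>
    have h1 := ih (by omega)
    have h2 := fixI_succ_mul (n := n) r (by omega)
    have hn' : (0 : ℝ) < n := by exact_mod_cast hn
    have h3 : ((fixI n (r + 1)).card : ℝ) * ((n : ℝ) - r) ≤ (fixI n r).card := by
      have h5 : r ≤ n := by omega
      have := (Nat.cast_le (α := ℝ)).2 h2
      rw [Nat.cast_mul, Nat.cast_sub h5] at this
      exact this
    have h4 : (n : ℝ) / 2 ≤ (n : ℝ) - r := by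
      have h8 : (2 : ℝ) * (r + 1) ≤ n := by exact_mod_cast hr
      linarith
    have h5 : ((fixI n (r + 1)).card : ℝ) * ((n : ℝ) / 2) ≤ (fixI n r).card :=
      (mul_le_mul_of_nonneg_left h4 (Nat.cast_nonneg _)).trans h3
    have h6 : ((fixI n (r + 1)).card : ℝ) ≤ (fixI n r).card * (2 / n) := by
      rw [mul_div_assoc', le_div_iff₀ hn']
      linarith
    calc ((fixI n (r + 1)).card : ℝ) ≤ (fixI n r).card * (2 / n) := h6
      _ ≤ ((n.factorial : ℝ) * (2 / n) ^ r) * (2 / n) := by gcongr
      _ = (n.factorial : ℝ) * (2 / n) ^ (r + 1) := by rw [pow_succ]; ring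

theorem fixI_le_succ (r : ℕ) (hr : r < n) : (fixI n r).card ≤ n * (fixI n (r + 1)).card := by
  classical
  have h0 : n * (fixI n (r + 1)).card =
      ((Finset.univ : Finset (Fin n)) ×ˢ (fixI n (r + 1))).card := by
    rw [Finset.card_product]; simp
  rw [h0]
  refine Finset.card_le_card_of_injOn (fun x => (x ⟨r, hr⟩, swap ⟨r, hr⟩ (x ⟨r, hr⟩) * x)) ?_ ?_
  · intro x hx
    simp only [fixI, Finset.coe_filter, Finset.mem_univ, true_and, Set.mem_ofPred_eq] at hx
    simp only [fixI, Finset.coe_product, Finset.coe_univ, Finset.coe_filter, Finset.mem_univ,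
      true_and, Set.mem_prod, Set.mem_univ, Set.mem_ofPred_eq]
    intro i hi
    rw [Perm.mul_apply]
    rcases Nat.lt_succ_iff_lt_or_eq.1 hi with h | h
    · rw [hx i h, swap_apply_of_ne_of_ne]
      · intro h'; rw [h'] at h; exact lt_irrefl _ h
      · intro h'
        have h2 : x i = x ⟨r, hr⟩ := by rw [hx i h]; exact h'
        have h3 := x.injective h2
        rw [h3] at h
        exact lt_irrefl _ h
    · have : i = ⟨r, hr⟩ := Fin.ext h
      rw [this, swap_apply_right]
  · intro x _ y _ h
    simp only [Prod.mk.injEq] at h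
    obtain ⟨h1, h2⟩ := h
    rw [h1, mul_right_inj] at h2
    exact h2

theorem factorial_le_fixI (r : ℕ) (hr : r ≤ n) : n.factorial ≤ n ^ r * (fixI n r).card := by
  induction r with
  | zero => simp [fixI_zero]
  | succ r ih =>
    have h1 := ih (by omega)
    have h2 := fixI_le_succ (n := n) r (by omega)
    calc n.factorial ≤ n ^ r * (fixI n r).card := h1
      _ ≤ n ^ r * (n * (fixI n (r + 1)).card) := Nat.mul_le_mul_left _ h2
      _ = n ^ (r + 1) * (fixI n (r + 1)).card := by rw [pow_succ]; ring

end Pool.Agent.Helper15.An
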