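import Pool.Agent.Helper15.An.Num

/-! Density of eigenvalues just above a known gap. -/

set_option linter.unusedSectionVars false

namespace Pool.Agent.Helper15.An

open Matrix Equiv
open scoped ComplexOrder

variable {n : ℕ}

theorem density2 (F : PW (Perm (Fin n))) (μ : Perm (Fin n) → ℝ)
    (hμ : IsSP (Alt n : Set (Perm (Fin n))) μ) (ε η : ℝ) (hη0 : 0 ≤ η) (hηε : η < ε) (hε1 : ε ≤ 1)
    (p : ℕ) (hgood : Good F μ p ε) (hL : 48 ≤ Real.log n) (r : ℕ) (hr : 1 ≤ r)
    (hrp : 400 * Real.log n ^ 2 * r ≤ p) (hp : 16 * (p + 1) ≤ n) (hn : 1000 ≤ n)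
    (hγ : 64 ≤ (ε - η) * Real.log n)
    (i : Fin F.c) (hi : ¬ Triv (F.ρ i) (Alt n)) :
    (Fintype.card (TopIdx (wop_isHermitian (F.ρ i) (F.irr i).unit hμ) (1 - η)) : ℝ) ≤
        Real.exp (-((ε - η) * r * Real.log n / 32)) * F.D i := by
  classical
  set L := Real.log n with hLdef
  set γ := ε - η with hγdef
  have hγ0 : 0 < γ := by linarith
  have hγ1 : γ ≤ 1 := by linarith
  have hn0 : (0 : ℝ) < n := by positivity
  have hexpL : Real.exp L = n := Real.exp_log hn0
  have hr' : (1 : ℝ) ≤ r := by exact_mod_cast hr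
  have hD : (0 : ℝ) ≤ F.D i := Nat.cast_nonneg _
  have hrL : L ≤ r * L := by nlinarith
  set T := wop (F.ρ i) μ with hT
  have hTH : T.IsHermitian := wop_isHermitian (F.ρ i) (F.irr i).unit hμ
  by_cases hfix : HasFix (F.ρ i) (stab n p)
  · -- the set of large eigenvalues is empty
    have h1 := hgood i hi hfix
    have h2 : Fintype.card (TopIdx hTH (1 - η)) = 0 := by
      rw [Fintype.card_eq_zero_iff]
      refine ⟨fun j => ?_⟩
      have h3 := eigenvalues_le_of hTH _ h1 j.1
      have h4 := j.2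
      linarith
    rw [h2]
    simp only [Nat.cast_zero]
    positivity
  · -- walk parameters
    set l := ⌊r * L / 2⌋₊ with hl
    have hl1 : (l : ℝ) ≤ r * L / 2 := Nat.floor_le (by positivity)
    have hl2 : r * L / 4 ≤ l := by
      have := Nat.lt_floor_add_one (r * L / 2)
      rw [← hl] at this
      linarith
    obtain ⟨κ, hk0, hk1, hk2, hk3⟩ := exists_law (Alt n) hμ l
    set J := ⌈2 * r * L⌉₊ with hJ
    have hJ1 : 2 * r * L ≤ J := Nat.le_ceil _
    have hJ2 : (J : ℝ) ≤ 2 * r * L + 1 := (Nat.ceil_lt_add_one (by positivity)).le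
    have hrpn : r ≤ p := by
      have : (r : ℝ) ≤ p := by
        refine le_trans ?_ hrp
        have : (1 : ℝ) ≤ 400 * L ^ 2 := by nlinarith
        nlinarith
      exact_mod_cast this
    have hp16 : (16 : ℝ) * (p + 1) ≤ n := by exact_mod_cast hp
    have h20r : 20 * r ≤ n := by
      have : (20 : ℝ) * r ≤ n := by
        have h1 : (20 : ℝ) * r ≤ 400 * L ^ 2 * r := by
          have : (20 : ℝ) ≤ 400 * L ^ 2 := by nlinarith
          nlinarith
        have hp0 : (0 : ℝ) ≤ p := Nat.cast_nonneg _
        linarith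
      exact_mod_cast this
    have h12J : 20 * (12 * J + 1) ≤ n := by
      have h1 : (J : ℝ) ≤ p / 200 + 1 := by
        have : 2 * r * L ≤ p / 200 := by
          have h2 : 2 * r * L * 200 ≤ 400 * L ^ 2 * r := by
            nlinarith [mul_nonneg (by linarith : (0:ℝ) ≤ r) (by linarith : (0:ℝ) ≤ L)]
          linarith
        linarith
      have h2 : (20 : ℝ) * (12 * J + 1) ≤ n := by
        have hn1000 : (1000 : ℝ) ≤ n := by exact_mod_cast hn
        have hp0 : (0 : ℝ) ≤ p := Nat.cast_nonneg _
        nlinarith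
      exact_mod_cast h2
    -- few fixed points
    set δ : ℝ := (1 - ε / 2) ^ l with hδ
    have hδ0 : 0 ≤ δ := pow_nonneg (by linarith) _
    have hP := fix_prob F (by omega) r h20r κ hk0 hk1 hk2 δ hδ0
      (fun i' hi' hf' => by
        have h1 := hgood i' hi' (hf'.mono hrpn)
        have h2 := trace_lazy_le (wop_isHermitian (F.ρ i') (F.irr i').unit hμ) ε
          (wop_add_one (F.ρ i') (F.irr i').unit hμ) h1 l
        rw [hk3, Fintype.card_fin] at h2
        exact h2)
    -- the trace
    have htr := trace_wop_le (F.ρ i) (F.irr i).unit κ hk0 hk1 _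
      (2 * (n : ℝ) ^ (12 * J) * (7 / 8) ^ (p + 1) + 1 / 2 ^ J) (by positivity) hP
      (fun g hg => char_bound_mat (F.ρ i) (F.irr i).unit p hfix (by omega) hp J h12J g hg)
    have hnum := num_y L (by linarith) r hr n hexpL J hJ1 hJ2 p hrp
    have h1 := card_top_le hTH η (by linarith) (wop_add_one (F.ρ i) (F.irr i).unit hμ) l
    rw [hk3] at h1
    set q := (1 - η / 2) ^ l with hq
    have hqpos : 0 < q := pow_pos (by linarith) _
    -- bound for the second part
    have h20 : (20 : ℝ) ^ r ≤ Real.exp (3 * r) := by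
      have h18 : (20 : ℝ) ≤ Real.exp 3 := by
        have h19 : Real.exp 3 = Real.exp 1 ^ 3 := by rw [← Real.exp_nat_mul]; norm_num
        rw [h19]
        have h21 : (2.7182818283 : ℝ) ^ 3 ≤ Real.exp 1 ^ 3 :=
          pow_le_pow_left₀ (by norm_num) Real.exp_one_gt_d9.le 3
        norm_num at h21 ⊢
        linarith
      calc (20 : ℝ) ^ r ≤ Real.exp 3 ^ r := pow_le_pow_left₀ (by norm_num) h18 r
        _ = Real.exp (3 * r) := by rw [← Real.exp_nat_mul]; congr 1; ring
    have hδq : δ ≤ q * Real.exp (-(γ * r * L / 8)) := by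
      have h2 : 1 - ε / 2 ≤ (1 - η / 2) * Real.exp (-(γ / 2)) := by
        have h3 : 1 - γ / 2 ≤ Real.exp (-(γ / 2)) := Real.one_sub_le_exp_neg _
        have h4 : (1 - η / 2) * (1 - γ / 2) ≤ (1 - η / 2) * Real.exp (-(γ / 2)) :=
          mul_le_mul_of_nonneg_left h3 (by linarith)
        have h5 : (1 - η / 2) * (1 - γ / 2) = 1 - ε / 2 + η * γ / 4 := by
          rw [hγdef]; ring
        have h6 : 0 ≤ η * γ := mul_nonneg hη0 hγ0.le
        linarith
      calc δ ≤ ((1 - η / 2) * Real.exp (-(γ / 2))) ^ l := pow_le_pow_left₀ (by linarith) h2 l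
        _ = q * Real.exp (l * -(γ / 2)) := by rw [mul_pow, ← Real.exp_nat_mul]
        _ ≤ q * Real.exp (-(γ * r * L / 8)) := by
          refine mul_le_mul_of_nonneg_left (Real.exp_le_exp.2 ?_) hqpos.le
          have h7 : r * L / 4 * (γ / 2) ≤ l * (γ / 2) := by gcongr
          linarith
    have hq1 : Real.exp (-(r * L / 2)) ≤ q := by
      have h4 : Real.exp (-η) ≤ 1 - η / 2 := exp_neg_le_half hη0 (by linarith)
      refine le_trans ?_ (pow_le_pow_left₀ (Real.exp_pos _).le h4 l)
      rw [← Real.exp_nat_mul]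
      apply Real.exp_le_exp.2
      have h5 : (l : ℝ) * η ≤ (r * L / 2) * 1 :=
        mul_le_mul hl1 (by linarith) hη0 (by positivity)
      linarith
    have hsum : 20 ^ r * (2 * (2 / (n : ℝ)) ^ r + δ) +
        (2 * (n : ℝ) ^ (12 * J) * (7 / 8) ^ (p + 1) + 1 / 2 ^ J) ≤
        q * Real.exp (-(γ * r * L / 32)) := by
      have hE := Real.exp_pos (-(r * L))
      have h2 : 20 ^ r * (2 * (2 / (n : ℝ)) ^ r + δ) +
          (2 * (n : ℝ) ^ (12 * J) * (7 / 8) ^ (p + 1) + 1 / 2 ^ J) ≤
          Real.exp (5 * r - r * L) + Real.exp (3 * r) * δ := by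
        have h3 : (20 : ℝ) ^ r * δ ≤ Real.exp (3 * r) * δ := mul_le_mul_of_nonneg_right h20 hδ0
        have h4 : (0 : ℝ) ≤ 20 ^ r * Real.exp (-(r * L)) := by positivity
        calc _ = (20 ^ r * (2 * (2 / (n : ℝ)) ^ r + Real.exp (-(r * L))) +
              (2 * (n : ℝ) ^ (12 * J) * (7 / 8) ^ (p + 1) + 1 / 2 ^ J)) -
              20 ^ r * Real.exp (-(r * L)) + 20 ^ r * δ := by ring
          _ ≤ _ := by linarith
      refine h2.trans ?_
      have h5 : Real.exp (5 * r - r * L) ≤ q * Real.exp (-(γ * r * L / 16)) := by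
        calc Real.exp (5 * r - r * L) = Real.exp (-(r * L / 2)) * Real.exp (5 * r - r * L / 2) := by
              rw [← Real.exp_add]; congr 1; ring
          _ ≤ q * Real.exp (-(γ * r * L / 16)) := by
              refine mul_le_mul hq1 (Real.exp_le_exp.2 ?_) (Real.exp_pos _).le hqpos.le
              have h6 : γ * r * L ≤ 1 * (r * L) := by
                rw [mul_assoc]
                exact mul_le_mul_of_nonneg_right hγ1 (by positivity)
              nlinarith
      have h7 : Real.exp (3 * r) * δ ≤ q * Real.exp (-(γ * r * L / 16)) := by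
        calc Real.exp (3 * r) * δ ≤ Real.exp (3 * r) * (q * Real.exp (-(γ * r * L / 8))) :=
              mul_le_mul_of_nonneg_left hδq (Real.exp_pos _).le
          _ = q * Real.exp (3 * r - γ * r * L / 8) := by
              rw [sub_eq_add_neg, Real.exp_add]; ring
          _ ≤ q * Real.exp (-(γ * r * L / 16)) := by
              refine mul_le_mul_of_nonneg_left (Real.exp_le_exp.2 ?_) hqpos.le
              have h8 : 64 * (r : ℝ) ≤ γ * r * L := by nlinarith
              linarith
      have h9 : 2 * Real.exp (-(γ * r * L / 16)) ≤ Real.exp (-(γ * r * L / 32)) := by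
        have h10 : (2 : ℝ) ≤ Real.exp (γ * r * L / 32) := by
          have h11 : (2 : ℝ) ≤ Real.exp 1 := by
            have := Real.exp_one_gt_d9
            linarith
          refine h11.trans (Real.exp_le_exp.2 ?_)
          have h8 : 64 * (r : ℝ) ≤ γ * r * L := by nlinarith
          linarith
        calc 2 * Real.exp (-(γ * r * L / 16)) ≤
              Real.exp (γ * r * L / 32) * Real.exp (-(γ * r * L / 16)) :=
              mul_le_mul_of_nonneg_right h10 (Real.exp_pos _).le
          _ = Real.exp (-(γ * r * L / 32)) := by rw [← Real.exp_add]; congr 1; ring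
      calc Real.exp (5 * r - r * L) + Real.exp (3 * r) * δ ≤
            q * (2 * Real.exp (-(γ * r * L / 16))) := by linarith
        _ ≤ q * Real.exp (-(γ * r * L / 32)) := mul_le_mul_of_nonneg_left h9 hqpos.le
    have h2 : (Fintype.card (TopIdx hTH (1 - η)) : ℝ) * q ≤
        (Real.exp (-(γ * r * L / 32)) * F.D i) * q := by
      refine (h1.trans htr).trans ?_
      refine (mul_le_mul_of_nonneg_left hsum hD).trans (le_of_eq ?_)
      ring
    exact le_of_mul_le_mul_right h2 hqpos

end Pool.Agent.Helper15.An
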