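import Pool.Agent.Helper15.An.Irr
import Pool.Agent.Helper74.PeterWeyl

/-! The complete family of irreducible unitary representations of a finite group. -/

set_option linter.unusedSectionVars false

namespace Pool.Agent.Helper15.An

open Matrix
open scoped ComplexOrder

/-- complete family of irreducible representations -/
structure PW (G : Type) [Group G] [Fintype G] [DecidableEq G] where
  c : ℕ
  D : Fin c → ℕ
  ρ : ∀ i, G →* Matrix (Fin (D i)) (Fin (D i)) ℂ
  irr : ∀ i, IsIrr (ρ i)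
  col : ∀ g h : G, ∑ i, trace (ρ i g) * trace (ρ i h) =
    ((Finset.univ.filter (fun x : G => g * x * h = x)).card : ℂ)
  complete : ∀ F : G → ℂ, F ≠ 0 → ∃ i, ∑ g : G, F g • ρ i g ≠ 0

theorem exists_pw (G : Type) [Group G] [Fintype G] [DecidableEq G] : Nonempty (PW G) := by
  obtain ⟨c, D, ρ, h1, h2, h3, h4, h5⟩ := Pool.Agent.Helper74.PW.peter_weyl G
  exact ⟨⟨c, D, ρ, fun i => ⟨h1 i, h2 i, h3 i⟩, h4, h5⟩⟩

variable {G : Type} [Group G] [Fintype G] [DecidableEq G]

section fam
variable (F : PW G)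

theorem trace_psum_real (i : Fin F.c) (H : Subgroup G) [Fintype H] :
    (((trace (psum (F.ρ i) H)).re : ℝ) : ℂ) = trace (psum (F.ρ i) H) :=
  trace_psd_real (psum_isHermitian (F.ρ i) H (F.irr i).unit)

theorem sum_dim_trace (H : Subgroup G) [Fintype H] :
    ∑ i, (F.D i : ℝ) * (trace (psum (F.ρ i) H)).re = Fintype.card G := by
  classical
  have h1 : ∑ h : H, ∑ i, trace (F.ρ i 1) * trace (F.ρ i (h : G)) = (Fintype.card G : ℂ) := by
    simp_rw [F.col 1]
    rw [Fintype.sum_eq_single (1 : H)]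
    · simp
    · intro h hh
      have : Finset.univ.filter (fun x : G => 1 * x * (h : G) = x) = ∅ := by
        rw [Finset.filter_eq_empty_iff]
        intro x _ hx
        apply hh
        rw [one_mul] at hx
        exact Subtype.ext (by simpa using hx)
      rw [this]; simp
  rw [Finset.sum_comm] at h1
  have h2 : ∀ i, ∑ h : H, trace (F.ρ i 1) * trace (F.ρ i (h : G)) =
      (((F.D i : ℝ) * (trace (psum (F.ρ i) H)).re : ℝ) : ℂ) := by
    intro i
    rw [← Finset.mul_sum, Complex.ofReal_mul, trace_psum_real]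
    unfold psum
    rw [trace_sum, map_one, trace_one, Fintype.card_fin]
    simp
  simp_rw [h2] at h1
  exact_mod_cast h1

theorem sum_dim_hasFix_le (H : Subgroup G) [Fintype H] (S : Finset (Fin F.c))
    (hS : ∀ i ∈ S, HasFix (F.ρ i) H) :
    ∑ i ∈ S, (F.D i : ℝ) ≤ Fintype.card G / Fintype.card H := by
  have hcpos : (0 : ℝ) < Fintype.card H := card_pos' H
  rw [le_div_iff₀ hcpos, ← sum_dim_trace F H, Finset.sum_mul]
  refine (Finset.sum_le_sum fun i hi => ?_).trans
    (Finset.sum_le_sum_of_subset_of_nonneg (Finset.subset_univ S) fun i _ _ => ?_)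
  · exact mul_le_mul_of_nonneg_left (le_trace_psum (F.ρ i) H (F.irr i).unit (hS i hi))
      (Nat.cast_nonneg _)
  · exact mul_nonneg (Nat.cast_nonneg _) (trace_psum_nonneg (F.ρ i) H (F.irr i).unit)

/-- the subgroup acts trivially -/
def Triv {D : ℕ} (ρ : G →* Matrix (Fin D) (Fin D) ℂ) (A : Subgroup G) : Prop :=
  ∀ a : A, ρ (a : G) = 1

theorem sum_dim_sq_triv_le (A : Subgroup G) [Fintype A] (S : Finset (Fin F.c))
    (hS : ∀ i ∈ S, Triv (F.ρ i) A) :
    ∑ i ∈ S, (F.D i : ℝ) ^ 2 ≤ Fintype.card G / Fintype.card A := by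
  have hcpos : (0 : ℝ) < Fintype.card A := card_pos' A
  rw [le_div_iff₀ hcpos, ← sum_dim_trace F A, Finset.sum_mul]
  refine (Finset.sum_le_sum fun i hi => ?_).trans
    (Finset.sum_le_sum_of_subset_of_nonneg (Finset.subset_univ S) fun i _ _ => ?_)
  · have h1 : psum (F.ρ i) A = (Fintype.card A : ℝ) • (1 : Matrix (Fin (F.D i)) (Fin (F.D i)) ℂ) := by
      unfold psum
      rw [Finset.sum_congr rfl fun a _ => hS i hi a, Finset.sum_const, Finset.card_univ]
      ext a b
      simp
    rw [h1, trace_smul, trace_one]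
    simp
    apply le_of_eq
    ring
  · exact mul_nonneg (Nat.cast_nonneg _) (trace_psum_nonneg (F.ρ i) A (F.irr i).unit)

theorem wop_triv {D : ℕ} (ρ : G →* Matrix (Fin D) (Fin D) ℂ) (A : Subgroup G)
    (ht : Triv ρ A) {κ : G → ℝ} (h1 : ∑ g, κ g = 1) (h2 : ∀ g, g ∉ A → κ g = 0) :
    wop ρ κ = 1 := by
  unfold wop
  have : ∀ g, κ g • ρ g = κ g • (1 : Matrix (Fin D) (Fin D) ℂ) := by
    intro g
    by_cases hg : g ∈ A
    · rw [ht ⟨g, hg⟩]
    · rw [h2 g hg, zero_smul, zero_smul]
  simp_rw [this]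
  rw [← Finset.sum_smul, h1, one_smul]

/-- The key counting inequality. -/
theorem stepB (A H : Subgroup G) [Fintype A] [Fintype H] (κ : G → ℝ)
    (h1 : ∑ g, κ g = 1) (h2 : ∀ g, g ∉ A → κ g = 0) (δ : ℝ) (hδ : 0 ≤ δ)
    (hlev : ∀ i, ¬ Triv (F.ρ i) A → HasFix (F.ρ i) H →
      (trace (wop (F.ρ i) κ)).re ≤ δ * F.D i) :
    ∑ g, κ g * (∑ h : H, ((Finset.univ.filter (fun x : G => g * x * (h : G) = x)).card : ℝ)) ≤
      Fintype.card H * (Fintype.card G / Fintype.card A) + δ * Fintype.card G := by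
  classical
  have hLC : ((∑ g, κ g * (∑ h : H,
      ((Finset.univ.filter (fun x : G => g * x * (h : G) = x)).card : ℝ)) : ℝ) : ℂ) =
      ∑ i, trace (wop (F.ρ i) κ) * (((trace (psum (F.ρ i) H)).re : ℝ) : ℂ) := by
    push_cast
    simp_rw [trace_psum_real F, ← F.col]
    have h3 : ∀ i, trace (wop (F.ρ i) κ) * trace (psum (F.ρ i) H) =
        ∑ g, ∑ h : H, (κ g : ℂ) * (trace (F.ρ i g) * trace (F.ρ i (h : G))) := by
      intro i
      unfold wop psum
      rw [trace_sum, trace_sum, Finset.sum_mul]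
      refine Finset.sum_congr rfl fun g _ => ?_
      rw [Finset.mul_sum]
      refine Finset.sum_congr rfl fun h _ => ?_
      rw [trace_smul, Complex.real_smul]
      ring
    simp_rw [h3]
    rw [Finset.sum_comm]
    refine Finset.sum_congr rfl fun g _ => ?_
    rw [Finset.sum_comm, Finset.mul_sum]
    refine Finset.sum_congr rfl fun h _ => ?_
    rw [Finset.mul_sum]
  have hLR : (∑ g, κ g * (∑ h : H,
      ((Finset.univ.filter (fun x : G => g * x * (h : G) = x)).card : ℝ))) =
      ∑ i, (trace (wop (F.ρ i) κ)).re * (trace (psum (F.ρ i) H)).re := by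
    have := congrArg Complex.re hLC
    rw [Complex.ofReal_re, Complex.re_sum] at this
    rw [this]
    refine Finset.sum_congr rfl fun i _ => ?_
    rw [Complex.re_mul_ofReal]
  rw [hLR]
  have hterm : ∀ i, (trace (wop (F.ρ i) κ)).re * (trace (psum (F.ρ i) H)).re ≤
      (if Triv (F.ρ i) A then (Fintype.card H : ℝ) * (F.D i : ℝ) ^ 2 else 0) +
        δ * ((F.D i : ℝ) * (trace (psum (F.ρ i) H)).re) := by
    intro i
    have hnn := trace_psum_nonneg (F.ρ i) H (F.irr i).unit
    have hle := trace_psum_le (F.ρ i) H (F.irr i).unit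
    have hD : (0 : ℝ) ≤ F.D i := Nat.cast_nonneg _
    by_cases ht : Triv (F.ρ i) A
    · rw [if_pos ht, wop_triv (F.ρ i) A ht h1 h2, trace_one, Fintype.card_fin]
      simp only [Complex.natCast_re]
      have h5 : 0 ≤ δ * ((F.D i : ℝ) * (trace (psum (F.ρ i) H)).re) := by positivity
      nlinarith
    · rw [if_neg ht, zero_add]
      by_cases hf : HasFix (F.ρ i) H
      · have := mul_le_mul_of_nonneg_right (hlev i ht hf) hnn
        linarith
      · rw [psum_eq_zero (F.ρ i) H hf]
        simp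
  refine (Finset.sum_le_sum fun i _ => hterm i).trans ?_
  rw [Finset.sum_add_distrib, ← Finset.mul_sum, sum_dim_trace F H]
  gcongr
  rw [← Finset.sum_filter, ← Finset.mul_sum]
  refine mul_le_mul_of_nonneg_left (sum_dim_sq_triv_le F A _ fun i hi => ?_) (Nat.cast_nonneg _)
  exact (Finset.mem_filter.1 hi).2

end fam

end Pool.Agent.Helper15.An
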