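import Pool.Agent.Helper15.An.CharMat

/-! Weights on the alternating group with a gap on part of the dual. -/

set_option linter.unusedSectionVars false

namespace Pool.Agent.Helper15.An

open Matrix Equiv
open scoped ComplexOrder

variable {n : ℕ}

/-- gap of a weight on the representations having `stab n p`-fixed vectors -/
def Good (F : PW (Perm (Fin n))) (μ : Perm (Fin n) → ℝ) (p : ℕ) (ε : ℝ) : Prop :=
  ∀ i, ¬ Triv (F.ρ i) (Alt n) → HasFix (F.ρ i) (stab n p) →
    ((1 - ε) • (1 : Matrix (Fin (F.D i)) (Fin (F.D i)) ℂ) - wop (F.ρ i) μ).PosSemidef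

theorem HasFix.mono {D : ℕ} {ρ : Perm (Fin n) →* Matrix (Fin D) (Fin D) ℂ} {p q : ℕ}
    (hpq : p ≤ q) (h : HasFix ρ (stab n p)) : HasFix ρ (stab n q) := by
  obtain ⟨v, hv, hf⟩ := h
  exact ⟨v, hv, fun σ => hf ⟨σ.1, stab_anti hpq σ.2⟩⟩

theorem Good.mono {F : PW (Perm (Fin n))} {μ : Perm (Fin n) → ℝ} {p q : ℕ} {ε : ℝ}
    (hpq : p ≤ q) (h : Good F μ q ε) : Good F μ p ε :=
  fun i ht hf => h i ht (hf.mono hpq)

theorem hasFix_top {D : ℕ} (hD : 0 < D) (ρ : Perm (Fin n) →* Matrix (Fin D) (Fin D) ℂ) :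
    HasFix ρ (stab n n) := by
  refine ⟨fun _ => 1, fun h => ?_, fun σ => ?_⟩
  · have := congrFun h ⟨0, hD⟩
    simp at this
  · have : (σ : Perm (Fin n)) = 1 := by
      ext j
      rw [σ.2.2 j j.2]; rfl
    rw [this, map_one, one_mulVec]

/-- symmetrised uniform weight of a tuple -/
noncomputable def tupW {m : ℕ} (x : Fin m → Alt n) : Perm (Fin n) → ℝ := fun g =>
  (2 * (m : ℝ))⁻¹ * ∑ l, ((if (x l : Perm (Fin n)) = g then (1 : ℝ) else 0) +
    (if (x l : Perm (Fin n))⁻¹ = g then (1 : ℝ) else 0))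

theorem tupW_isSP {m : ℕ} (hm : 0 < m) (x : Fin m → Alt n) :
    IsSP (Alt n : Set (Perm (Fin n))) (tupW x) := by
  have hm' : (m : ℝ) ≠ 0 := by positivity
  refine ⟨fun g => ?_, ?_, fun g => ?_, fun g hg => ?_⟩
  · unfold tupW
    refine mul_nonneg (by positivity) (Finset.sum_nonneg fun l _ => ?_)
    split_ifs <;> norm_num
  · unfold tupW
    rw [← Finset.mul_sum, Finset.sum_comm]
    have : ∀ l, ∑ g, ((if (x l : Perm (Fin n)) = g then (1 : ℝ) else 0) +
        (if (x l : Perm (Fin n))⁻¹ = g then (1 : ℝ) else 0)) = 2 := by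
      intro l
      rw [Finset.sum_add_distrib]
      simp
      norm_num
    simp_rw [this]
    simp
    field_simp
  · unfold tupW
    congr 1
    refine Finset.sum_congr rfl fun l _ => ?_
    rw [add_comm]
    congr 1
    · simp [_root_.inv_inj]
    · simp only [← inv_eq_iff_eq_inv]
  · unfold tupW
    rw [Finset.sum_eq_zero, mul_zero]
    intro l _
    rw [if_neg, if_neg, add_zero]
    · intro h
      exact hg (h ▸ (Alt n).inv_mem (x l).2)
    · intro h
      exact hg (h ▸ (x l).2)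

theorem wop_tupW {m D : ℕ} (ρ : Perm (Fin n) →* Matrix (Fin D) (Fin D) ℂ)
    (hu : ∀ g, (ρ g)ᴴ * ρ g = 1) (x : Fin m → Alt n) :
    wop ρ (tupW x) = avgRe fun l => ρ (x l : Perm (Fin n)) := by
  unfold wop avgRe tupW
  simp_rw [mul_smul]
  rw [← Finset.smul_sum]
  congr 1
  simp_rw [Finset.sum_smul]
  rw [Finset.sum_comm]
  refine Finset.sum_congr rfl fun l _ => ?_
  simp_rw [add_smul]
  rw [Finset.sum_add_distrib]
  simp [ite_smul, rho_conj ρ hu]

/-- average of two weights -/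
noncomputable def mixW (μ ν : Perm (Fin n) → ℝ) : Perm (Fin n) → ℝ := fun g => (1 / 2) * (μ g + ν g)

theorem mixW_isSP {μ ν : Perm (Fin n) → ℝ} (hμ : IsSP (Alt n : Set (Perm (Fin n))) μ)
    (hν : IsSP (Alt n : Set (Perm (Fin n))) ν) :
    IsSP (Alt n : Set (Perm (Fin n))) (mixW μ ν) := by
  refine ⟨fun g => ?_, ?_, fun g => ?_, fun g hg => ?_⟩
  · have h1 := hμ.nonneg g
    have h2 := hν.nonneg g
    unfold mixW; positivity
  · unfold mixW
    rw [← Finset.mul_sum, Finset.sum_add_distrib, hμ.sum, hν.sum]; norm_num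
  · unfold mixW; rw [hμ.symm, hν.symm]
  · unfold mixW; rw [hμ.supp g hg, hν.supp g hg]; norm_num

theorem wop_mixW {D : ℕ} (ρ : Perm (Fin n) →* Matrix (Fin D) (Fin D) ℂ)
    (μ ν : Perm (Fin n) → ℝ) : wop ρ (mixW μ ν) = (1 / 2 : ℝ) • (wop ρ μ + wop ρ ν) := by
  unfold wop mixW
  rw [← Finset.sum_add_distrib, Finset.smul_sum]
  refine Finset.sum_congr rfl fun g _ => ?_
  rw [← add_smul, smul_smul]

end Pool.Agent.Helper15.An
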