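import Pool.Agent.Helper15.An.Trans

/-! Eigenfunctions of the random walk and the second eigenvalue. -/

set_option linter.unusedSectionVars false

namespace Pool.Agent.Helper15.An

open Matrix Equiv Filter
open scoped ComplexOrder

section second
variable {N : Type} [Fintype N] [DecidableEq N]

theorem sum_eq_zero_of_eig (P : Matrix N N ℝ) (hP : P.IsHermitian)
    (hrow : P *ᵥ (fun _ => (1 : ℝ)) = fun _ => 1) (v : N → ℝ) (a : ℝ) (ha : a ≠ 1)
    (hv : P *ᵥ v = a • v) : ∑ g, v g = 0 := by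
  have h1 : ∑ g, (P *ᵥ v) g = ∑ g, v g := by
    have h2 : ∀ g, (P *ᵥ v) g = ∑ h, P g h * v h := fun g => rfl
    simp_rw [h2]
    rw [Finset.sum_comm]
    refine Finset.sum_congr rfl fun h _ => ?_
    rw [← Finset.sum_mul]
    have h3 : ∑ g, P g h = 1 := by
      have h4 := congrFun hrow h
      have h5 : (P *ᵥ (fun _ => (1 : ℝ))) h = ∑ g, P h g * 1 := rfl
      rw [h5] at h4
      simp only [mul_one] at h4
      rw [← h4]
      refine Finset.sum_congr rfl fun g _ => ?_
      have := hP.apply g h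
      simpa using this.symm
    rw [h3, one_mul]
  rw [hv] at h1
  simp only [Pi.smul_apply, smul_eq_mul] at h1
  rw [← Finset.mul_sum] at h1
  have h2 : (a - 1) * ∑ g, v g = 0 := by linarith
  rcases mul_eq_zero.1 h2 with h | h
  · exact absurd (sub_eq_zero.1 h) ha
  · exact h

theorem second_eig_le (P : Matrix N N ℝ) (hP : P.IsHermitian) (hN : 1 < Fintype.card N)
    (hrow : P *ᵥ (fun _ => (1 : ℝ)) = fun _ => 1) (c : ℝ)
    (hc : ∀ f : N → ℝ, f ≠ 0 → ∑ g, f g = 0 → ∀ a : ℝ, c < a → P *ᵥ f ≠ a • f) :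
    hP.eigenvalues₀ ⟨1, hN⟩ ≤ c := by
  by_contra hlt
  rw [not_le] at hlt
  set e : Fin (Fintype.card N) ≃ N := Fintype.equivOfCardEq (Fintype.card_fin _) with he
  have heig : ∀ j, hP.eigenvalues (e j) = hP.eigenvalues₀ j := by
    intro j
    unfold Matrix.IsHermitian.eigenvalues
    rw [← he, Equiv.symm_apply_apply]
  set i0 : Fin (Fintype.card N) := ⟨0, by omega⟩ with hi0
  set i1 : Fin (Fintype.card N) := ⟨1, hN⟩ with hi1
  set v0 : N → ℝ := ⇑(hP.eigenvectorBasis (e i0)) with hv0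
  set v1 : N → ℝ := ⇑(hP.eigenvectorBasis (e i1)) with hv1
  have hP0 : P *ᵥ v0 = hP.eigenvalues₀ i0 • v0 := by
    rw [← heig]; exact hP.mulVec_eigenvectorBasis (e i0)
  have hP1 : P *ᵥ v1 = hP.eigenvalues₀ i1 • v1 := by
    rw [← heig]; exact hP.mulVec_eigenvectorBasis (e i1)
  have hne : e i0 ≠ e i1 := by
    intro h
    have := congrArg Fin.val (e.injective h)
    simp [hi0, hi1] at this
  have hdot : ∀ a b, (⇑(hP.eigenvectorBasis a) : N → ℝ) ⬝ᵥ ⇑(hP.eigenvectorBasis b) =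
      if a = b then 1 else 0 := by
    intro a b
    have h1 := orthonormal_iff_ite.1 hP.eigenvectorBasis.orthonormal a b
    rw [EuclideanSpace.inner_eq_star_dotProduct, dotProduct_comm] at h1
    simpa using h1
  have h00 : v0 ⬝ᵥ v0 = 1 := by rw [hv0, hdot, if_pos rfl]
  have h11 : v1 ⬝ᵥ v1 = 1 := by rw [hv1, hdot, if_pos rfl]
  have h01 : v0 ⬝ᵥ v1 = 0 := by rw [hv0, hv1, hdot, if_neg hne]
  have hne0 : v0 ≠ 0 := by rintro h; rw [h] at h00; simp at h00
  have hne1 : v1 ≠ 0 := by rintro h; rw [h] at h11; simp at h11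
  have hge : hP.eigenvalues₀ i1 ≤ hP.eigenvalues₀ i0 :=
    hP.eigenvalues₀_antitone (by rw [hi0, hi1, Fin.mk_le_mk]; omega)
  have hl1 : hP.eigenvalues₀ i1 = 1 := by
    by_contra hne'
    exact hc v1 hne1 (sum_eq_zero_of_eig P hP hrow v1 _ hne' hP1) _ hlt hP1
  have hl0 : hP.eigenvalues₀ i0 = 1 := by
    by_contra hne'
    exact hc v0 hne0 (sum_eq_zero_of_eig P hP hrow v0 _ hne' hP0) _ (lt_of_lt_of_le hlt hge) hP0
  rw [hl0, one_smul] at hP0
  rw [hl1, one_smul] at hP1
  rw [hl1] at hlt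
  set s0 := ∑ g, v0 g with hs0
  set s1 := ∑ g, v1 g with hs1
  by_cases hs : s0 = 0
  · exact hc v0 hne0 hs 1 hlt (by rw [one_smul]; exact hP0)
  · set f : N → ℝ := s1 • v0 - s0 • v1 with hf
    have hfne : f ≠ 0 := by
      intro h
      have h1 : f ⬝ᵥ v1 = -s0 := by
        rw [hf, sub_dotProduct, smul_dotProduct, smul_dotProduct, h01, h11]
        simp
      rw [h, zero_dotProduct] at h1
      apply hs
      linarith
    refine hc f hfne ?_ 1 hlt ?_
    · rw [hf]
      simp only [Pi.sub_apply, Pi.smul_apply, smul_eq_mul]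
      rw [Finset.sum_sub_distrib, ← Finset.mul_sum, ← Finset.mul_sum, ← hs0, ← hs1]
      ring
    · rw [hf, Matrix.mulVec_sub, Matrix.mulVec_smul, Matrix.mulVec_smul, hP0, hP1, one_smul]

end second

variable {n : ℕ}

theorem eig_claim (F : PW (Perm (Fin n))) {k : ℕ} (z : Fin k → Alt n)
    (hgood : Good F (tupW z) n (1 / 10)) (f : Alt n → ℝ) (hf : f ≠ 0) (hsum : ∑ g, f g = 0)
    (a : ℝ) (ha : 9 / 10 < a)
    (hPf : ∀ g, (2 * (k : ℝ))⁻¹ * ∑ i, (f (g * z i) + f (g * (z i)⁻¹)) = a * f g) : False := by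
  classical
  -- the Fourier coefficient
  obtain ⟨i, hi⟩ := F.complete (fun g => if h : g ∈ Alt n then ((f ⟨g, h⟩ : ℝ) : ℂ) else 0) (by
    intro h0
    apply hf
    ext g
    have h1 := congrFun h0 (g : Perm (Fin n))
    simp only [SetLike.coe_mem, dite_true, Subtype.coe_eta, Pi.zero_apply] at h1
    exact_mod_cast h1)
  set M : Matrix (Fin (F.D i)) (Fin (F.D i)) ℂ := ∑ g : Alt n, f g • F.ρ i (g : Perm (Fin n))
    with hM
  have hMeq : ∑ g : Perm (Fin n), (if h : g ∈ Alt n then ((f ⟨g, h⟩ : ℝ) : ℂ) else 0) • F.ρ i g =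
      M := by
    rw [hM, ← Finset.sum_filter_add_sum_filter_not Finset.univ (fun g : Perm (Fin n) => g ∈ Alt n)]
    have h2 : ∑ g ∈ Finset.univ.filter (fun g : Perm (Fin n) => ¬ g ∈ Alt n),
        (if h : g ∈ Alt n then ((f ⟨g, h⟩ : ℝ) : ℂ) else 0) • F.ρ i g = 0 := by
      refine Finset.sum_eq_zero fun g hg => ?_
      rw [dif_neg (Finset.mem_filter.1 hg).2, zero_smul]
    rw [h2, add_zero]
    refine (Finset.sum_subtype (p := fun g : Perm (Fin n) => g ∈ Alt n)
      (F := inferInstanceAs (Fintype (Alt n)))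
      (Finset.univ.filter (fun g : Perm (Fin n) => g ∈ Alt n))
      (fun g => by
        rw [Finset.mem_filter]
        exact ⟨fun h => h.2, fun h => ⟨Finset.mem_univ g, h⟩⟩)
      (fun g => (if h : g ∈ Alt n then ((f ⟨g, h⟩ : ℝ) : ℂ) else 0) • F.ρ i g)).trans ?_
    refine Finset.sum_congr rfl fun g _ => ?_
    rw [dif_pos g.2]
    ext p q
    simp
  rw [hMeq] at hi
  have hu := (F.irr i).unit
  by_cases ht : Triv (F.ρ i) (Alt n)
  · apply hi
    rw [hM]
    have h3 : ∀ g : Alt n, f g • F.ρ i (g : Perm (Fin n)) =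
        f g • (1 : Matrix (Fin (F.D i)) (Fin (F.D i)) ℂ) := fun g => by rw [ht g]
    simp_rw [h3]
    rw [← Finset.sum_smul, hsum, zero_smul]
  · set A := avgRe (fun l => F.ρ i (z l : Perm (Fin n))) with hA
    have hgap := hgood i ht (hasFix_top (F.irr i).pos (F.ρ i))
    rw [wop_tupW (F.ρ i) hu, ← hA] at hgap
    -- intertwining
    have hMA : M * A = a • M := by
      have h4 : a • M = ∑ g : Alt n, ((2 * (k : ℝ))⁻¹ * ∑ i, (f (g * z i) + f (g * (z i)⁻¹))) •
          F.ρ i (g : Perm (Fin n)) := by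
        rw [hM, Finset.smul_sum]
        refine Finset.sum_congr rfl fun g _ => ?_
        rw [hPf g, smul_smul]
      rw [h4, hA, hM]
      unfold avgRe
      rw [Matrix.mul_smul]
      simp_rw [mul_smul]
      rw [← Finset.smul_sum]
      congr 1
      simp_rw [Finset.sum_smul]
      rw [Finset.mul_sum, Finset.sum_comm]
      refine Finset.sum_congr rfl fun l _ => ?_
      rw [Matrix.mul_add, Finset.sum_mul, Finset.sum_mul]
      simp_rw [add_smul]
      rw [Finset.sum_add_distrib, add_comm]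
      congr 1
      · rw [← Equiv.sum_comp (Equiv.mulRight (z l)) (fun g : Alt n =>
          f g • F.ρ i (g : Perm (Fin n)) * (F.ρ i (z l : Perm (Fin n)))ᴴ)]
        refine Finset.sum_congr rfl fun g _ => ?_
        rw [Equiv.coe_mulRight, Matrix.smul_mul, Subgroup.coe_mul, map_mul, Matrix.mul_assoc,
          rho_mul_conj (F.ρ i) hu, Matrix.mul_one]
      · rw [← Equiv.sum_comp (Equiv.mulRight (z l)⁻¹) (fun g : Alt n =>
          f g • F.ρ i (g : Perm (Fin n)) * F.ρ i (z l : Perm (Fin n)))]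
        refine Finset.sum_congr rfl fun g _ => ?_
        rw [Equiv.coe_mulRight, Matrix.smul_mul, ← map_mul, ← Subgroup.coe_mul,
          inv_mul_cancel_right]
    -- positivity
    have h5 : M * ((a - 9 / 10) • (1 : Matrix (Fin (F.D i)) (Fin (F.D i)) ℂ) +
        ((1 - 1 / 10 : ℝ) • (1 : Matrix (Fin (F.D i)) (Fin (F.D i)) ℂ) - A)) * Mᴴ = 0 := by
      have h6 : (a - 9 / 10) • (1 : Matrix (Fin (F.D i)) (Fin (F.D i)) ℂ) +
        ((1 - 1 / 10 : ℝ) • (1 : Matrix (Fin (F.D i)) (Fin (F.D i)) ℂ) - A) =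
          a • (1 : Matrix (Fin (F.D i)) (Fin (F.D i)) ℂ) - A := by
        have : (1 - 1 / 10 : ℝ) = 9 / 10 := by norm_num
        rw [this, sub_smul]
        abel
      rw [h6, Matrix.mul_sub, hMA, Matrix.mul_smul, Matrix.mul_one, sub_self, Matrix.zero_mul]
    rw [Matrix.mul_add, Matrix.add_mul, Matrix.mul_smul, Matrix.mul_one, Matrix.smul_mul] at h5
    have h7 := congrArg (fun X => (trace X).re) h5
    simp only [trace_add, trace_smul, Complex.add_re, trace_zero, Complex.zero_re] at h7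
    have h8 : 0 ≤ (trace (M * ((1 - 1 / 10 : ℝ) •
        (1 : Matrix (Fin (F.D i)) (Fin (F.D i)) ℂ) - A) * Mᴴ)).re :=
      (Complex.nonneg_iff.1 (hgap.mul_mul_conjTranspose_same M).trace_nonneg).1
    have h9 : 0 ≤ (trace (M * Mᴴ)).re :=
      (Complex.nonneg_iff.1 (posSemidef_self_mul_conjTranspose M).trace_nonneg).1
    rw [Complex.real_smul, Complex.re_ofReal_mul] at h7
    have h10 : (trace (M * Mᴴ)).re = 0 := by nlinarith
    have h11 : trace (M * Mᴴ) = 0 := by
      have h12 := trace_psd_real (posSemidef_self_mul_conjTranspose M).isHermitian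
      rw [h10] at h12
      rw [← h12]; simp
    exact hi (trace_mul_conjTranspose_self_eq_zero_iff.1 h11)

end Pool.Agent.Helper15.An
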