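import Pool.Agent.Helper15.An.Rep

/-! Irreducible unitary matrix representations: design bound, dichotomy, invariants. -/

set_option linter.unusedSectionVars false

namespace Pool.Agent.Helper15.An

open Matrix
open scoped ComplexOrder

variable {G : Type} [Group G] [Fintype G] [DecidableEq G]

/-- irreducible unitary representation (with the Schur averaging property) -/
structure IsIrr {D : ℕ} (ρ : G →* Matrix (Fin D) (Fin D) ℂ) : Prop where
  pos : 0 < D
  unit : ∀ g, (ρ g)ᴴ * ρ g = 1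
  schur : ∀ M : Matrix (Fin D) (Fin D) ℂ, ∑ g : G, ρ g * M * (ρ g)ᴴ =
    (((Fintype.card G : ℂ) * trace M) / (D : ℂ)) • (1 : Matrix (Fin D) (Fin D) ℂ)

theorem trace_psd_real {D : ℕ} {M : Matrix (Fin D) (Fin D) ℂ} (hM : M.IsHermitian) :
    ((trace M).re : ℂ) = trace M := by
  have h1 : star (trace M) = trace M := by rw [← trace_conjTranspose, hM.eq]
  exact Complex.conj_eq_iff_re.1 h1

section irr
variable {D : ℕ} {ρ : G →* Matrix (Fin D) (Fin D) ℂ} (hρ : IsIrr ρ)
include hρ

theorem schur' (M : Matrix (Fin D) (Fin D) ℂ) : ∑ g : G, (ρ g)ᴴ * M * ρ g =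
    (((Fintype.card G : ℂ) * trace M) / (D : ℂ)) • (1 : Matrix (Fin D) (Fin D) ℂ) := by
  rw [← hρ.schur M, ← Equiv.sum_comp (Equiv.inv G) (fun g => (ρ g)ᴴ * M * ρ g)]
  refine Finset.sum_congr rfl fun g _ => ?_
  simp only [Equiv.inv_apply]
  rw [← rho_conj ρ hρ.unit g, conjTranspose_conjTranspose]

/-- design property of a subgroup of index two -/
theorem design (A : Subgroup G) [Fintype A] (hA : Fintype.card G = 2 * Fintype.card A)
    (M : Matrix (Fin D) (Fin D) ℂ) (hM : M.PosSemidef) :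
    ((2 * (Fintype.card A : ℝ) * (trace M).re / Fintype.card (Fin D)) •
      (1 : Matrix (Fin D) (Fin D) ℂ) - ∑ a : A, (ρ (a : G))ᴴ * M * ρ (a : G)).PosSemidef := by
  classical
  have h1 := schur' hρ M
  have h2 : ((2 * (Fintype.card A : ℝ) * (trace M).re / Fintype.card (Fin D)) •
      (1 : Matrix (Fin D) (Fin D) ℂ)) = ∑ g : G, (ρ g)ᴴ * M * ρ g := by
    rw [h1, Fintype.card_fin]
    have : (((Fintype.card G : ℂ) * trace M) / (D : ℂ)) =
        ((2 * (Fintype.card A : ℝ) * (trace M).re / D : ℝ) : ℂ) := by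
      push_cast
      rw [trace_psd_real hM.isHermitian, hA]
      push_cast
      ring
    rw [this]
    ext i j
    simp [Matrix.smul_apply]
  have h3 : ∑ g : G, (ρ g)ᴴ * M * ρ g = ∑ a : A, (ρ (a : G))ᴴ * M * ρ (a : G) +
      ∑ g ∈ Finset.univ.filter (fun g => g ∉ A), (ρ g)ᴴ * M * ρ g := by
    rw [← Finset.sum_filter_add_sum_filter_not Finset.univ (fun g => g ∈ A)]
    congr 1
    refine (Finset.sum_subtype (Finset.univ.filter (fun g => g ∈ A)) (by simp)
      (fun g => (ρ g)ᴴ * M * ρ g))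
  rw [h2, h3, add_sub_cancel_left]
  exact posSemidef_sum _ fun g _ => hM.conjTranspose_mul_mul_same (ρ g)

end irr

/-- sum of the matrices over a subgroup -/
noncomputable def psum {D : ℕ} (ρ : G →* Matrix (Fin D) (Fin D) ℂ) (H : Subgroup G) [Fintype H] :
    Matrix (Fin D) (Fin D) ℂ := ∑ h : H, ρ (h : G)

section psum
variable {D : ℕ} (ρ : G →* Matrix (Fin D) (Fin D) ℂ) (H : Subgroup G) [Fintype H]

theorem rho_mul_psum (h : H) : ρ (h : G) * psum ρ H = psum ρ H := by
  unfold psum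
  rw [Finset.mul_sum, ← Equiv.sum_comp (Equiv.mulLeft h) (fun g : H => ρ (g : G))]
  refine Finset.sum_congr rfl fun g _ => ?_
  simp

theorem psum_mul_psum : psum ρ H * psum ρ H = (Fintype.card H : ℝ) • psum ρ H := by
  conv_lhs => lhs; unfold psum
  rw [Finset.sum_mul]
  simp_rw [rho_mul_psum]
  rw [Finset.sum_const, Finset.card_univ]
  ext i j
  simp

theorem psum_isHermitian (hu : ∀ g, (ρ g)ᴴ * ρ g = 1) : (psum ρ H).IsHermitian := by
  unfold psum Matrix.IsHermitian
  rw [conjTranspose_sum, ← Equiv.sum_comp (Equiv.inv H)]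
  refine Finset.sum_congr rfl fun g _ => ?_
  rw [rho_conj ρ hu]
  simp

theorem card_pos' : (0 : ℝ) < Fintype.card H := by
  exact_mod_cast Fintype.card_pos

theorem psum_posSemidef (hu : ∀ g, (ρ g)ᴴ * ρ g = 1) : (psum ρ H).PosSemidef := by
  have h1 : psum ρ H = (Fintype.card H : ℝ)⁻¹ • ((psum ρ H)ᴴ * psum ρ H) := by
    rw [(psum_isHermitian ρ H hu).eq, psum_mul_psum, smul_smul,
      inv_mul_cancel₀ (card_pos' H).ne', one_smul]
  rw [h1]
  exact (posSemidef_conjTranspose_mul_self _).smul (by have := card_pos' H; positivity)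

theorem psum_le (hu : ∀ g, (ρ g)ᴴ * ρ g = 1) :
    ((Fintype.card H : ℝ) • (1 : Matrix (Fin D) (Fin D) ℂ) - psum ρ H).PosSemidef := by
  set c := (Fintype.card H : ℝ) with hc
  have hcpos : 0 < c := card_pos' H
  have h1 : c • (1 : Matrix (Fin D) (Fin D) ℂ) - psum ρ H =
      c⁻¹ • ((c • (1 : Matrix (Fin D) (Fin D) ℂ) - psum ρ H)ᴴ *
        (c • (1 : Matrix (Fin D) (Fin D) ℂ) - psum ρ H)) := by
    have hH : (c • (1 : Matrix (Fin D) (Fin D) ℂ) - psum ρ H)ᴴ =
        c • (1 : Matrix (Fin D) (Fin D) ℂ) - psum ρ H := by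
      rw [conjTranspose_sub, (psum_isHermitian ρ H hu).eq, conjTranspose_smul, conjTranspose_one]
      simp
    rw [hH, Matrix.sub_mul, Matrix.mul_sub, Matrix.mul_sub, psum_mul_psum, ← hc]
    simp only [Matrix.smul_mul, Matrix.mul_smul, Matrix.one_mul, Matrix.mul_one]
    rw [sub_self, sub_zero, ← smul_sub, smul_smul, inv_mul_cancel₀ hcpos.ne', one_smul]
  rw [h1]
  exact (posSemidef_conjTranspose_mul_self _).smul (by positivity)

/-- there is a nonzero vector fixed by `H` -/
def HasFix : Prop := ∃ v : Fin D → ℂ, v ≠ 0 ∧ ∀ h : H, ρ (h : G) *ᵥ v = v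

theorem psum_eq_zero (hno : ¬ HasFix ρ H) : psum ρ H = 0 := by
  by_contra hne
  apply hno
  have : ∃ w : Fin D → ℂ, psum ρ H *ᵥ w ≠ 0 := by
    by_contra hall
    push Not at hall
    apply hne
    ext i j
    have h1 := congrFun (hall (Pi.single j 1)) i
    rw [Matrix.mulVec_single_one] at h1
    simpa using h1
  obtain ⟨w, hw⟩ := this
  refine ⟨psum ρ H *ᵥ w, hw, fun h => ?_⟩
  rw [Matrix.mulVec_mulVec, rho_mul_psum]

theorem trace_psum_nonneg (hu : ∀ g, (ρ g)ᴴ * ρ g = 1) : 0 ≤ (trace (psum ρ H)).re :=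
  (Complex.nonneg_iff.1 (psum_posSemidef ρ H hu).trace_nonneg).1

theorem trace_psum_le (hu : ∀ g, (ρ g)ᴴ * ρ g = 1) :
    (trace (psum ρ H)).re ≤ Fintype.card H * D := by
  have h1 := (Complex.nonneg_iff.1 (psum_le ρ H hu).trace_nonneg).1
  rw [trace_sub, trace_smul, trace_one] at h1
  simp at h1
  linarith

theorem le_trace_psum (hu : ∀ g, (ρ g)ᴴ * ρ g = 1) (hfix : HasFix ρ H) :
    (Fintype.card H : ℝ) ≤ (trace (psum ρ H)).re := by
  obtain ⟨v, hv, hfv⟩ := hfix
  have hcpos : (0 : ℝ) < Fintype.card H := card_pos' H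
  have hn : 0 < nrm2 v := by
    rcases (nrm2_nonneg v).eq_or_lt with h | h
    · exfalso
      apply hv
      ext i
      have h1 : ‖v i‖ ^ 2 ≤ 0 := by
        rw [h]
        exact Finset.single_le_sum (f := fun i => ‖v i‖ ^ 2) (fun i _ => by positivity)
          (Finset.mem_univ i)
      have h2 : ‖v i‖ = 0 := by nlinarith [norm_nonneg (v i)]
      simpa using h2
    · exact h
  -- psum v = |H| v
  have hPv : psum ρ H *ᵥ v = (Fintype.card H : ℝ) • v := by
    unfold psum
    rw [Matrix.sum_mulVec]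
    simp_rw [hfv]
    rw [Finset.sum_const, Finset.card_univ]
    ext i
    simp
  -- eigenvalue decomposition: the largest eigenvalue is at least |H|
  have hH := psum_isHermitian ρ H hu
  have hP := psum_posSemidef ρ H hu
  by_contra hlt
  rw [not_le] at hlt
  have h1 : ∀ i, hH.eigenvalues i ≤ (trace (psum ρ H)).re := by
    intro i
    have h2 : (trace (psum ρ H)).re = ∑ i, hH.eigenvalues i := by
      rw [hH.trace_eq_sum_eigenvalues]
      simp
    rw [h2]
    exact Finset.single_le_sum (f := fun i => hH.eigenvalues i)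
      (fun i _ => hP.eigenvalues_nonneg i) (Finset.mem_univ i)
  have h3 := posSemidef_of_eigenvalues_le hH _ h1
  have h4 := qf_nonneg h3 v
  rw [qf_sub, qf_smul, qf_one] at h4
  have h5 : qf (psum ρ H) v = Fintype.card H * nrm2 v := by
    unfold qf
    rw [hPv, dotProduct_smul, nrm2_eq]
    simp
  rw [h5] at h4
  nlinarith

end psum

section dich
variable {D : ℕ} {ρ : G →* Matrix (Fin D) (Fin D) ℂ} (hρ : IsIrr ρ)
include hρ

/-- a normal subgroup either acts trivially or averages to zero -/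
theorem dichotomy (A : Subgroup G) [A.Normal] [Fintype A] :
    (∀ a : A, ρ (a : G) = 1) ∨ psum ρ A = 0 := by
  have hcpos : (0 : ℝ) < Fintype.card A := card_pos' A
  have hconj : ∀ g : G, ρ g * psum ρ A * (ρ g)ᴴ = psum ρ A := by
    intro g
    unfold psum
    rw [Finset.mul_sum, Finset.sum_mul]
    rw [← Equiv.sum_comp (MulAut.conjNormal g : A ≃* A).toEquiv (fun a : A => ρ (a : G))]
    refine Finset.sum_congr rfl fun a _ => ?_
    rw [rho_conj ρ hρ.unit, ← map_mul, ← map_mul]
    simp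
  have h1 := hρ.schur (psum ρ A)
  simp_rw [hconj] at h1
  rw [Finset.sum_const, Finset.card_univ] at h1
  have hG : (Fintype.card G : ℂ) ≠ 0 := by
    exact_mod_cast Fintype.card_ne_zero
  set c : ℂ := trace (psum ρ A) / D with hc
  have h2 : psum ρ A = c • (1 : Matrix (Fin D) (Fin D) ℂ) := by
    have h3 : (Fintype.card G : ℂ) • psum ρ A = (Fintype.card G : ℂ) • c •
        (1 : Matrix (Fin D) (Fin D) ℂ) := by
      rw [smul_smul, hc, ← mul_div_assoc, ← h1]
      ext i j
      simp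
    exact smul_right_injective _ hG h3
  by_cases hc0 : c = 0
  · right
    rw [h2, hc0, zero_smul]
  · left
    intro a
    have h4 := rho_mul_psum ρ A a
    rw [h2, Matrix.mul_smul, Matrix.mul_one] at h4
    exact smul_right_injective _ hc0 h4

end dich

end Pool.Agent.Helper15.An
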