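import Pool.Agent.Helper15.An.Param

/-! Choice of all parameters: blocks of size `C (log n)^3`. -/

set_option linter.unusedSectionVars false

namespace Pool.Agent.Helper15.An

open Matrix Equiv Filter
open scoped ComplexOrder

theorem nine_tenths_le : (9 / 10 : ℝ) ≤ Real.exp (-(1 / 10)) := by
  have := Real.one_sub_le_exp_neg (1 / 10)
  norm_num at this ⊢
  linarith

theorem sixteen_le : (16 : ℝ) ≤ Real.exp 3 := by
  have h19 : Real.exp 3 = Real.exp 1 ^ 3 := by rw [← Real.exp_nat_mul]; norm_num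
  rw [h19]
  have h21 : (2.7182818283 : ℝ) ^ 3 ≤ Real.exp 1 ^ 3 :=
    pow_le_pow_left₀ (by norm_num) Real.exp_one_gt_d9.le 3
  norm_num at h21 ⊢
  linarith

theorem events_le (K S : ℕ) (hK : 1 ≤ K) (hS : S ≤ K) :
    ((K : ℝ) + S * 2 ^ K * K) ≤ Real.exp (3 * K) := by
  have h1 : (K : ℝ) ≤ 2 ^ K := by exact_mod_cast Nat.lt_two_pow_self.le
  have h2 : (S : ℝ) ≤ 2 ^ K := by
    have : (S : ℝ) ≤ K := by exact_mod_cast hS
    linarith
  have h3 : (2 : ℝ) ≤ 2 ^ K := by
    calc (2 : ℝ) = 2 ^ 1 := by norm_num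
      _ ≤ 2 ^ K := pow_le_pow_right₀ (by norm_num) hK
  have hK0 : (0 : ℝ) ≤ K := Nat.cast_nonneg _
  have hS0 : (0 : ℝ) ≤ S := Nat.cast_nonneg _
  have h4 : (S : ℝ) * 2 ^ K * K ≤ 2 ^ K * 2 ^ K * 2 ^ K := by gcongr
  have h5 : (2 : ℝ) ^ K ≤ 2 ^ K * 2 ^ K * 2 ^ K := by
    have : (1 : ℝ) ≤ 2 ^ K * 2 ^ K := by nlinarith
    nlinarith
  have h6 : (2 : ℝ) ^ K * 2 ^ K * 2 ^ K * 2 ≤ 16 ^ K := by
    have : (16 : ℝ) ^ K = 2 ^ K * 2 ^ K * 2 ^ K * 2 ^ K := by
      rw [← mul_pow, ← mul_pow, ← mul_pow]; norm_num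
    rw [this]
    gcongr
  calc ((K : ℝ) + S * 2 ^ K * K) ≤ 16 ^ K := by linarith
    _ ≤ Real.exp 3 ^ K := pow_le_pow_left₀ (by norm_num) sixteen_le K
    _ = Real.exp (3 * K) := by rw [← Real.exp_nat_mul]; congr 1; ring

/-- the size conditions on `n` -/
structure Big (n : ℕ) : Prop where
  n1000 : 1000 ≤ n
  log_big : (10 : ℝ) ^ 9 ≤ Real.log n
  n_log : 17 * (400 * Real.log n ^ 2 + 1) ≤ n

theorem eventually_big : ∀ᶠ n : ℕ in atTop, Big n := by
  have h1 : Tendsto (fun n : ℕ => Real.log n) atTop atTop :=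
    Real.tendsto_log_atTop.comp tendsto_natCast_atTop_atTop
  have h2 : ∀ᶠ n : ℕ in atTop, (10 : ℝ) ^ 9 ≤ Real.log n := h1.eventually_ge_atTop _
  have h3 : ∀ᶠ n : ℕ in atTop, 17 * (400 * Real.log n ^ 2 + 1) ≤ n := by
    have h4 : (fun x : ℝ => Real.log x ^ 2) =o[atTop] (fun x : ℝ => x) := by
      have := isLittleO_log_rpow_rpow_atTop (s := 1) 2 (by norm_num)
      simpa using this
    have h5 : ∀ᶠ x : ℝ in atTop, ‖Real.log x ^ 2‖ ≤ (1 / 13600) * ‖x‖ :=
      h4.def (by norm_num)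
    have h6 : ∀ᶠ n : ℕ in atTop, ‖Real.log (n : ℝ) ^ 2‖ ≤ (1 / 13600) * ‖(n : ℝ)‖ :=
      tendsto_natCast_atTop_atTop.eventually h5
    filter_upwards [h6, eventually_ge_atTop 34] with n hn hn34
    rw [Real.norm_of_nonneg (by positivity), Real.norm_of_nonneg (by positivity)] at hn
    have : (34 : ℝ) ≤ n := by exact_mod_cast hn34
    linarith
  filter_upwards [eventually_ge_atTop 1000, h2, h3] with n a b c
  exact ⟨a, b, c⟩

/-- number of stages -/
noncomputable def stJ (n : ℕ) : ℕ := ⌈Real.log n / 10 ^ 9⌉₊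

/-- growth factor of the levels -/
noncomputable def grG : ℕ := ⌈Real.exp (10 ^ 9)⌉₊

/-- the levels -/
noncomputable def lev (n s : ℕ) : ℕ := min n (⌈400 * Real.log n ^ 2⌉₊ * grG ^ s)

theorem grG_ge : Real.exp (10 ^ 9) ≤ grG := Nat.le_ceil _

theorem one_le_grG : 1 ≤ grG := by
  have h1 : (1 : ℝ) ≤ grG := (Real.one_le_exp (by positivity)).trans grG_ge
  exact_mod_cast h1

/-- the constant -/
noncomputable def bigC : ℝ := 11520000 * 14400 * grG

theorem bigC_ge : 11520000 * 14400 ≤ bigC := by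
  unfold bigC
  have h1 : (1 : ℝ) ≤ grG := by exact_mod_cast one_le_grG
  linarith

theorem main_blocks {n : ℕ} (hn : Big n) (F : PW (Perm (Fin n))) (m : ℕ)
    (hm : bigC * Real.log n ^ 3 ≤ m) :
    1 ≤ 5 * stJ n ∧ ((5 * stJ n : ℕ) : ℝ) ≤ Real.log n ∧
    (Nat.card {x : Fin (5 * stJ n) → Fin m → Alt n //
        ¬ Good F (wI x Finset.univ) n (1 / 5)} : ℝ) ≤
      4 / n * ((Fintype.card (Alt n) : ℝ) ^ m) ^ (5 * stJ n) := by
  obtain ⟨hn1, hL9, hnL⟩ := hn
  set L := Real.log n with hLdef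
  set J := stJ n with hJdef
  have hn0 : (0 : ℝ) < n := by positivity
  have hexpL : Real.exp L = n := Real.exp_log hn0
  have hL0 : 0 < L := by linarith [show (0 : ℝ) < 10 ^ 9 by norm_num]
  have hL48 : 48 ≤ L := le_trans (by norm_num) hL9
  have hJ1 : L / 10 ^ 9 ≤ J := Nat.le_ceil _
  have hJ2 : (J : ℝ) < L / 10 ^ 9 + 1 := Nat.ceil_lt_add_one (by positivity)
  have hJpos : 1 ≤ J := by
    have : (0 : ℝ) < J := lt_of_lt_of_le (by positivity) hJ1
    exact_mod_cast this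
  have hJ2' : (J : ℝ) ≤ 2 * (L / 10 ^ 9) := by
    have : 1 ≤ L / 10 ^ 9 := by rw [le_div_iff₀ (by norm_num)]; linarith
    linarith
  have hJr : (1 : ℝ) ≤ J := by exact_mod_cast hJpos
  have hKL : 57600000 * ((5 * J : ℕ) : ℝ) ≤ L := by
    push_cast
    have : 57600000 * (5 * (J : ℝ)) ≤ 57600000 * (5 * (2 * (L / 10 ^ 9))) := by gcongr
    refine this.trans ?_
    rw [show (57600000 : ℝ) * (5 * (2 * (L / 10 ^ 9))) = 0.576 * L by ring]
    linarith
  have hKL1 : ((5 * J : ℕ) : ℝ) ≤ L := by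
    have : (0 : ℝ) ≤ ((5 * J : ℕ) : ℝ) := Nat.cast_nonneg _
    linarith
  refine ⟨by omega, hKL1, ?_⟩
  have hGr : (1 : ℝ) ≤ grG := by exact_mod_cast one_le_grG
  have hL3 : 1 ≤ L ^ 2 := by nlinarith
  have hmL : 11520000 * 14400 * (grG : ℝ) * ((5 * J : ℕ) : ℝ) * L ^ 2 ≤ m := by
    refine le_trans ?_ hm
    unfold bigC
    calc 11520000 * 14400 * (grG : ℝ) * ((5 * J : ℕ) : ℝ) * L ^ 2 ≤
          11520000 * 14400 * (grG : ℝ) * L * L ^ 2 := by gcongr
      _ = 11520000 * 14400 * (grG : ℝ) * L ^ 3 := by ring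
  have hmL3 : 100000 * L ^ 3 ≤ m := by
    refine le_trans ?_ hm
    have h1 := bigC_ge
    have h2 : (0 : ℝ) ≤ L ^ 3 := by positivity
    nlinarith
  have hL23 : L ^ 2 * 48 ≤ L ^ 3 := by
    have : L ^ 3 = L ^ 2 * L := by ring
    rw [this]
    gcongr
  have hLL3 : L ≤ L ^ 3 := by nlinarith
  have hm300 : 300 ≤ m := by
    have : (300 : ℝ) ≤ m := by nlinarith
    exact_mod_cast this
  have hc := count_fail (K := 5 * J) (m := m) F (by omega) (lev n) (4 * J) J (by ring) (by omega)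
    (2 * J : ℝ) (by push_cast; linarith) (4 * Real.exp (-(m / 20))) (by positivity)
    (by
      -- base
      have h1 := base_count F m (by omega) (lev n 0) (min_le_left _ _)
      refine h1.trans ?_
      rw [mul_comm]
      refine mul_le_mul_of_nonneg_right ?_ (by positivity)
      have h2 : ((9 : ℝ) / 10) ^ m ≤ Real.exp (-(m / 10)) := by
        calc ((9 : ℝ) / 10) ^ m ≤ Real.exp (-(1 / 10)) ^ m :=
              pow_le_pow_left₀ (by norm_num) nine_tenths_le m
          _ = Real.exp (-(m / 10)) := by rw [← Real.exp_nat_mul]; congr 1; ring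
      have h3 : (n : ℝ) ^ (lev n 0) ≤ Real.exp (m / 20) := by
        rw [← hexpL, ← Real.exp_nat_mul]
        apply Real.exp_le_exp.2
        have h4 : (lev n 0 : ℝ) ≤ 400 * L ^ 2 + 1 := by
          unfold lev
          rw [pow_zero, mul_one, Nat.cast_min]
          exact (min_le_right _ _).trans (Nat.ceil_lt_add_one (by positivity)).le
        have h5 : (lev n 0 : ℝ) * L ≤ (400 * L ^ 2 + 1) * L := by gcongr
        nlinarith
      calc 2 * (9 / 10 : ℝ) ^ m * (n : ℝ) ^ (lev n 0) ≤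
            2 * Real.exp (-(m / 10)) * Real.exp (m / 20) := by gcongr
        _ = 2 * Real.exp (-(m / 20)) := by
            rw [mul_assoc, ← Real.exp_add]; congr 2; ring
        _ ≤ 4 * Real.exp (-(m / 20)) := by
            have := Real.exp_pos (-((m : ℝ) / 20))
            linarith)
    (by
      intro s hs μ hμ hgood
      have hs' : (s : ℝ) + 1 ≤ J := by exact_mod_cast hs
      have hs0 : (0 : ℝ) ≤ s := Nat.cast_nonneg s
      have hden : (0 : ℝ) < (4 * J : ℕ) + (s : ℝ) := by push_cast; linarith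
      refine block_num F μ hμ ((2 * J - s) / ((4 * J : ℕ) + s))
        ((2 * J - s - 1 / 2) / ((4 * J : ℕ) + s)) ((5 * J : ℕ) : ℝ) grG
        (div_nonneg (by linarith) hden.le) ?_ ?_ (by linarith) hL48 hKL ?_ (lev n s)
        (min_le_left _ _) ?_ hgood hn1 hnL (lev n (s + 1)) (min_le_left _ _) ?_ m hmL hm300
      · rw [div_le_one hden]; push_cast; linarith
      · push_cast; linarith
      · have h1 : (2 * (J : ℝ) - s) / ((4 * J : ℕ) + s) -
            (2 * (J : ℝ) - s - 1 / 2) / ((4 * J : ℕ) + s) = 1 / (2 * ((4 * J : ℕ) + s)) := by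
          rw [← sub_div, div_eq_div_iff hden.ne' (by positivity)]
          ring
        rw [h1]
        apply one_div_le_one_div_of_le (by positivity)
        push_cast
        linarith
      · unfold lev
        rw [Nat.cast_min, le_min_iff]
        constructor
        · linarith
        · have h2 : 400 * L ^ 2 ≤ (⌈400 * L ^ 2⌉₊ : ℝ) := Nat.le_ceil _
          have h3 : (1 : ℝ) ≤ (grG : ℝ) ^ s := one_le_pow₀ hGr
          push_cast
          nlinarith
      · unfold lev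
        rw [Nat.cast_min, Nat.cast_min, mul_min_of_nonneg _ _ (by linarith)]
        refine min_le_min ?_ ?_
        · nlinarith
        · push_cast
          rw [pow_succ]
          apply le_of_eq
          ring)
  have hlev : lev n J = n := by
    unfold lev
    apply min_eq_left
    have h1 : (n : ℝ) ≤ (grG : ℝ) ^ J := by
      calc (n : ℝ) = Real.exp L := hexpL.symm
        _ ≤ Real.exp (J * 10 ^ 9) := by
            apply Real.exp_le_exp.2
            rw [div_le_iff₀ (by norm_num)] at hJ1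
            exact hJ1
        _ = Real.exp (10 ^ 9) ^ J := by rw [← Real.exp_nat_mul]
        _ ≤ (grG : ℝ) ^ J := pow_le_pow_left₀ (Real.exp_pos _).le grG_ge J
    have h2 : n ≤ grG ^ J := by exact_mod_cast h1
    have h3 : 1 ≤ ⌈400 * Real.log n ^ 2⌉₊ := by
      rw [Nat.one_le_ceil_iff]; positivity
    calc n ≤ grG ^ J := h2
      _ ≤ ⌈400 * Real.log n ^ 2⌉₊ * grG ^ J := Nat.le_mul_of_pos_left _ h3
  have hε : (2 * (J : ℝ) - J) / ((5 * J : ℕ) : ℝ) = 1 / 5 := by
    push_cast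
    have : (J : ℝ) ≠ 0 := by linarith
    field_simp
    ring
  rw [hlev, hε] at hc
  refine hc.trans (mul_le_mul_of_nonneg_right ?_ (by positivity))
  have h1 := events_le (5 * J) J (by omega) (by omega)
  calc (((5 * J : ℕ) : ℝ) + J * 2 ^ (5 * J) * ((5 * J : ℕ) : ℝ)) * (4 * Real.exp (-(m / 20))) ≤
        Real.exp (3 * ((5 * J : ℕ) : ℝ)) * (4 * Real.exp (-(m / 20))) := by gcongr
    _ = 4 * Real.exp (3 * ((5 * J : ℕ) : ℝ) - m / 20) := by
        rw [sub_eq_add_neg, Real.exp_add]; ring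
    _ ≤ 4 * Real.exp (-L) := by
        gcongr
        nlinarith
    _ = 4 / n := by rw [Real.exp_neg, hexpL]; ring

end Pool.Agent.Helper15.An
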