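import Pool.Agent.Helper15.An.Step

/-! Numerical part of the stage step. -/

set_option linter.unusedSectionVars false

namespace Pool.Agent.Helper15.An

open Matrix Equiv
open scoped ComplexOrder

theorem exp_neg_le_half {x : ℝ} (h0 : 0 ≤ x) (h1 : x ≤ 1) : Real.exp (-x) ≤ 1 - x / 2 := by
  have h2 : 1 + x ≤ Real.exp x := by linarith [Real.add_one_le_exp x]
  have h3 : Real.exp (-x) ≤ 1 / (1 + x) := by
    rw [Real.exp_neg, ← one_div]
    exact one_div_le_one_div_of_le (by linarith) h2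
  refine h3.trans ?_
  rw [div_le_iff₀ (by linarith)]
  nlinarith

theorem num_y (L : ℝ) (hL : 24 ≤ L) (r : ℕ) (hr : 1 ≤ r) (n : ℝ) (hn : Real.exp L = n)
    (J : ℕ) (hJ1 : 2 * r * L ≤ J) (hJ2 : (J : ℝ) ≤ 2 * r * L + 1)
    (p : ℕ) (hp : 400 * L ^ 2 * r ≤ p) :
    (20 : ℝ) ^ r * (2 * (2 / n) ^ r + Real.exp (-(r * L))) +
      (2 * n ^ (12 * J) * (7 / 8) ^ (p + 1) + 1 / 2 ^ J) ≤ Real.exp (5 * r - r * L) := by
  have hr' : (1 : ℝ) ≤ r := by exact_mod_cast hr
  have hnr : (1 / n) ^ r = Real.exp (-(r * L)) := by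
    rw [← hn, one_div, ← Real.exp_neg, ← Real.exp_nat_mul]
    congr 1; ring
  have hrL : 0 ≤ r * L := by positivity
  -- first part
  have h1 : (20 : ℝ) ^ r * (2 * (2 / n) ^ r + Real.exp (-(r * L))) ≤
      120 ^ r * Real.exp (-(r * L)) := by
    have h2 : (2 / n) ^ r = 2 ^ r * Real.exp (-(r * L)) := by
      rw [← hnr, ← mul_pow]; congr 1; ring
    rw [h2]
    have h3 : (1 : ℝ) ≤ 2 ^ r := one_le_pow₀ (by norm_num)
    have h4 : (3 : ℝ) ≤ 3 ^ r := by
      calc (3 : ℝ) = 3 ^ 1 := by norm_num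
        _ ≤ 3 ^ r := pow_le_pow_right₀ (by norm_num) hr
    have hE := Real.exp_pos (-(r * L))
    have h5 : (120 : ℝ) ^ r = 20 ^ r * (2 ^ r * 3 ^ r) := by
      rw [← mul_pow, ← mul_pow]; norm_num
    rw [h5, mul_assoc]
    refine mul_le_mul_of_nonneg_left ?_ (by positivity)
    have h6 : 2 * (2 : ℝ) ^ r + 1 ≤ 2 ^ r * 3 ^ r := by nlinarith
    nlinarith
  -- second part
  have h7 : (7 / 8 : ℝ) ^ (p + 1) ≤ Real.exp (-(50 * L ^ 2 * r)) := by
    have h8 : (7 / 8 : ℝ) ≤ Real.exp (-(1 / 8)) := by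
      have := Real.one_sub_le_exp_neg (1 / 8)
      norm_num at this ⊢
      linarith
    calc (7 / 8 : ℝ) ^ (p + 1) ≤ Real.exp (-(1 / 8)) ^ (p + 1) :=
          pow_le_pow_left₀ (by norm_num) h8 _
      _ = Real.exp (((p + 1 : ℕ) : ℝ) * -(1 / 8)) := by rw [← Real.exp_nat_mul]
      _ ≤ Real.exp (-(50 * L ^ 2 * r)) := by
        apply Real.exp_le_exp.2
        push_cast
        linarith
  have h9 : n ^ (12 * J) ≤ Real.exp (24 * L ^ 2 * r + 12 * L) := by
    rw [← hn, ← Real.exp_nat_mul]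
    apply Real.exp_le_exp.2
    push_cast
    nlinarith
  have h10 : n ^ (12 * J) * (7 / 8) ^ (p + 1) ≤ Real.exp (-(r * L)) := by
    calc n ^ (12 * J) * (7 / 8) ^ (p + 1) ≤
        Real.exp (24 * L ^ 2 * r + 12 * L) * Real.exp (-(50 * L ^ 2 * r)) := by
          gcongr
      _ = Real.exp (12 * L - 26 * L ^ 2 * r) := by
          rw [← Real.exp_add]; congr 1; ring
      _ ≤ Real.exp (-(r * L)) := by
          apply Real.exp_le_exp.2
          have hL2 : L * 24 ≤ L ^ 2 := by nlinarith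
          have h11 : L ≤ r * L := by nlinarith
          have h12 : 24 * (r * L) ≤ L ^ 2 * r := by nlinarith
          nlinarith
  have h13 : (1 : ℝ) / 2 ^ J ≤ Real.exp (-(r * L)) := by
    have h14 : Real.exp (1 / 2) ≤ 2 := by
      have h15 : Real.exp (1 / 2) ^ 2 ≤ 2 ^ 2 := by
        rw [← Real.exp_nat_mul]
        have := Real.exp_one_lt_d9
        norm_num at this ⊢
        linarith
      exact le_of_pow_le_pow_left₀ (by norm_num) (by norm_num) h15
    have h16 : Real.exp (r * L) ≤ 2 ^ J := by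
      calc Real.exp (r * L) ≤ Real.exp (J * (1 / 2)) := by
            apply Real.exp_le_exp.2; linarith
        _ = Real.exp (1 / 2) ^ J := by rw [← Real.exp_nat_mul]
        _ ≤ 2 ^ J := pow_le_pow_left₀ (Real.exp_pos _).le h14 J
    rw [Real.exp_neg, ← one_div]
    exact one_div_le_one_div_of_le (Real.exp_pos _) h16
  have hE := Real.exp_pos (-(r * L))
  have h17 : (123 : ℝ) ^ r ≤ Real.exp (5 * r) := by
    have h18 : (123 : ℝ) ≤ Real.exp 5 := by
      have h19 : Real.exp 5 = Real.exp 1 ^ 5 := by rw [← Real.exp_nat_mul]; norm_num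
      rw [h19]
      have h20 := Real.exp_one_gt_d9
      have h21 : (2.7182818283 : ℝ) ^ 5 ≤ Real.exp 1 ^ 5 :=
        pow_le_pow_left₀ (by norm_num) h20.le 5
      norm_num at h21 ⊢
      linarith
    calc (123 : ℝ) ^ r ≤ Real.exp 5 ^ r := pow_le_pow_left₀ (by norm_num) h18 r
      _ = Real.exp (5 * r) := by rw [← Real.exp_nat_mul]; congr 1; ring
  have h22 : (120 : ℝ) ^ r + 3 ≤ 123 ^ r := by
    have h23 : ∀ s : ℕ, (120 : ℝ) ^ (s + 1) + 3 ≤ 123 ^ (s + 1) := by
      intro s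
      induction s with
      | zero => norm_num
      | succ s ih =>
        rw [pow_succ, pow_succ 123]
        have : (0 : ℝ) < 120 ^ (s + 1) := by positivity
        nlinarith
    obtain ⟨s, rfl⟩ : ∃ s, r = s + 1 := ⟨r - 1, by omega⟩
    exact h23 s
  have h24 : Real.exp (5 * r - r * L) = Real.exp (5 * r) * Real.exp (-(r * L)) := by
    rw [← Real.exp_add]; congr 1
  rw [h24]
  calc _ ≤ 120 ^ r * Real.exp (-(r * L)) + (2 * Real.exp (-(r * L)) + Real.exp (-(r * L))) := by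
        nlinarith
    _ = (120 ^ r + 3) * Real.exp (-(r * L)) := by ring
    _ ≤ Real.exp (5 * r) * Real.exp (-(r * L)) := by
        apply mul_le_mul_of_nonneg_right (h22.trans h17) hE.le

variable {n : ℕ}

/-- density of large eigenvalues -/
theorem density_bound (F : PW (Perm (Fin n))) (μ : Perm (Fin n) → ℝ)
    (hμ : IsSP (Alt n : Set (Perm (Fin n))) μ) (ε : ℝ) (hε0 : 0 < ε) (hε1 : ε ≤ 1)
    (p : ℕ) (hgood : Good F μ p ε) (hL : 24 ≤ Real.log n) (r : ℕ) (hr : 1 ≤ r)
    (hrp : 400 * Real.log n ^ 2 * r ≤ p) (hp : 16 * (p + 1) ≤ n) (hn : 1000 ≤ n)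
    (i : Fin F.c) (hi : ¬ Triv (F.ρ i) (Alt n)) :
    (Fintype.card (TopIdx (wop_isHermitian (F.ρ i) (F.irr i).unit hμ) (1 - ε / 8)) : ℝ) ≤
        Real.exp (-(r * Real.log n / 2)) * F.D i := by
  classical
  set L := Real.log n with hLdef
  have hn0 : (0 : ℝ) < n := by positivity
  have hexpL : Real.exp L = n := Real.exp_log hn0
  have hr' : (1 : ℝ) ≤ r := by exact_mod_cast hr
  have hD : (0 : ℝ) ≤ F.D i := Nat.cast_nonneg _
  set T := wop (F.ρ i) μ with hT
  have hTH : T.IsHermitian := wop_isHermitian (F.ρ i) (F.irr i).unit hμ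
  by_cases hfix : HasFix (F.ρ i) (stab n p)
  · -- the set of large eigenvalues is empty
    have h1 := hgood i hi hfix
    have h2 : Fintype.card (TopIdx hTH (1 - ε / 8)) = 0 := by
      rw [Fintype.card_eq_zero_iff]
      refine ⟨fun j => ?_⟩
      have h3 := eigenvalues_le_of hTH _ h1 j.1
      have h4 := j.2
      linarith
    rw [h2]
    simp only [Nat.cast_zero]
    positivity
  · -- walk parameters
    set l := ⌈(2 / ε) * (r * L)⌉₊ with hl
    have hl1 : (2 / ε) * (r * L) ≤ l := Nat.le_ceil _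
    have hl2 : (l : ℝ) ≤ (2 / ε) * (r * L) + 1 := (Nat.ceil_lt_add_one (by positivity)).le
    obtain ⟨κ, hk0, hk1, hk2, hk3⟩ := exists_law (Alt n) hμ l
    set J := ⌈2 * r * L⌉₊ with hJ
    have hJ1 : 2 * r * L ≤ J := Nat.le_ceil _
    have hJ2 : (J : ℝ) ≤ 2 * r * L + 1 := (Nat.ceil_lt_add_one (by positivity)).le
    have hrpn : r ≤ p := by
      have : (r : ℝ) ≤ p := by
        refine le_trans ?_ hrp
        have : (1 : ℝ) ≤ 400 * L ^ 2 := by nlinarith
        nlinarith
      exact_mod_cast this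
    have hp16 : (16 : ℝ) * (p + 1) ≤ n := by exact_mod_cast hp
    have h20r : 20 * r ≤ n := by
      have : (20 : ℝ) * r ≤ n := by
        have h1 : (20 : ℝ) * r ≤ 400 * L ^ 2 * r := by
          have : (20 : ℝ) ≤ 400 * L ^ 2 := by nlinarith
          nlinarith
        have hp0 : (0 : ℝ) ≤ p := Nat.cast_nonneg _
        linarith
      exact_mod_cast this
    have h12J : 20 * (12 * J + 1) ≤ n := by
      have h1 : (J : ℝ) ≤ p / 200 + 1 := by
        have : 2 * r * L ≤ p / 200 := by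
          have h2 : 2 * r * L * 200 ≤ 400 * L ^ 2 * r := by nlinarith [mul_nonneg (by linarith : (0:ℝ) ≤ r) (by linarith : (0:ℝ) ≤ L)]
          linarith
        linarith
      have h2 : (20 : ℝ) * (12 * J + 1) ≤ n := by
        have hn1000 : (1000 : ℝ) ≤ n := by exact_mod_cast hn
        have hp0 : (0 : ℝ) ≤ p := Nat.cast_nonneg _
        nlinarith
      exact_mod_cast h2
    -- few fixed points
    set δ : ℝ := Real.exp (-(r * L)) with hδ
    have hP := fix_prob F (by omega) r h20r κ hk0 hk1 hk2 δ (Real.exp_pos _).le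
      (fun i' hi' hf' => by
        have h1 := hgood i' hi' (hf'.mono hrpn)
        have h2 := trace_lazy_le (wop_isHermitian (F.ρ i') (F.irr i').unit hμ) ε
          (wop_add_one (F.ρ i') (F.irr i').unit hμ) h1 l
        rw [hk3, Fintype.card_fin] at h2
        refine h2.trans ?_
        refine mul_le_mul_of_nonneg_right ?_ (Nat.cast_nonneg _)
        have h3 : 1 - ε / 2 ≤ Real.exp (-(ε / 2)) := Real.one_sub_le_exp_neg _
        calc (1 - ε / 2) ^ l ≤ Real.exp (-(ε / 2)) ^ l := pow_le_pow_left₀ (by linarith) h3 l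
          _ = Real.exp (l * -(ε / 2)) := by rw [← Real.exp_nat_mul]
          _ ≤ Real.exp (-(r * L)) := by
            apply Real.exp_le_exp.2
            have h4 : (2 / ε) * (r * L) * (ε / 2) = r * L := by field_simp
            have h5 : (2 / ε) * (r * L) * (ε / 2) ≤ l * (ε / 2) := by gcongr
            linarith)
    -- the trace
    have htr := trace_wop_le (F.ρ i) (F.irr i).unit κ hk0 hk1 _
      (2 * (n : ℝ) ^ (12 * J) * (7 / 8) ^ (p + 1) + 1 / 2 ^ J) (by positivity) hP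
      (fun g hg => char_bound_mat (F.ρ i) (F.irr i).unit p hfix (by omega) hp J h12J g hg)
    have hnum := num_y L hL r hr n hexpL J hJ1 hJ2 p hrp
    have h1 := card_top_le hTH (ε / 8) (by linarith) (wop_add_one (F.ρ i) (F.irr i).unit hμ) l
    rw [hk3] at h1
    have h2 : (Fintype.card (TopIdx hTH (1 - ε / 8)) : ℝ) * (1 - ε / 8 / 2) ^ l ≤
        F.D i * Real.exp (5 * r - r * L) :=
      (h1.trans htr).trans (mul_le_mul_of_nonneg_left hnum hD)
    have h3 : Real.exp (-(r * L / 4 + 1)) ≤ (1 - ε / 8 / 2) ^ l := by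
      have h4 : Real.exp (-(ε / 8)) ≤ 1 - ε / 8 / 2 := exp_neg_le_half (by positivity) (by linarith)
      refine le_trans ?_ (pow_le_pow_left₀ (Real.exp_pos _).le h4 l)
      rw [← Real.exp_nat_mul]
      apply Real.exp_le_exp.2
      have h5 : (l : ℝ) * (ε / 8) ≤ ((2 / ε) * (r * L) + 1) * (ε / 8) := by gcongr
      have h6 : ((2 / ε) * (r * L) + 1) * (ε / 8) = r * L / 4 + ε / 8 := by field_simp; ring
      linarith
    have h7 : (Fintype.card (TopIdx hTH (1 - ε / 8)) : ℝ) * Real.exp (-(r * L / 4 + 1)) ≤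
        F.D i * Real.exp (5 * r - r * L) :=
      (mul_le_mul_of_nonneg_left h3 (Nat.cast_nonneg _)).trans h2
    calc (Fintype.card (TopIdx hTH (1 - ε / 8)) : ℝ) =
          (Fintype.card (TopIdx hTH (1 - ε / 8)) : ℝ) * Real.exp (-(r * L / 4 + 1)) *
            Real.exp (r * L / 4 + 1) := by
          rw [mul_assoc, ← Real.exp_add, neg_add_cancel, Real.exp_zero, mul_one]
      _ ≤ F.D i * Real.exp (5 * r - r * L) * Real.exp (r * L / 4 + 1) :=
          mul_le_mul_of_nonneg_right h7 (Real.exp_pos _).le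
      _ = F.D i * Real.exp (5 * r - r * L + (r * L / 4 + 1)) := by
          rw [mul_assoc, ← Real.exp_add]
      _ ≤ F.D i * Real.exp (-(r * L / 2)) := by
          refine mul_le_mul_of_nonneg_left (Real.exp_le_exp.2 ?_) hD
          nlinarith
      _ = Real.exp (-(r * L / 2)) * F.D i := mul_comm _ _

/-- the stage step with explicit failure probability -/
theorem step_num (F : PW (Perm (Fin n))) (μ : Perm (Fin n) → ℝ)
    (hμ : IsSP (Alt n : Set (Perm (Fin n))) μ) (ε : ℝ) (hε0 : 0 < ε) (hε1 : ε ≤ 1)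
    (p : ℕ) (hgood : Good F μ p ε) (hL : 24 ≤ Real.log n) (r : ℕ) (hr : 1 ≤ r)
    (hrp : 400 * Real.log n ^ 2 * r ≤ p) (hp : 16 * (p + 1) ≤ n) (hn : 1000 ≤ n)
    (m : ℕ) (hm : 0 < m) (q : ℕ) (hq : 16 * q ≤ r * m) (hqn : q ≤ n) :
    (Nat.card {x : Fin m → Alt n // ¬ Good F (mixW μ (tupW x)) q (ε / 800)} : ℝ) ≤
      (Fintype.card (Alt n) : ℝ) ^ m * (2 * Real.exp (-(m * Real.log n / 8))) := by
  set L := Real.log n with hLdef
  have hn0 : (0 : ℝ) < n := by positivity
  have hexpL : Real.exp L = n := Real.exp_log hn0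
  have hr' : (1 : ℝ) ≤ r := by exact_mod_cast hr
  have h1 := step_abs F (by omega) μ hμ ε hε0 hε1 (Real.exp (-(r * L / 2))) (Real.exp_pos _)
    (Real.exp_le_one_iff.2 (by rw [neg_nonpos]; positivity))
    (fun i hi => density_bound F μ hμ ε hε0 hε1 p hgood hL r hr hrp hp hn i hi) m hm q hqn
  refine h1.trans ?_
  rw [mul_assoc]
  refine mul_le_mul_of_nonneg_left ?_ (by positivity)
  have h2 : Real.sqrt (Real.exp (-(r * L / 2))) = Real.exp (-(r * L / 4)) := by
    rw [Real.sqrt_eq_iff_mul_self_eq (Real.exp_pos _).le (Real.exp_pos _).le, ← Real.exp_add]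
    congr 1; ring
  have h3 : 3 * Real.exp (-(r * L / 4)) ≤ Real.exp (3 / 2 - r * L / 4) := by
    have h4 : (3 : ℝ) ≤ Real.exp (3 / 2) := by
      have h5 : (3 : ℝ) ^ 2 ≤ Real.exp (3 / 2) ^ 2 := by
        rw [← Real.exp_nat_mul]
        have h6 : ((2 : ℕ) : ℝ) * (3 / 2) = ((3 : ℕ) : ℝ) * 1 := by norm_num
        rw [h6, Real.exp_nat_mul]
        have h7 : (2.7182818283 : ℝ) ^ 3 ≤ Real.exp 1 ^ 3 :=
          pow_le_pow_left₀ (by norm_num) Real.exp_one_gt_d9.le 3
        norm_num at h7 ⊢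
        linarith
      exact le_of_pow_le_pow_left₀ (by norm_num) (Real.exp_pos _).le h5
    rw [sub_eq_add_neg, Real.exp_add]
    exact mul_le_mul_of_nonneg_right h4 (Real.exp_pos _).le
  have h8 : (3 * Real.sqrt (Real.exp (-(r * L / 2)))) ^ m ≤
      Real.exp (m * (3 / 2 - r * L / 4)) := by
    rw [h2, Real.exp_nat_mul]
    exact pow_le_pow_left₀ (by positivity) h3 m
  have h9 : (n : ℝ) ^ q ≤ Real.exp (r * m * L / 16) := by
    rw [← hexpL, ← Real.exp_nat_mul]
    apply Real.exp_le_exp.2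
    have h10 : (16 : ℝ) * q ≤ r * m := by exact_mod_cast hq
    have hL0 : 0 ≤ L := by linarith
    nlinarith
  have hm' : (0 : ℝ) < m := by exact_mod_cast hm
  calc (3 * Real.sqrt (Real.exp (-(r * L / 2)))) ^ m * (2 * (n : ℝ) ^ q) ≤
        Real.exp (m * (3 / 2 - r * L / 4)) * (2 * Real.exp (r * m * L / 16)) := by gcongr
    _ = 2 * Real.exp (m * (3 / 2 - r * L / 4) + r * m * L / 16) := by
        rw [Real.exp_add]; ring
    _ ≤ 2 * Real.exp (-(m * L / 8)) := by
        gcongr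
        have h11 : (r : ℝ) * L * (3 / 16) ≥ L * (3 / 16) := by nlinarith
        have h12 : m * (3 / 2 - r * L / 4) + r * m * L / 16 = m * (3 / 2 - r * L * (3 / 16)) := by
          ring
        rw [h12]
        have h13 : 3 / 2 - r * L * (3 / 16) ≤ -(L / 8) := by linarith
        calc (m : ℝ) * (3 / 2 - r * L * (3 / 16)) ≤ m * (-(L / 8)) := by gcongr
          _ = -(m * L / 8) := by ring

end Pool.Agent.Helper15.An
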