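import Pool.Agent.Helper15.An.Chain

/-! Parameters of one step and counting of the failures. -/

set_option linter.unusedSectionVars false

namespace Pool.Agent.Helper15.An

open Matrix Equiv
open scoped ComplexOrder

variable {n : ℕ}

theorem three_le_exp : (3 : ℝ) ≤ Real.exp (3 / 2) := by
  have h5 : (3 : ℝ) ^ 2 ≤ Real.exp (3 / 2) ^ 2 := by
    rw [← Real.exp_nat_mul]
    have h6 : ((2 : ℕ) : ℝ) * (3 / 2) = ((3 : ℕ) : ℝ) * 1 := by norm_num
    rw [h6, Real.exp_nat_mul]
    have h7 : (2.7182818283 : ℝ) ^ 3 ≤ Real.exp 1 ^ 3 :=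
      pow_le_pow_left₀ (by norm_num) Real.exp_one_gt_d9.le 3
    norm_num at h7 ⊢
    linarith
  exact le_of_pow_le_pow_left₀ (by norm_num) (Real.exp_pos _).le h5

/-- purely numerical part of one step -/
theorem exponent_bound (L K γ r q m Gr : ℝ) (hL : 0 < L) (hK : 0 < K)
    (hLK : 57600000 * K ≤ L) (hγ : 1 / (2 * K) ≤ γ) (hr : 1 ≤ r) (hm : 0 ≤ m)
    (hq : q ≤ 14400 * Gr * L ^ 2 * r)
    (hmG : 11520000 * 14400 * Gr * K * L ^ 2 ≤ m) :
    3 / 2 * m - γ * r * L / 32 * m / 90000 + q * L ≤ -(m / 20) := by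
  have h1 : 10 ≤ L / (5760000 * K) := by
    rw [le_div_iff₀ (by positivity)]; linarith
  set κ := L / (5760000 * K) with hκ
  have h2 : κ * r * m ≤ γ * r * L / 32 * m / 90000 := by
    have h3 : κ = 1 / (2 * K) * L / 32 / 90000 := by rw [hκ]; field_simp; norm_num
    rw [h3]
    have h4 : 1 / (2 * K) * (r * L * m / 32 / 90000) ≤ γ * (r * L * m / 32 / 90000) :=
      mul_le_mul_of_nonneg_right hγ (by positivity)
    calc 1 / (2 * K) * L / 32 / 90000 * r * m = 1 / (2 * K) * (r * L * m / 32 / 90000) := by ring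
      _ ≤ γ * (r * L * m / 32 / 90000) := h4
      _ = γ * r * L / 32 * m / 90000 := by ring
  have h5 : q * L ≤ κ * r * m / 2 := by
    have h6 : q * L ≤ 14400 * Gr * L ^ 2 * r * L := mul_le_mul_of_nonneg_right hq hL.le
    have h7 : 14400 * Gr * L ^ 2 * r * L = (11520000 * 14400 * Gr * K * L ^ 2) *
        (κ * r / 2) := by rw [hκ]; field_simp; ring
    have h8 : (11520000 * 14400 * Gr * K * L ^ 2) * (κ * r / 2) ≤ m * (κ * r / 2) :=
      mul_le_mul_of_nonneg_right hmG (by positivity)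
    linarith
  have h9 : 10 * m ≤ κ * r * m := by
    have h10 : (10 : ℝ) ≤ κ * r := by nlinarith
    exact mul_le_mul_of_nonneg_right h10 hm
  linarith

/-- one step with all parameters -/
theorem block_num (F : PW (Perm (Fin n))) (μ : Perm (Fin n) → ℝ)
    (hμ : IsSP (Alt n : Set (Perm (Fin n))) μ) (ε η K Gr : ℝ) (hη0 : 0 ≤ η) (hε1 : ε ≤ 1)
    (hK : 1 ≤ K) (hGr : 0 ≤ Gr) (hL : 48 ≤ Real.log n) (hLK : 57600000 * K ≤ Real.log n)
    (hγ : 1 / (2 * K) ≤ ε - η) (p : ℕ) (hpn : p ≤ n) (hp : 400 * Real.log n ^ 2 ≤ p)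
    (hgood : Good F μ p ε) (hn : 1000 ≤ n) (hn2 : 17 * (400 * Real.log n ^ 2 + 1) ≤ n)
    (q : ℕ) (hqn : q ≤ n) (hqG : (q : ℝ) ≤ Gr * p) (m : ℕ)
    (hmG : 11520000 * 14400 * Gr * K * Real.log n ^ 2 ≤ m) (hm300 : 300 ≤ m) :
    (Nat.card {y : Fin m → Alt n // ¬ Small F μ η q y} : ℝ) ≤
      4 * Real.exp (-(m / 20)) * (Fintype.card (Alt n) : ℝ) ^ m := by
  set L := Real.log n with hLdef
  have hn0 : (0 : ℝ) < n := by positivity
  have hexpL : Real.exp L = n := Real.exp_log hn0
  have hL2 : 0 < 400 * L ^ 2 := by positivity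
  -- capped level
  set p' := min p (n / 17) with hp'
  have hdiv : (n : ℝ) / 17 - 1 ≤ (n / 17 : ℕ) := by
    have : (n : ℝ) < 17 * ((n / 17 : ℕ) + 1) := by
      exact_mod_cast Nat.lt_mul_div_succ n (by norm_num : 0 < 17)
    linarith
  have hp'1 : 400 * L ^ 2 ≤ p' := by
    rw [hp', Nat.cast_min, le_min_iff]
    exact ⟨hp, by linarith⟩
  have hp'18 : (p : ℝ) ≤ 18 * p' := by
    rw [hp', Nat.cast_min]
    rcases min_cases (p : ℝ) ((n / 17 : ℕ) : ℝ) with ⟨h, _⟩ | ⟨h, _⟩
    · rw [h]
      have : (0 : ℝ) ≤ p := Nat.cast_nonneg _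
      linarith
    · rw [h]
      have h1 : (1000 : ℝ) ≤ n := by exact_mod_cast hn
      have h2 : (p : ℝ) ≤ n := by exact_mod_cast hpn
      linarith
  have hp'16 : 16 * (p' + 1) ≤ n := by
    have h1 : p' ≤ n / 17 := min_le_right _ _
    omega
  set r := ⌊(p' : ℝ) / (400 * L ^ 2)⌋₊ with hr
  have hr1 : 1 ≤ r := by
    rw [hr]
    apply Nat.le_floor
    rw [Nat.cast_one, le_div_iff₀ hL2]
    linarith
  have hrp : 400 * L ^ 2 * r ≤ p' := by
    have := Nat.floor_le (show 0 ≤ (p' : ℝ) / (400 * L ^ 2) by positivity)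
    rw [← hr, le_div_iff₀ hL2] at this
    linarith
  have hr2 : (p' : ℝ) ≤ 800 * L ^ 2 * r := by
    have h1 := Nat.lt_floor_add_one ((p' : ℝ) / (400 * L ^ 2))
    rw [← hr, div_lt_iff₀ hL2] at h1
    have h2 : (1 : ℝ) ≤ r := by exact_mod_cast hr1
    nlinarith
  have hγ0 : 0 < 1 / (2 * K) := by positivity
  have hηε : η < ε := by linarith
  have hγL : 64 ≤ (ε - η) * L := by
    have h1 : 1 / (2 * K) * (57600000 * K) ≤ (ε - η) * L := by
      apply mul_le_mul hγ hLK (by positivity) (by linarith)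
    have h2 : 1 / (2 * K) * (57600000 * K) = 28800000 := by field_simp; norm_num
    linarith
  have hgood' : Good F μ p' ε := hgood.mono (min_le_left _ _)
  have hb := block_abs F (by omega) μ hμ η ((ε - η) * r * L / 32)
    (by have : 0 ≤ ε - η := by linarith
        positivity)
    (fun i hi => density2 F μ hμ ε η hη0 hηε hε1 p' hgood' hL r hr1 hrp hp'16 hn hγL i hi)
    m hm300 q hqn
  refine hb.trans ?_
  rw [mul_comm]
  refine mul_le_mul_of_nonneg_right ?_ (by positivity)
  have h3 : (3 : ℝ) ^ m ≤ Real.exp (m * (3 / 2)) := by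
    rw [Real.exp_nat_mul]
    exact pow_le_pow_left₀ (by norm_num) three_le_exp m
  have h4 : (n : ℝ) ^ q = Real.exp (q * L) := by rw [← hexpL, ← Real.exp_nat_mul]
  rw [h4]
  have h5 := exponent_bound L K (ε - η) r q m Gr (by linarith) (by linarith) hLK hγ
    (by exact_mod_cast hr1) (Nat.cast_nonneg m)
    (by
      calc (q : ℝ) ≤ Gr * p := hqG
        _ ≤ Gr * (18 * p') := mul_le_mul_of_nonneg_left hp'18 hGr
        _ ≤ Gr * (18 * (800 * L ^ 2 * r)) := by gcongr
        _ = 14400 * Gr * L ^ 2 * r := by ring) hmG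
  calc 4 * 3 ^ m * Real.exp (-((ε - η) * r * L / 32 * m / 90000)) * Real.exp (q * L) ≤
        4 * Real.exp (m * (3 / 2)) * Real.exp (-((ε - η) * r * L / 32 * m / 90000)) *
          Real.exp (q * L) := by gcongr
    _ = 4 * Real.exp (3 / 2 * m - (ε - η) * r * L / 32 * m / 90000 + q * L) := by
        rw [mul_assoc, mul_assoc, ← Real.exp_add, ← Real.exp_add]
        congr 2; ring
    _ ≤ 4 * Real.exp (-(m / 20)) := by gcongr

/-- union bound over all bad events -/
theorem count_fail {K m : ℕ} (F : PW (Perm (Fin n))) (hm : 0 < m) (q : ℕ → ℕ) (K1 S : ℕ)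
    (hK : K = K1 + S) (hK1 : 1 ≤ K1) (h0 : ℝ) (hh0 : h0 ≤ (K1 : ℝ) / 2) (f : ℝ) (hf : 0 ≤ f)
    (hbase : (Nat.card {y : Fin m → Alt n // ¬ Base F (q 0) y} : ℝ) ≤
      f * (Fintype.card (Alt n) : ℝ) ^ m)
    (hstep : ∀ s < S, ∀ μ : Perm (Fin n) → ℝ, IsSP (Alt n : Set (Perm (Fin n))) μ →
      Good F μ (q s) ((h0 - s) / (K1 + s)) →
      (Nat.card {y : Fin m → Alt n // ¬ Small F μ ((h0 - s - 1 / 2) / (K1 + s)) (q (s + 1)) y} : ℝ)
        ≤ f * (Fintype.card (Alt n) : ℝ) ^ m) :
    (Nat.card {x : Fin K → Fin m → Alt n //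
        ¬ Good F (wI x Finset.univ) (q S) ((h0 - S) / K)} : ℝ) ≤
      ((K : ℝ) + S * 2 ^ K * K) * f * ((Fintype.card (Alt n) : ℝ) ^ m) ^ K := by
  classical
  have hYcard : Fintype.card (Fin m → Alt n) = Fintype.card (Alt n) ^ m := by
    rw [Fintype.card_fun, Fintype.card_fin]
  -- bad events
  let B1 : Fin K → Finset (Fin K → Fin m → Alt n) := fun j =>
    Finset.univ.filter fun x => ¬ Base F (q 0) (x j)
  let B2 : Fin S × Finset (Fin K) × Fin K → Finset (Fin K → Fin m → Alt n) := fun t =>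
    Finset.univ.filter fun x => (t.2.1.card = K1 + t.1 ∧ t.2.2 ∉ t.2.1 ∧
      Good F (wI x t.2.1) (q t.1) ((h0 - (t.1 : ℕ)) / t.2.1.card)) ∧
        ¬ Small F (wI x t.2.1) ((h0 - (t.1 : ℕ) - 1 / 2) / t.2.1.card) (q ((t.1 : ℕ) + 1)) (x t.2.2)
  have hB1 : ∀ j, ((B1 j).card : ℝ) ≤ f * ((Fintype.card (Alt n) : ℝ) ^ m) ^ K := by
    intro j
    have h1 := fresh (Y := Fin m → Alt n) j (fun x => ¬ Base F (q 0) (x j)) f (fun x => by
      simp only [Function.update_self]
      rw [hYcard]
      push_cast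
      exact hbase)
    rw [Nat.card_eq_fintype_card, Fintype.card_subtype, hYcard] at h1
    push_cast at h1
    exact h1
  have hB2 : ∀ t, ((B2 t).card : ℝ) ≤ f * ((Fintype.card (Alt n) : ℝ) ^ m) ^ K := by
    rintro ⟨s, I, j⟩
    have h1 := fresh (Y := Fin m → Alt n) j (fun x => (I.card = K1 + s ∧ j ∉ I ∧
      Good F (wI x I) (q s) ((h0 - (s : ℕ)) / I.card)) ∧
        ¬ Small F (wI x I) ((h0 - (s : ℕ) - 1 / 2) / I.card) (q ((s : ℕ) + 1)) (x j)) f (fun x => by
      simp only [Function.update_self]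
      rw [hYcard]
      push_cast
      by_cases hg : I.card = K1 + s ∧ j ∉ I ∧ Good F (wI x I) (q s) ((h0 - (s : ℕ)) / I.card)
      · obtain ⟨hI, hj, hgd⟩ := hg
        have hupd : ∀ y, wI (Function.update x j y) I = wI x I := by
          intro y
          unfold wI
          ext g
          congr 1
          refine Finset.sum_congr rfl fun k hk => ?_
          rw [Function.update_of_ne]
          rintro rfl
          exact hj hk
        have hIc : (I.card : ℝ) = K1 + (s : ℕ) := by rw [hI]; push_cast; ring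
        have hne : I.Nonempty := by rw [← Finset.card_pos]; omega
        simp only [hupd]
        have h2 := hstep s s.2 (wI x I) (wI_isSP hm x I hne) (by rw [← hIc]; exact hgd)
        rw [← hIc] at h2
        refine le_trans ?_ h2
        rw [Nat.card_eq_fintype_card, Fintype.card_subtype, Nat.card_eq_fintype_card,
          Fintype.card_subtype]
        refine Nat.cast_le.2 (Finset.card_le_card fun y hy => ?_)
        rw [Finset.mem_filter] at hy ⊢
        exact ⟨hy.1, hy.2.2⟩
      · have h2 : Nat.card {y : Fin m → Alt n // (I.card = K1 + s ∧ j ∉ I ∧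
            Good F (wI (Function.update x j y) I) (q s) ((h0 - (s : ℕ)) / I.card)) ∧
            ¬ Small F (wI (Function.update x j y) I) ((h0 - (s : ℕ) - 1 / 2) / I.card)
              (q ((s : ℕ) + 1)) y} = 0 := by
          rw [Nat.card_eq_zero]
          left
          refine ⟨fun y => ?_⟩
          obtain ⟨⟨h3, h4, h5⟩, _⟩ := y.2
          apply hg
          refine ⟨h3, h4, ?_⟩
          have hupd : wI (Function.update x j y.1) I = wI x I := by
            unfold wI
            ext g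
            congr 1
            refine Finset.sum_congr rfl fun k hk => ?_
            rw [Function.update_of_ne]
            rintro rfl
            exact h4 hk
          rwa [hupd] at h5
        rw [h2]
        simp only [Nat.cast_zero]
        positivity)
    rw [Nat.card_eq_fintype_card, Fintype.card_subtype, hYcard] at h1
    push_cast at h1
    exact h1
  -- covering
  rw [Nat.card_eq_fintype_card, Fintype.card_subtype]
  have hcov : (Finset.univ.filter fun x : Fin K → Fin m → Alt n =>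
      ¬ Good F (wI x Finset.univ) (q S) ((h0 - S) / K)) ⊆
      (Finset.univ.biUnion B1) ∪ (Finset.univ.biUnion B2) := by
    intro x hx
    rw [Finset.mem_union]
    by_contra hno
    rw [not_or] at hno
    obtain ⟨hn1, hn2⟩ := hno
    apply (Finset.mem_filter.1 hx).2
    have hb : ∀ j, Base F (q 0) (x j) := by
      intro j
      by_contra hc
      apply hn1
      rw [Finset.mem_biUnion]
      exact ⟨j, Finset.mem_univ j, Finset.mem_filter.2 ⟨Finset.mem_univ x, hc⟩⟩
    have hs2 : ∀ s < S, ∀ I : Finset (Fin K), I.card = K1 + s → ∀ j ∉ I,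
        Good F (wI x I) (q s) ((h0 - s) / I.card) →
          Small F (wI x I) ((h0 - s - 1 / 2) / I.card) (q (s + 1)) (x j) := by
      intro s hs I hI j hj hg
      by_contra hc
      apply hn2
      rw [Finset.mem_biUnion]
      exact ⟨(⟨s, hs⟩, I, j), Finset.mem_univ _,
        Finset.mem_filter.2 ⟨Finset.mem_univ x, ⟨hI, hj, hg⟩, hc⟩⟩
    have hfin := chain_det F hm x q K1 hK1 h0 hh0 (fun I hI => by
      have hne : I.Nonempty := by rw [← Finset.card_pos]; omega
      refine good_of_base F x (q 0) I hne (fun j _ => hb j) h0 ?_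
      rw [hI]; exact hh0) S hs2 S le_rfl Finset.univ
      (by rw [Finset.card_univ, Fintype.card_fin, hK])
    rw [Finset.card_univ, Fintype.card_fin] at hfin
    exact hfin
  have h1 := (Finset.card_le_card hcov).trans (Finset.card_union_le _ _)
  have h2 : ((Finset.univ.biUnion B1).card : ℝ) ≤
      (K : ℝ) * (f * ((Fintype.card (Alt n) : ℝ) ^ m) ^ K) := by
    refine (Nat.cast_le.2 Finset.card_biUnion_le).trans ?_
    push_cast
    refine (Finset.sum_le_sum fun j _ => hB1 j).trans (le_of_eq ?_)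
    rw [Finset.sum_const, Finset.card_univ, Fintype.card_fin, nsmul_eq_mul]
  have h3 : ((Finset.univ.biUnion B2).card : ℝ) ≤
      ((S : ℝ) * 2 ^ K * K) * (f * ((Fintype.card (Alt n) : ℝ) ^ m) ^ K) := by
    refine (Nat.cast_le.2 Finset.card_biUnion_le).trans ?_
    push_cast
    refine (Finset.sum_le_sum fun j _ => hB2 j).trans (le_of_eq ?_)
    rw [Finset.sum_const, Finset.card_univ, Fintype.card_prod, Fintype.card_prod,
      Fintype.card_fin, Fintype.card_finset, Fintype.card_fin, nsmul_eq_mul]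
    push_cast
    ring
  have h4 := (Nat.cast_le (α := ℝ)).2 h1
  rw [Nat.cast_add] at h4
  refine h4.trans ((add_le_add h2 h3).trans (le_of_eq ?_))
  ring

end Pool.Agent.Helper15.An
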