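import Pool.Agent.Helper15.An.Walk

/-! Unitary matrix representations of finite groups: averaging operators. -/

set_option linter.unusedSectionVars false

namespace Pool.Agent.Helper15.An

open Matrix
open scoped ComplexOrder

variable {G : Type} [Group G] [Fintype G] [DecidableEq G]

section general
variable {D : ℕ} (ρ : G →* Matrix (Fin D) (Fin D) ℂ) (hu : ∀ g, (ρ g)ᴴ * ρ g = 1)
include hu

theorem rho_mul_conj (g : G) : ρ g * (ρ g)ᴴ = 1 := mul_eq_one_comm.1 (hu g)

theorem rho_conj (g : G) : (ρ g)ᴴ = ρ g⁻¹ := by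
  have h1 : ρ g⁻¹ * ρ g = 1 := by rw [← map_mul, inv_mul_cancel, map_one]
  calc (ρ g)ᴴ = (ρ g⁻¹ * ρ g) * (ρ g)ᴴ := by rw [h1, Matrix.one_mul]
    _ = ρ g⁻¹ := by rw [Matrix.mul_assoc, rho_mul_conj ρ hu, Matrix.mul_one]

end general

/-- the operator of a real weight function -/
noncomputable def wop {D : ℕ} (ρ : G →* Matrix (Fin D) (Fin D) ℂ) (μ : G → ℝ) :
    Matrix (Fin D) (Fin D) ℂ := ∑ g, μ g • ρ g

/-- symmetric probability weights supported in a set `A` -/
structure IsSP (A : Set G) (μ : G → ℝ) : Prop where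
  nonneg : ∀ g, 0 ≤ μ g
  sum : ∑ g, μ g = 1
  symm : ∀ g, μ g⁻¹ = μ g
  supp : ∀ g, g ∉ A → μ g = 0

section wops
variable {D : ℕ} (ρ : G →* Matrix (Fin D) (Fin D) ℂ) (hu : ∀ g, (ρ g)ᴴ * ρ g = 1)
  {A : Set G} {μ : G → ℝ} (hμ : IsSP A μ)
include hu hμ

theorem wop_isHermitian : (wop ρ μ).IsHermitian := by
  unfold wop Matrix.IsHermitian
  rw [conjTranspose_sum, ← Equiv.sum_comp (Equiv.inv G)]
  refine Finset.sum_congr rfl fun g _ => ?_
  rw [conjTranspose_smul, rho_conj ρ hu]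
  simp [hμ.symm]

theorem wop_sum_conj : ∑ g, μ g • (ρ g)ᴴ = wop ρ μ := by
  have := wop_isHermitian ρ hu hμ
  unfold wop Matrix.IsHermitian at this
  rw [conjTranspose_sum] at this
  rw [wop]
  refine Eq.trans ?_ this
  refine Finset.sum_congr rfl fun g _ => ?_
  rw [conjTranspose_smul]; simp

theorem one_sub_wop : ((1 : ℝ) • (1 : Matrix (Fin D) (Fin D) ℂ) - wop ρ μ).PosSemidef := by
  have h1 : ((1 : ℝ) • (1 : Matrix (Fin D) (Fin D) ℂ) - wop ρ μ) =
      ∑ g, (μ g / 2) • ((1 - ρ g)ᴴ * (1 - ρ g)) := by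
    have h2 : ∀ g, (μ g / 2) • ((1 - ρ g)ᴴ * (1 - ρ g)) =
        μ g • (1 : Matrix (Fin D) (Fin D) ℂ) - (1 / 2 : ℝ) • (μ g • (ρ g)ᴴ) -
          (1 / 2 : ℝ) • (μ g • ρ g) := by
      intro g
      rw [conjTranspose_sub, conjTranspose_one, Matrix.sub_mul, Matrix.mul_sub, Matrix.mul_sub,
        hu g]
      simp only [Matrix.one_mul, Matrix.mul_one]
      module
    simp_rw [h2]
    rw [Finset.sum_sub_distrib, Finset.sum_sub_distrib, ← Finset.sum_smul, hμ.sum,
      ← Finset.smul_sum, ← Finset.smul_sum, wop_sum_conj ρ hu hμ]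
    rw [← wop]
    module
  rw [h1]
  exact posSemidef_sum _ fun g _ =>
    (posSemidef_conjTranspose_mul_self _).smul (by have := hμ.nonneg g; positivity)

theorem wop_add_one : (wop ρ μ - (-1 : ℝ) • (1 : Matrix (Fin D) (Fin D) ℂ)).PosSemidef := by
  have h1 : (wop ρ μ - (-1 : ℝ) • (1 : Matrix (Fin D) (Fin D) ℂ)) =
      ∑ g, (μ g / 2) • ((1 + ρ g)ᴴ * (1 + ρ g)) := by
    have h2 : ∀ g, (μ g / 2) • ((1 + ρ g)ᴴ * (1 + ρ g)) =
        μ g • (1 : Matrix (Fin D) (Fin D) ℂ) + (1 / 2 : ℝ) • (μ g • (ρ g)ᴴ) +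
          (1 / 2 : ℝ) • (μ g • ρ g) := by
      intro g
      rw [conjTranspose_add, conjTranspose_one, Matrix.add_mul, Matrix.mul_add, Matrix.mul_add,
        hu g]
      simp only [Matrix.one_mul, Matrix.mul_one]
      module
    simp_rw [h2]
    rw [Finset.sum_add_distrib, Finset.sum_add_distrib, ← Finset.sum_smul, hμ.sum,
      ← Finset.smul_sum, ← Finset.smul_sum, wop_sum_conj ρ hu hμ]
    rw [← wop]
    module
  rw [h1]
  exact posSemidef_sum _ fun g _ =>
    (posSemidef_conjTranspose_mul_self _).smul (by have := hμ.nonneg g; positivity)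

end wops

/-- laws of powers of the lazy walk -/
theorem exists_law (A : Subgroup G) {μ : G → ℝ} (hμ : IsSP (A : Set G) μ) (l : ℕ) :
    ∃ κ : G → ℝ, (∀ g, 0 ≤ κ g) ∧ ∑ g, κ g = 1 ∧ (∀ g, g ∉ A → κ g = 0) ∧
      ∀ (D : ℕ) (ρ : G →* Matrix (Fin D) (Fin D) ℂ),
        ((1 / 2 : ℝ) • ((1 : Matrix (Fin D) (Fin D) ℂ) + wop ρ μ)) ^ l = wop ρ κ := by
  classical
  induction l with
  | zero =>
    refine ⟨fun g => if g = 1 then 1 else 0, fun g => ?_, by simp, fun g hg => ?_, fun D ρ => ?_⟩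
    · beta_reduce
      split_ifs <;> norm_num
    · beta_reduce
      rw [if_neg]
      rintro rfl
      exact hg A.one_mem
    · simp [wop]
  | succ l ih =>
    obtain ⟨κ, h0, h1, h2, h3⟩ := ih
    refine ⟨fun g => (1 / 2) * (κ g + ∑ h, μ h * κ (h⁻¹ * g)), fun g => ?_, ?_, fun g hg => ?_,
      fun D ρ => ?_⟩
    · have : 0 ≤ ∑ h, μ h * κ (h⁻¹ * g) :=
        Finset.sum_nonneg fun h _ => mul_nonneg (hμ.nonneg h) (h0 _)
      have := h0 g
      positivity
    · rw [← Finset.mul_sum, Finset.sum_add_distrib, h1, Finset.sum_comm]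
      have : ∀ h, ∑ g, μ h * κ (h⁻¹ * g) = μ h := by
        intro h
        rw [← Finset.mul_sum]
        have h5 : ∑ g, κ (h⁻¹ * g) = ∑ g, κ g := Equiv.sum_comp (Equiv.mulLeft h⁻¹) κ
        rw [h5, h1, mul_one]
      simp_rw [this]
      rw [hμ.sum]; norm_num
    · have hs : ∑ h, μ h * κ (h⁻¹ * g) = 0 := by
        refine Finset.sum_eq_zero fun h _ => ?_
        by_cases hh : h ∈ A
        · rw [h2 (h⁻¹ * g), mul_zero]
          intro hc
          apply hg
          have := A.mul_mem hh hc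
          simpa using this
        · rw [hμ.supp h hh, zero_mul]
      beta_reduce
      rw [hs, h2 g hg]; simp
    · rw [pow_succ', h3 D ρ, Matrix.smul_mul, Matrix.add_mul, Matrix.one_mul]
      have h4 : wop ρ μ * wop ρ κ = ∑ g, (∑ h, μ h * κ (h⁻¹ * g)) • ρ g := by
        unfold wop
        simp_rw [Finset.sum_smul]
        rw [Finset.sum_mul, Finset.sum_comm]
        refine Finset.sum_congr rfl fun h _ => ?_
        rw [Finset.mul_sum, ← Equiv.sum_comp (Equiv.mulLeft h) (fun g => (μ h * κ (h⁻¹ * g)) • ρ g)]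
        refine Finset.sum_congr rfl fun g _ => ?_
        simp only [Equiv.coe_mulLeft, inv_mul_cancel_left, map_mul, Matrix.smul_mul,
          Matrix.mul_smul, smul_smul]
        congr 1
        ring
      rw [h4]
      unfold wop
      rw [← Finset.sum_add_distrib, Finset.smul_sum]
      refine Finset.sum_congr rfl fun g _ => ?_
      rw [← add_smul, smul_smul]

end Pool.Agent.Helper15.An
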