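import Pool.Agent.Helper15.An.Walk

/-! Sequential matrix Chernoff bound and the norm of random averages on a small subspace. -/

set_option linter.unusedSectionVars false

namespace Pool.Agent.Helper15.An

open Matrix
open scoped ComplexOrder

section seq
variable {e : Type} [Fintype e] [DecidableEq e] {Ω : Type} [Fintype Ω]

/-- partial sums of an adapted sequence of matrices -/
noncomputable def adS (Z : (m : ℕ) → (Fin m → Ω) → Ω → Matrix e e ℂ) :
    (m : ℕ) → (Fin m → Ω) → Matrix e e ℂ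
  | 0, _ => 0
  | m + 1, ω => adS Z m (Fin.init ω) + Z m (Fin.init ω) (ω (Fin.last m))

theorem adS_isHermitian (Z : (m : ℕ) → (Fin m → Ω) → Ω → Matrix e e ℂ)
    (hZ : ∀ m y x, (Z m y x).IsHermitian) (m : ℕ) (ω : Fin m → Ω) :
    (adS Z m ω).IsHermitian := by
  induction m with
  | zero => simp [adS, Matrix.IsHermitian]
  | succ m ih => exact (ih _).add (hZ _ _ _)

theorem seq_chernoff (Z : (m : ℕ) → (Fin m → Ω) → Ω → Matrix e e ℂ)
    (hZ : ∀ m y x, (Z m y x).IsHermitian) (κ : ℝ) (hκ : 0 ≤ κ)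
    (h : ∀ m y, (((Fintype.card Ω : ℝ) * κ) • (1 : Matrix e e ℂ) -
      ∑ x, NormedSpace.exp (Z m y x)).PosSemidef) (m : ℕ) :
    ∑ ω : Fin m → Ω, (trace (NormedSpace.exp (adS Z m ω))).re ≤
      ((Fintype.card Ω : ℝ) * κ) ^ m * Fintype.card e := by
  induction m with
  | zero => simp [adS, NormedSpace.exp_zero]
  | succ m ih =>
    have hC : (0 : ℝ) ≤ (Fintype.card Ω : ℝ) * κ := mul_nonneg (Nat.cast_nonneg _) hκ
    rw [← (Fin.snocEquiv (fun _ : Fin (m + 1) => Ω)).sum_comp, Fintype.sum_prod_type,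
      Finset.sum_comm]
    calc ∑ y : Fin m → Ω, ∑ x : Ω,
          (trace (NormedSpace.exp (adS Z (m + 1)
            ((Fin.snocEquiv (fun _ : Fin (m + 1) => Ω)) (x, y))))).re
        ≤ ∑ y : Fin m → Ω, ∑ x : Ω,
          (trace (NormedSpace.exp (adS Z m y) * NormedSpace.exp (Z m y x))).re := by
          refine Finset.sum_le_sum fun y _ => Finset.sum_le_sum fun x _ => ?_
          have h1 := golden_thompson (adS_isHermitian Z hZ m y) (hZ m y x)
          have h2 : adS Z (m + 1) ((Fin.snocEquiv (fun _ : Fin (m + 1) => Ω)) (x, y)) =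
              adS Z m y + Z m y x := by
            rw [adS]
            simp [Fin.snocEquiv]
          rw [h2]
          exact h1
      _ = ∑ y : Fin m → Ω, (trace (NormedSpace.exp (adS Z m y) *
            ∑ x : Ω, NormedSpace.exp (Z m y x))).re := by
          refine Finset.sum_congr rfl fun y _ => ?_
          rw [Matrix.mul_sum, Matrix.trace_sum, Complex.re_sum]
      _ ≤ ∑ y : Fin m → Ω, (trace (NormedSpace.exp (adS Z m y) *
            (((Fintype.card Ω : ℝ) * κ) • (1 : Matrix e e ℂ)))).re :=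
          Finset.sum_le_sum fun y _ =>
            trace_mul_mono (exp_posSemidef (adS_isHermitian Z hZ m y)) (h m y)
      _ = ((Fintype.card Ω : ℝ) * κ) *
            ∑ y : Fin m → Ω, (trace (NormedSpace.exp (adS Z m y))).re := by
          rw [Finset.mul_sum]
          refine Finset.sum_congr rfl fun y _ => ?_
          rw [Matrix.mul_smul, Matrix.mul_one, Matrix.trace_smul]
          simp
      _ ≤ ((Fintype.card Ω : ℝ) * κ) *
            (((Fintype.card Ω : ℝ) * κ) ^ m * Fintype.card e) :=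
          mul_le_mul_of_nonneg_left ih hC
      _ = ((Fintype.card Ω : ℝ) * κ) ^ (m + 1) * Fintype.card e := by ring

theorem adS_smul (Z : (m : ℕ) → (Fin m → Ω) → Ω → Matrix e e ℂ) (s : ℝ) (m : ℕ)
    (ω : Fin m → Ω) : adS (fun m y x => s • Z m y x) m ω = s • adS Z m ω := by
  induction m with
  | zero => simp [adS]
  | succ m ih => rw [adS, adS, ih, smul_add]

/-- adapted Chernoff bound for positive semidefinite contractions -/
theorem seq_psd_chernoff (Y : (m : ℕ) → (Fin m → Ω) → Ω → Matrix e e ℂ)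
    (hY : ∀ m y x, (Y m y x).PosSemidef)
    (hY1 : ∀ m y x, ((1 : ℝ) • (1 : Matrix e e ℂ) - Y m y x).PosSemidef) (c : ℝ) (hc : 0 ≤ c)
    (hav : ∀ m y, (((Fintype.card Ω : ℝ) * c) • (1 : Matrix e e ℂ) - ∑ x, Y m y x).PosSemidef)
    (s : ℝ) (hs : 0 ≤ s) (m : ℕ) :
    ∑ ω : Fin m → Ω, (trace (NormedSpace.exp (s • adS Y m ω))).re ≤
      ((Fintype.card Ω : ℝ) * (1 + (Real.exp s - 1) * c)) ^ m * Fintype.card e := by
  have he : 0 ≤ Real.exp s - 1 := by
    have := Real.one_le_exp hs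
    linarith
  have hκ : 0 ≤ 1 + (Real.exp s - 1) * c := by positivity
  have h := seq_chernoff (fun m y x => s • Y m y x) (fun m y x => by
    unfold Matrix.IsHermitian
    rw [conjTranspose_smul, (hY m y x).isHermitian.eq]; simp) _ hκ ?_ m
  · simpa only [adS_smul] using h
  · intro m y
    have h1 : ∀ x, ((1 : ℝ) • (1 : Matrix e e ℂ) + (Real.exp s - 1) • Y m y x -
        NormedSpace.exp (s • Y m y x)).PosSemidef := by
      intro x
      refine affine_sub_exp (hY m y x).isHermitian s 1 (Real.exp s - 1) fun i => ?_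
      exact exp_le_chord s _ ((hY m y x).eigenvalues_nonneg i)
        (eigenvalues_le_of (hY m y x).isHermitian 1 (hY1 m y x) i)
    have h2 : (∑ x, ((1 : ℝ) • (1 : Matrix e e ℂ) + (Real.exp s - 1) • Y m y x -
        NormedSpace.exp (s • Y m y x))).PosSemidef :=
      posSemidef_sum _ fun x _ => h1 x
    have h3 : ((Real.exp s - 1) • (((Fintype.card Ω : ℝ) * c) • (1 : Matrix e e ℂ) -
        ∑ x, Y m y x)).PosSemidef := (hav m y).smul he
    have h4 := h2.add h3
    convert h4 using 1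
    rw [Finset.sum_sub_distrib, Finset.sum_add_distrib,
      ← Finset.smul_sum (r := Real.exp s - 1) (f := fun x => Y m y x)]
    simp only [Finset.sum_const, Finset.card_univ, smul_sub]
    rw [← Nat.cast_smul_eq_nsmul ℝ, smul_smul, smul_smul]
    rw [show ((Fintype.card Ω : ℝ) * (1 + (Real.exp s - 1) * c)) =
      (Fintype.card Ω : ℝ) * 1 + (Real.exp s - 1) * ((Fintype.card Ω : ℝ) * c) by ring, add_smul]
    abel

end seq

section small
variable {d e : Type} [Fintype d] [DecidableEq d] [Fintype e] [DecidableEq e]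
  {Ω : Type} [Fintype Ω] [Nonempty Ω]

/-- average of the translates of the projection `J Jᴴ` along the past -/
noncomputable def pastW (a : Ω → Matrix d d ℂ) (J : Matrix d e ℂ) (m : ℕ) (y : Fin m → Ω) :
    Matrix d d ℂ := (m : ℝ)⁻¹ • ∑ l, a (y l) * (J * Jᴴ) * (a (y l))ᴴ

/-- overlap with the past -/
noncomputable def ovl (a : Ω → Matrix d d ℂ) (J : Matrix d e ℂ) (m : ℕ) (y : Fin m → Ω) (x : Ω) :
    Matrix e e ℂ := Jᴴ * ((a x)ᴴ * pastW a J m y * a x) * J

variable (a : Ω → Matrix d d ℂ) (ha : ∀ ω, (a ω)ᴴ * a ω = 1) {J : Matrix d e ℂ} (hJ : Jᴴ * J = 1)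

theorem pastW_posSemidef (a : Ω → Matrix d d ℂ) (J : Matrix d e ℂ) (m : ℕ) (y : Fin m → Ω) :
    (pastW a J m y).PosSemidef := by
  unfold pastW
  refine (posSemidef_sum _ fun l _ => ?_).smul (by positivity)
  exact (posSemidef_self_mul_conjTranspose J).mul_mul_conjTranspose_same (a (y l))

include ha hJ in
theorem pastW_le (m : ℕ) (y : Fin m → Ω) :
    ((1 : ℝ) • (1 : Matrix d d ℂ) - pastW a J m y).PosSemidef := by
  rcases Nat.eq_zero_or_pos m with h0 | hm
  · subst h0
    simp [pastW, Matrix.PosSemidef.one]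
  · have ha' : ∀ ω, a ω * (a ω)ᴴ = 1 := fun ω => mul_eq_one_comm.1 (ha ω)
    have hm' : (m : ℝ) ≠ 0 := by positivity
    have hP : ((1 : Matrix d d ℂ) - J * Jᴴ).PosSemidef := by
      have h1 : (1 : Matrix d d ℂ) - J * Jᴴ = (1 - J * Jᴴ)ᴴ * (1 - J * Jᴴ) := by
        rw [conjTranspose_sub, conjTranspose_one, conjTranspose_mul, conjTranspose_conjTranspose,
          Matrix.sub_mul, Matrix.mul_sub, Matrix.mul_sub, Matrix.one_mul, Matrix.one_mul,
          Matrix.mul_one]
        have : J * Jᴴ * (J * Jᴴ) = J * Jᴴ := by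
          rw [Matrix.mul_assoc, ← Matrix.mul_assoc Jᴴ, hJ, Matrix.one_mul]
        rw [this]
        abel
      rw [h1]
      exact posSemidef_conjTranspose_mul_self _
    have h2 : (1 : ℝ) • (1 : Matrix d d ℂ) - pastW a J m y =
        (m : ℝ)⁻¹ • ∑ l, a (y l) * (1 - J * Jᴴ) * (a (y l))ᴴ := by
      unfold pastW
      simp_rw [Matrix.mul_sub, Matrix.sub_mul, Matrix.mul_one, ha']
      rw [Finset.sum_sub_distrib, smul_sub, Finset.sum_const, Finset.card_univ, Fintype.card_fin,
        ← Nat.cast_smul_eq_nsmul ℝ, smul_smul, inv_mul_cancel₀ hm']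
    rw [h2]
    refine (posSemidef_sum _ fun l _ => ?_).smul (by positivity)
    exact hP.mul_mul_conjTranspose_same (a (y l))

include ha in
theorem trace_pastW_le (hJ : Jᴴ * J = 1) (m : ℕ) (y : Fin m → Ω) :
    (trace (pastW a J m y)).re ≤ Fintype.card e := by
  rcases Nat.eq_zero_or_pos m with h0 | hm
  · subst h0
    simp [pastW]
  · have hm' : (m : ℝ) ≠ 0 := by positivity
    unfold pastW
    rw [trace_smul, trace_sum]
    have h1 : ∀ l, trace (a (y l) * (J * Jᴴ) * (a (y l))ᴴ) = (Fintype.card e : ℂ) := by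
      intro l
      rw [Matrix.trace_mul_comm, ← Matrix.mul_assoc, ha, Matrix.one_mul, Matrix.trace_mul_comm,
        hJ, trace_one]
    simp_rw [h1]
    simp
    field_simp
    exact le_refl _

theorem qf_conj (J : Matrix d e ℂ) (M : Matrix d d ℂ) (u : e → ℂ) :
    qf (Jᴴ * M * J) u = qf M (J *ᵥ u) := by
  unfold qf
  rw [star_mulVec, ← dotProduct_mulVec, Matrix.mulVec_mulVec, Matrix.mulVec_mulVec]

theorem qf_self_mul_conj (B : Matrix d e ℂ) (v : d → ℂ) : qf (B * Bᴴ) v = nrm2 (Bᴴ *ᵥ v) := by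
  rw [nrm2_mulVec, conjTranspose_conjTranspose]

/-- quadratic form of the overlap -/
theorem qf_ovl (a : Ω → Matrix d d ℂ) (J : Matrix d e ℂ) (m : ℕ) (y : Fin m → Ω) (x : Ω)
    (u : e → ℂ) :
    (m : ℝ) * qf (ovl a J m y x) u =
      ∑ l, nrm2 (Jᴴ *ᵥ ((a (y l))ᴴ *ᵥ (a x *ᵥ (J *ᵥ u)))) := by
  rcases Nat.eq_zero_or_pos m with h0 | hm
  · subst h0
    simp
  · have hm' : (m : ℝ) ≠ 0 := by positivity
    have h1 : qf (ovl a J m y x) u = qf (pastW a J m y) (a x *ᵥ (J *ᵥ u)) := by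
      unfold ovl
      rw [qf_conj, ← qf_conj (a x)]
    rw [h1]
    unfold pastW
    rw [qf_smul, qf_sum, ← mul_assoc, mul_inv_cancel₀ hm', one_mul]
    refine Finset.sum_congr rfl fun l _ => ?_
    have h2 : a (y l) * (J * Jᴴ) * (a (y l))ᴴ = (a (y l) * J) * (a (y l) * J)ᴴ := by
      rw [conjTranspose_mul]; simp only [Matrix.mul_assoc]
    rw [h2, qf_self_mul_conj, conjTranspose_mul]
    simp only [Matrix.mulVec_mulVec, Matrix.mul_assoc]

/-- cross terms -/
theorem two_re_inner_le (t : ℝ) (ht : 0 < t) (u z : e → ℂ) :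
    2 * (star u ⬝ᵥ z).re ≤ t * nrm2 u + t⁻¹ * nrm2 z := by
  have h1 : (star u ⬝ᵥ z).re ≤ ∑ i, ‖u i‖ * ‖z i‖ := by
    unfold dotProduct
    rw [Complex.re_sum]
    refine Finset.sum_le_sum fun i _ => ?_
    refine (Complex.re_le_norm _).trans ?_
    rw [norm_mul, Pi.star_apply, norm_star]
  have h2 : 2 * ∑ i, ‖u i‖ * ‖z i‖ ≤ t * nrm2 u + t⁻¹ * nrm2 z := by
    unfold nrm2
    rw [Finset.mul_sum, Finset.mul_sum, Finset.mul_sum, ← Finset.sum_add_distrib]
    refine Finset.sum_le_sum fun i _ => ?_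
    have h3 : 0 ≤ t⁻¹ * (t * ‖u i‖ - ‖z i‖) ^ 2 := by positivity
    have h4 : t⁻¹ * (t * ‖u i‖ - ‖z i‖) ^ 2 =
        t * ‖u i‖ ^ 2 - 2 * (‖u i‖ * ‖z i‖) + t⁻¹ * ‖z i‖ ^ 2 := by
      field_simp
      ring
    linarith
  linarith

theorem nrm2_add (p q : d → ℂ) : nrm2 (p + q) = nrm2 p + nrm2 q + 2 * (star p ⬝ᵥ q).re := by
  rw [nrm2_eq, nrm2_eq, nrm2_eq, star_add, add_dotProduct, dotProduct_add, dotProduct_add]
  have h1 : (star q ⬝ᵥ p).re = (star p ⬝ᵥ q).re := by
    have : star q ⬝ᵥ p = star (star p ⬝ᵥ q) := by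
      rw [← star_dotProduct_star, star_star, dotProduct_comm]
    rw [this, Complex.star_def, Complex.conj_re]
  simp only [Complex.add_re]
  rw [h1]
  ring

include ha in
/-- growth of the partial sums applied to a vector of the subspace -/
theorem partial_sum_le (hJ : Jᴴ * J = 1) (M : ℕ) (t : ℝ) (ht : 0 < t) (u : e → ℂ) :
    ∀ (m : ℕ), m ≤ M → ∀ ω : Fin m → Ω,
      nrm2 ((∑ l, a (ω l)) *ᵥ (J *ᵥ u)) ≤
        m * (1 + M * t) * nrm2 u + M * t⁻¹ * qf (adS (ovl a J) m ω) u := by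
  intro m
  induction m with
  | zero =>
    intro _ ω
    simp [adS, nrm2, qf]
  | succ m ih =>
    intro hm ω
    have h1 := ih (by omega) (Fin.init ω)
    set v := J *ᵥ u with hv
    set X := (∑ l : Fin m, a (Fin.init ω l)) *ᵥ v with hX
    set x := ω (Fin.last m) with hx
    have h2 : (∑ l, a (ω l)) *ᵥ v = X + a x *ᵥ v := by
      rw [Fin.sum_univ_castSucc, Matrix.add_mulVec]
      rfl
    have h3 : nrm2 (a x *ᵥ v) = nrm2 u := by
      rw [nrm2_unitary (ha x), hv, nrm2_iso hJ]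
    have h4 : 2 * (star X ⬝ᵥ (a x *ᵥ v)).re ≤
        m * t * nrm2 u + t⁻¹ * (m * qf (ovl a J m (Fin.init ω) x) u) := by
      have h5 : (star X ⬝ᵥ (a x *ᵥ v)).re =
          ∑ l : Fin m, (star u ⬝ᵥ (Jᴴ *ᵥ ((a (Fin.init ω l))ᴴ *ᵥ (a x *ᵥ v)))).re := by
        rw [hX, Matrix.sum_mulVec, star_sum, sum_dotProduct, Complex.re_sum]
        refine Finset.sum_congr rfl fun l _ => ?_
        rw [star_mulVec, hv, star_mulVec]
        simp only [← dotProduct_mulVec]
      rw [h5, Finset.mul_sum, qf_ovl]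
      have h6 : (m : ℝ) * t * nrm2 u = ∑ _l : Fin m, t * nrm2 u := by
        rw [Finset.sum_const, Finset.card_univ, Fintype.card_fin, nsmul_eq_mul]; ring
      rw [h6, Finset.mul_sum, ← Finset.sum_add_distrib]
      exact Finset.sum_le_sum fun l _ => two_re_inner_le t ht u _
    rw [h2, nrm2_add, h3]
    have hmM : (m : ℝ) ≤ M := by exact_mod_cast (by omega : m ≤ M)
    have hq0 : 0 ≤ qf (ovl a J m (Fin.init ω) x) u := by
      apply qf_nonneg
      unfold ovl
      exact ((pastW_posSemidef a J m _).conjTranspose_mul_mul_same (a x)).conjTranspose_mul_mul_same J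
    have hu0 := nrm2_nonneg u
    have h7 : qf (adS (ovl a J) (m + 1) ω) u =
        qf (adS (ovl a J) m (Fin.init ω)) u + qf (ovl a J m (Fin.init ω) x) u := by
      rw [adS, qf_add]
    rw [h7]
    push_cast
    have h8 : (m : ℝ) * t * nrm2 u ≤ M * t * nrm2 u := by gcongr
    have h9 : t⁻¹ * (m * qf (ovl a J m (Fin.init ω) x) u) ≤
        M * t⁻¹ * qf (ovl a J m (Fin.init ω) x) u := by
      calc t⁻¹ * (m * qf (ovl a J m (Fin.init ω) x) u) ≤
            t⁻¹ * (M * qf (ovl a J m (Fin.init ω) x) u) := by gcongr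
        _ = M * t⁻¹ * qf (ovl a J m (Fin.init ω) x) u := by ring
    nlinarith

include ha in
/-- the count of tuples whose sum is not small on the subspace -/
theorem small_count (hd : 0 < Fintype.card d)
    (hdes : ∀ M : Matrix d d ℂ, M.PosSemidef →
      ((2 * (Fintype.card Ω : ℝ) * (trace M).re / Fintype.card d) • (1 : Matrix d d ℂ) -
        ∑ ω, (a ω)ᴴ * M * a ω).PosSemidef)
    (hJ : Jᴴ * J = 1) (s : ℝ) (hs : 0 ≤ s)
    (hcard : (Fintype.card e : ℝ) ≤ Real.exp (-s) * Fintype.card d) (m : ℕ) :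
    (Nat.card {ω : Fin m → Ω // ¬ ∀ u : e → ℂ, nrm2 ((∑ l, a (ω l)) *ᵥ (J *ᵥ u)) ≤
        (m + (m : ℝ) ^ 2 * (2 / 300)) * nrm2 u} : ℝ) ≤
      (Fintype.card Ω : ℝ) ^ m * (3 ^ m * Real.exp (-(s * m / 90000))) * Fintype.card d := by
  classical
  have hd' : (0 : ℝ) < Fintype.card d := by exact_mod_cast hd
  set y := Real.exp (-s) with hy
  have hy0 : 0 < y := Real.exp_pos _
  have hy1 : y ≤ 1 := Real.exp_le_one_iff.2 (by linarith)
  have hYpsd : ∀ m y x, (ovl a J m y x).PosSemidef := fun m y x => by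
    unfold ovl
    exact ((pastW_posSemidef a J m _).conjTranspose_mul_mul_same (a x)).conjTranspose_mul_mul_same J
  have hY1 : ∀ m y x, ((1 : ℝ) • (1 : Matrix e e ℂ) - ovl a J m y x).PosSemidef := by
    intro m y x
    have h1 := ((pastW_le a ha hJ m y).conjTranspose_mul_mul_same (a x)).conjTranspose_mul_mul_same J
    convert h1 using 1
    unfold ovl
    rw [one_smul, one_smul, Matrix.mul_sub, Matrix.sub_mul, Matrix.mul_one, ha, Matrix.mul_sub,
      Matrix.sub_mul, Matrix.mul_one, hJ]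
  have hc0 : (0 : ℝ) ≤ 2 * y := by positivity
  have hav : ∀ m z, (((Fintype.card Ω : ℝ) * (2 * y)) • (1 : Matrix e e ℂ) -
      ∑ x, ovl a J m z x).PosSemidef := by
    intro m z
    have h1 := (hdes _ (pastW_posSemidef a J m z)).conjTranspose_mul_mul_same J
    have h2 : (Jᴴ * ((2 * (Fintype.card Ω : ℝ) * (trace (pastW a J m z)).re / Fintype.card d) •
        (1 : Matrix d d ℂ) - ∑ ω, (a ω)ᴴ * pastW a J m z * a ω) * J) =
        (2 * (Fintype.card Ω : ℝ) * (trace (pastW a J m z)).re / Fintype.card d) •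
          (1 : Matrix e e ℂ) - ∑ x, ovl a J m z x := by
      rw [Matrix.mul_sub, Matrix.sub_mul, Matrix.mul_smul, Matrix.smul_mul, Matrix.mul_one, hJ,
        Matrix.mul_sum, Matrix.sum_mul]
      rfl
    rw [h2] at h1
    have h3 : ((((Fintype.card Ω : ℝ) * (2 * y)) -
        2 * (Fintype.card Ω : ℝ) * (trace (pastW a J m z)).re / Fintype.card d) •
          (1 : Matrix e e ℂ)).PosSemidef := by
      refine Matrix.PosSemidef.one.smul ?_
      rw [sub_nonneg, div_le_iff₀ hd']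
      have h4 := (trace_pastW_le a ha hJ m z).trans hcard
      have h5 : (0 : ℝ) ≤ Fintype.card Ω := Nat.cast_nonneg _
      nlinarith
    have h6 := h1.add h3
    convert h6 using 1
    rw [sub_smul]
    abel
  have hch := seq_psd_chernoff (ovl a J) hYpsd hY1 (2 * y) hc0 hav s hs m
  have hes : Real.exp s * y = 1 := by rw [hy, ← Real.exp_add]; simp
  have hbase : 1 + (Real.exp s - 1) * (2 * y) ≤ 3 := by nlinarith
  have hbase0 : 0 ≤ 1 + (Real.exp s - 1) * (2 * y) := by
    have : 0 ≤ Real.exp s - 1 := by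
      have := Real.one_le_exp hs
      linarith
    positivity
  rw [Nat.card_eq_fintype_card, Fintype.card_subtype]
  set B := Finset.univ.filter (fun ω : Fin m → Ω => ¬ ∀ u : e → ℂ,
    nrm2 ((∑ l, a (ω l)) *ᵥ (J *ᵥ u)) ≤ (m + (m : ℝ) ^ 2 * (2 / 300)) * nrm2 u) with hB
  have hbad : ∀ ω : Fin m → Ω, ¬ (∀ u : e → ℂ, nrm2 ((∑ l, a (ω l)) *ᵥ (J *ᵥ u)) ≤
        (m + (m : ℝ) ^ 2 * (2 / 300)) * nrm2 u) →
      Real.exp (s * ((m : ℝ) / 90000)) ≤ (trace (NormedSpace.exp (s • adS (ovl a J) m ω))).re := by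
    intro ω hω
    have hSH : (adS (ovl a J) m ω).IsHermitian :=
      adS_isHermitian _ (fun m y x => (hYpsd m y x).isHermitian) m ω
    have hex : ∃ i, (m : ℝ) / 90000 ≤ hSH.eigenvalues i := by
      by_contra hno
      push Not at hno
      apply hω
      intro u
      have h1 := posSemidef_of_eigenvalues_le hSH _ fun i => (hno i).le
      have h2 := qf_nonneg h1 u
      rw [qf_sub, qf_smul, qf_one] at h2
      have h3 := partial_sum_le a ha hJ m (1 / 300) (by norm_num) u m le_rfl ω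
      have h4 : (m : ℝ) * (1 / 300 : ℝ)⁻¹ * qf (adS (ovl a J) m ω) u ≤
          m * (1 / 300 : ℝ)⁻¹ * (m / 90000 * nrm2 u) := by
        have : (0 : ℝ) ≤ m * (1 / 300 : ℝ)⁻¹ := by positivity
        apply mul_le_mul_of_nonneg_left _ this
        linarith
      refine h3.trans ((add_le_add_right h4 _).trans (le_of_eq ?_))
      ring
    obtain ⟨i, hi⟩ := hex
    rw [trace_exp_smul hSH]
    refine le_trans ?_ (Finset.single_le_sum (f := fun i => Real.exp (s * hSH.eigenvalues i))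
      (fun i _ => (Real.exp_pos _).le) (Finset.mem_univ i))
    exact Real.exp_le_exp.2 (mul_le_mul_of_nonneg_left hi hs)
  have hcount : (B.card : ℝ) * Real.exp (s * ((m : ℝ) / 90000)) ≤
      ((Fintype.card Ω : ℝ) * (1 + (Real.exp s - 1) * (2 * y))) ^ m * Fintype.card e := by
    refine le_trans ?_ hch
    rw [← nsmul_eq_mul, ← Finset.sum_const]
    refine (Finset.sum_le_sum fun ω hω => hbad ω (Finset.mem_filter.1 hω).2).trans ?_
    refine Finset.sum_le_sum_of_subset_of_nonneg (Finset.filter_subset _ _) fun ω _ _ => ?_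
    have hSH : (adS (ovl a J) m ω).IsHermitian :=
      adS_isHermitian _ (fun m y x => (hYpsd m y x).isHermitian) m ω
    rw [trace_exp_smul hSH]
    exact Finset.sum_nonneg fun i _ => (Real.exp_pos _).le
  have hI : (Fintype.card e : ℝ) ≤ Fintype.card d := by
    refine hcard.trans ?_
    have : y * (Fintype.card d : ℝ) ≤ 1 * Fintype.card d := by gcongr
    linarith
  have hexp : Real.exp (s * ((m : ℝ) / 90000)) * Real.exp (-(s * m / 90000)) = 1 := by
    rw [← Real.exp_add]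
    rw [show s * ((m : ℝ) / 90000) + -(s * m / 90000) = 0 by ring, Real.exp_zero]
  calc (B.card : ℝ) = (B.card : ℝ) * Real.exp (s * ((m : ℝ) / 90000)) *
        Real.exp (-(s * m / 90000)) := by rw [mul_assoc, hexp, mul_one]
    _ ≤ (((Fintype.card Ω : ℝ) * (1 + (Real.exp s - 1) * (2 * y))) ^ m * Fintype.card e) *
        Real.exp (-(s * m / 90000)) := by gcongr
    _ ≤ (((Fintype.card Ω : ℝ) * 3) ^ m * Fintype.card d) * Real.exp (-(s * m / 90000)) := by
        gcongr
    _ = (Fintype.card Ω : ℝ) ^ m * (3 ^ m * Real.exp (-(s * m / 90000))) * Fintype.card d := by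
        rw [mul_pow]; ring

end small

end Pool.Agent.Helper15.An
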