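import Mathlib

/-! Spectral tools for Hermitian complex matrices: exponentials and traces. -/

namespace Pool.Agent.Helper15.An

open Matrix
open scoped ComplexOrder

variable {d : Type} [Fintype d] [DecidableEq d]

/-- spectral decomposition with an explicit unitary matrix -/
theorem spec_decomp {A : Matrix d d ℂ} (hA : A.IsHermitian) :
    A = (hA.eigenvectorUnitary : Matrix d d ℂ) *
        diagonal (fun i => ((hA.eigenvalues i : ℝ) : ℂ)) *
        (hA.eigenvectorUnitary : Matrix d d ℂ)ᴴ := by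
  conv_lhs => rw [hA.spectral_theorem]
  rw [Unitary.conjStarAlgAut_apply]
  rfl

theorem unitary_mul_conj (U : Matrix.unitaryGroup d ℂ) :
    (U : Matrix d d ℂ) * (U : Matrix d d ℂ)ᴴ = 1 := by
  have := U.2
  rw [Matrix.mem_unitaryGroup_iff] at this
  exact this

theorem unitary_conj_mul (U : Matrix.unitaryGroup d ℂ) :
    (U : Matrix d d ℂ)ᴴ * (U : Matrix d d ℂ) = 1 := by
  have := U.2
  rw [Matrix.mem_unitaryGroup_iff'] at this
  exact this

theorem exp_unitary_conj (U : Matrix.unitaryGroup d ℂ) (D : Matrix d d ℂ) :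
    NormedSpace.exp ((U : Matrix d d ℂ) * D * (U : Matrix d d ℂ)ᴴ) =
      (U : Matrix d d ℂ) * NormedSpace.exp D * (U : Matrix d d ℂ)ᴴ := by
  let V : (Matrix d d ℂ)ˣ := ⟨U, (U : Matrix d d ℂ)ᴴ, unitary_mul_conj U, unitary_conj_mul U⟩
  exact Matrix.exp_units_conj V D

/-- `exp (s A)` in spectral form -/
theorem exp_smul_spec {A : Matrix d d ℂ} (hA : A.IsHermitian) (s : ℝ) :
    NormedSpace.exp (s • A) = (hA.eigenvectorUnitary : Matrix d d ℂ) *
        diagonal (fun i => ((Real.exp (s * hA.eigenvalues i) : ℝ) : ℂ)) *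
        (hA.eigenvectorUnitary : Matrix d d ℂ)ᴴ := by
  have h1 : s • A = (hA.eigenvectorUnitary : Matrix d d ℂ) *
        diagonal (fun i => (((s * hA.eigenvalues i : ℝ)) : ℂ)) *
        (hA.eigenvectorUnitary : Matrix d d ℂ)ᴴ := by
    conv_lhs => rw [spec_decomp hA]
    rw [← Matrix.smul_mul, ← Matrix.mul_smul]
    congr 2
    ext i j
    by_cases hij : i = j
    · subst hij; simp
    · simp [hij]
  rw [h1, exp_unitary_conj, Matrix.exp_diagonal]
  congr 2
  ext i
  simp [Complex.exp_eq_exp_ℂ, Pi.exp_def]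

theorem exp_spec {A : Matrix d d ℂ} (hA : A.IsHermitian) :
    NormedSpace.exp A = (hA.eigenvectorUnitary : Matrix d d ℂ) *
        diagonal (fun i => ((Real.exp (hA.eigenvalues i) : ℝ) : ℂ)) *
        (hA.eigenvectorUnitary : Matrix d d ℂ)ᴴ := by
  have := exp_smul_spec hA 1
  simpa using this

theorem trace_exp {A : Matrix d d ℂ} (hA : A.IsHermitian) :
    (trace (NormedSpace.exp A)).re = ∑ i, Real.exp (hA.eigenvalues i) := by
  rw [exp_spec hA, Matrix.trace_mul_comm, ← Matrix.mul_assoc, unitary_conj_mul, Matrix.one_mul,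
    Matrix.trace_diagonal]
  rw [← Complex.ofReal_sum, Complex.ofReal_re]

theorem trace_exp_smul {A : Matrix d d ℂ} (hA : A.IsHermitian) (s : ℝ) :
    (trace (NormedSpace.exp (s • A))).re = ∑ i, Real.exp (s * hA.eigenvalues i) := by
  rw [exp_smul_spec hA, Matrix.trace_mul_comm, ← Matrix.mul_assoc, unitary_conj_mul,
    Matrix.one_mul, Matrix.trace_diagonal]
  rw [← Complex.ofReal_sum, Complex.ofReal_re]

theorem affine_spec {A : Matrix d d ℂ} (hA : A.IsHermitian) (a b : ℝ) :
    a • (1 : Matrix d d ℂ) + b • A = (hA.eigenvectorUnitary : Matrix d d ℂ) *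
        diagonal (fun i => ((a + b * hA.eigenvalues i : ℝ) : ℂ)) *
        (hA.eigenvectorUnitary : Matrix d d ℂ)ᴴ := by
  have h2 : a • (1 : Matrix d d ℂ) = (hA.eigenvectorUnitary : Matrix d d ℂ) *
      diagonal (fun _ => (a : ℂ)) * (hA.eigenvectorUnitary : Matrix d d ℂ)ᴴ := by
    have : (diagonal (fun _ => (a : ℂ)) : Matrix d d ℂ) = a • (1 : Matrix d d ℂ) := by
      ext i j
      by_cases hij : i = j
      · subst hij; simp
      · simp [hij]
    rw [this, Matrix.mul_smul, Matrix.smul_mul, Matrix.mul_one, unitary_mul_conj]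
  have h3 : b • A = (hA.eigenvectorUnitary : Matrix d d ℂ) *
      diagonal (fun i => (((b * hA.eigenvalues i : ℝ)) : ℂ)) *
      (hA.eigenvectorUnitary : Matrix d d ℂ)ᴴ := by
    conv_lhs => rw [spec_decomp hA]
    rw [← Matrix.smul_mul, ← Matrix.mul_smul]
    congr 2
    ext i j
    by_cases hij : i = j
    · subst hij; simp
    · simp [hij]
  rw [h2, h3, ← Matrix.add_mul, ← Matrix.mul_add, diagonal_add]
  congr 3
  ext i
  push_cast
  ring

/-- positivity from eigenvalue bounds -/
theorem posSemidef_affine {A : Matrix d d ℂ} (hA : A.IsHermitian) (a b : ℝ)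
    (h : ∀ i, 0 ≤ a + b * hA.eigenvalues i) : (a • (1 : Matrix d d ℂ) + b • A).PosSemidef := by
  rw [affine_spec hA]
  refine PosSemidef.mul_mul_conjTranspose_same (PosSemidef.diagonal ?_) _
  intro i
  simp only [Pi.zero_apply]
  exact_mod_cast h i

theorem posSemidef_of_eigenvalues_le {A : Matrix d d ℂ} (hA : A.IsHermitian) (c : ℝ)
    (h : ∀ i, hA.eigenvalues i ≤ c) : (c • (1 : Matrix d d ℂ) - A).PosSemidef := by
  have := posSemidef_affine hA c (-1) (fun i => by linarith [h i])
  simpa [sub_eq_add_neg] using this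

theorem posSemidef_of_le_eigenvalues {A : Matrix d d ℂ} (hA : A.IsHermitian) (c : ℝ)
    (h : ∀ i, c ≤ hA.eigenvalues i) : (A - c • (1 : Matrix d d ℂ)).PosSemidef := by
  have := posSemidef_affine hA (-c) 1 (fun i => by linarith [h i])
  convert this using 1
  rw [one_smul, neg_smul]
  abel

theorem exp_posSemidef {A : Matrix d d ℂ} (hA : A.IsHermitian) :
    (NormedSpace.exp A).PosSemidef := by
  rw [exp_spec hA]
  refine PosSemidef.mul_mul_conjTranspose_same (PosSemidef.diagonal ?_) _
  intro i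
  simp only [Pi.zero_apply]
  exact_mod_cast (Real.exp_pos _).le

/-- number of eigenvalues above a threshold -/
theorem card_mul_exp_le {A : Matrix d d ℂ} (hA : A.IsHermitian) (θ : ℝ) :
    ((Finset.univ.filter (fun i => θ ≤ hA.eigenvalues i)).card : ℝ) * Real.exp θ ≤
      (trace (NormedSpace.exp A)).re := by
  rw [trace_exp hA, ← nsmul_eq_mul, ← Finset.sum_const]
  refine (Finset.sum_le_sum fun i hi => ?_).trans
    (Finset.sum_le_sum_of_subset_of_nonneg (Finset.filter_subset _ _)
      (fun i _ _ => (Real.exp_pos _).le))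
  exact Real.exp_le_exp.2 (Finset.mem_filter.1 hi).2

/-- scalar inequality on the eigenvalues gives an operator inequality -/
theorem affine_sub_exp {A : Matrix d d ℂ} (hA : A.IsHermitian) (s a b : ℝ)
    (h : ∀ i, Real.exp (s * hA.eigenvalues i) ≤ a + b * hA.eigenvalues i) :
    (a • (1 : Matrix d d ℂ) + b • A - NormedSpace.exp (s • A)).PosSemidef := by
  have h1 : a • (1 : Matrix d d ℂ) + b • A - NormedSpace.exp (s • A) =
      (hA.eigenvectorUnitary : Matrix d d ℂ) *
        diagonal (fun i => ((a + b * hA.eigenvalues i - Real.exp (s * hA.eigenvalues i) : ℝ) : ℂ)) *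
        (hA.eigenvectorUnitary : Matrix d d ℂ)ᴴ := by
    have h2 : a • (1 : Matrix d d ℂ) = (hA.eigenvectorUnitary : Matrix d d ℂ) *
        diagonal (fun _ => (a : ℂ)) * (hA.eigenvectorUnitary : Matrix d d ℂ)ᴴ := by
      have : (diagonal (fun _ => (a : ℂ)) : Matrix d d ℂ) = a • (1 : Matrix d d ℂ) := by
        ext i j
        by_cases hij : i = j
        · subst hij; simp
        · simp [hij]
      rw [this, Matrix.mul_smul, Matrix.smul_mul, Matrix.mul_one, unitary_mul_conj]
    have h3 : b • A = (hA.eigenvectorUnitary : Matrix d d ℂ) *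
        diagonal (fun i => (((b * hA.eigenvalues i : ℝ)) : ℂ)) *
        (hA.eigenvectorUnitary : Matrix d d ℂ)ᴴ := by
      conv_lhs => rw [spec_decomp hA]
      rw [← Matrix.smul_mul, ← Matrix.mul_smul]
      congr 2
      ext i j
      by_cases hij : i = j
      · subst hij; simp
      · simp [hij]
    rw [h2, h3, exp_smul_spec hA s, ← Matrix.add_mul, ← Matrix.sub_mul, ← Matrix.mul_add,
      ← Matrix.mul_sub, diagonal_add, diagonal_sub]
    congr 3
    ext i
    push_cast
    ring
  rw [h1]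
  refine PosSemidef.mul_mul_conjTranspose_same (PosSemidef.diagonal ?_) _
  intro i
  simp only [Pi.zero_apply]
  exact_mod_cast (sub_nonneg.2 (h i))

/-- trace of a product of positive semidefinite matrices is nonnegative -/
theorem trace_mul_nonneg {P Q : Matrix d d ℂ} (hP : P.PosSemidef) (hQ : Q.PosSemidef) :
    0 ≤ (trace (P * Q)).re := by
  have hP' := spec_decomp hP.isHermitian
  set U := (hP.isHermitian.eigenvectorUnitary : Matrix d d ℂ) with hU
  have h1 : trace (P * Q) = ∑ i, ((hP.isHermitian.eigenvalues i : ℝ) : ℂ) * (Uᴴ * Q * U) i i := by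
    conv_lhs => rw [hP']
    rw [Matrix.mul_assoc, Matrix.mul_assoc, Matrix.trace_mul_comm, Matrix.mul_assoc]
    rw [Matrix.trace]
    refine Finset.sum_congr rfl fun i _ => ?_
    rw [Matrix.diag_apply, Matrix.diagonal_mul]
  rw [h1, Complex.re_sum]
  refine Finset.sum_nonneg fun i _ => ?_
  have h2 : 0 ≤ (Uᴴ * Q * U) i i := (hQ.conjTranspose_mul_mul_same U).diag_nonneg
  have h3 : 0 ≤ hP.isHermitian.eigenvalues i := hP.eigenvalues_nonneg i
  rw [Complex.re_ofReal_mul]
  exact mul_nonneg h3 (Complex.nonneg_iff.1 h2).1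

theorem trace_mul_mono {P Q R : Matrix d d ℂ} (hP : P.PosSemidef) (h : (R - Q).PosSemidef) :
    (trace (P * Q)).re ≤ (trace (P * R)).re := by
  have := trace_mul_nonneg hP h
  rw [Matrix.mul_sub, Matrix.trace_sub, Complex.sub_re] at this
  linarith

end Pool.Agent.Helper15.An
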