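import Pool.Agent.Helper15.An.Fam
import Pool.Agent.Helper15.An.Count

/-! The even stabilizers of initial segments and the fixed point bound. -/

set_option linter.unusedSectionVars false

namespace Pool.Agent.Helper15.An

open Matrix Equiv
open scoped ComplexOrder

variable {n : ℕ}

/-- even permutations fixing the first `r` points -/
def stab (n r : ℕ) : Subgroup (Perm (Fin n)) where
  carrier := {σ | Perm.sign σ = 1 ∧ ∀ j : Fin n, j.val < r → σ j = j}
  mul_mem' := by
    rintro a b ⟨ha, ha'⟩ ⟨hb, hb'⟩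
    refine ⟨by rw [map_mul, ha, hb, mul_one], fun j hj => ?_⟩
    rw [Perm.mul_apply, hb' j hj, ha' j hj]
  one_mem' := ⟨Perm.sign_one, fun j _ => rfl⟩
  inv_mem' := by
    rintro a ⟨ha, ha'⟩
    refine ⟨by rw [Perm.sign_inv, ha], fun j hj => ?_⟩
    rw [Perm.inv_eq_iff_eq, ha' j hj]

theorem mem_stab {r : ℕ} {σ : Perm (Fin n)} :
    σ ∈ stab n r ↔ Perm.sign σ = 1 ∧ ∀ j : Fin n, j.val < r → σ j = j := Iff.rfl

noncomputable instance (r : ℕ) : Fintype (stab n r) := Fintype.ofFinite _

theorem stab_anti {r s : ℕ} (h : r ≤ s) : stab n s ≤ stab n r := by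
  intro σ hσ
  rw [mem_stab] at hσ ⊢
  exact ⟨hσ.1, fun j hj => hσ.2 j (lt_of_lt_of_le hj h)⟩

theorem card_stab_eq (r : ℕ) : Fintype.card (stab n r) =
    ((fixI n r).filter fun σ => Perm.sign σ = 1).card := by
  classical
  rw [← Fintype.card_coe]
  refine Fintype.card_congr (Equiv.subtypeEquivRight fun σ => ?_)
  simp only [fixI, Finset.mem_filter, Finset.mem_univ, true_and, mem_stab]
  exact and_comm

theorem card_stab_le (r : ℕ) : Fintype.card (stab n r) ≤ (fixI n r).card := by
  rw [card_stab_eq]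
  exact Finset.card_filter_le _ _

theorem fixI_le_card_stab (r : ℕ) : (fixI n r).card ≤ 2 * Fintype.card (stab n r) := by
  classical
  rw [card_stab_eq, ← Finset.card_filter_add_card_filter_not (s := fixI n r)
    (fun σ => Perm.sign σ = 1), two_mul]
  refine Nat.add_le_add_left ?_ _
  rcases Finset.eq_empty_or_nonempty ((fixI n r).filter fun σ => ¬ Perm.sign σ = 1) with h | h
  · rw [h]; simp
  · obtain ⟨τ, hτ⟩ := h
    have hτ1 : Perm.sign τ = -1 := by
      rcases Int.units_eq_one_or (Perm.sign τ) with h1 | h1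
      · exact absurd h1 (Finset.mem_filter.1 hτ).2
      · exact h1
    have hτ2 : ∀ j : Fin n, j.val < r → τ j = j := by
      have := (Finset.mem_filter.1 hτ).1
      simpa [fixI] using this
    refine Finset.card_le_card_of_injOn (fun σ => σ * τ) ?_ ?_
    · intro σ hσ
      simp only [fixI, Finset.coe_filter, Finset.mem_filter, Finset.mem_univ, true_and,
        Set.mem_ofPred_eq] at hσ ⊢
      obtain ⟨h1, h2⟩ := hσ
      refine ⟨fun j hj => ?_, ?_⟩
      · rw [Perm.mul_apply, hτ2 j hj, h1 j hj]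
      · rw [map_mul, hτ1]
        rcases Int.units_eq_one_or (Perm.sign σ) with h3 | h3
        · exact absurd h3 h2
        · rw [h3]; rfl
    · intro a _ b _ hab
      exact mul_right_cancel hab

theorem factorial_le_stab (r : ℕ) (hr : r ≤ n) :
    n.factorial ≤ 2 * n ^ r * Fintype.card (stab n r) := by
  calc n.factorial ≤ n ^ r * (fixI n r).card := factorial_le_fixI r hr
    _ ≤ n ^ r * (2 * Fintype.card (stab n r)) := Nat.mul_le_mul_left _ (fixI_le_card_stab r)
    _ = 2 * n ^ r * Fintype.card (stab n r) := by ring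

theorem index_stab_le (r : ℕ) (hr : r ≤ n) :
    (Fintype.card (Perm (Fin n)) : ℝ) / Fintype.card (stab n r) ≤ 2 * (n : ℝ) ^ r := by
  rw [div_le_iff₀ (card_pos' (stab n r)), Fintype.card_perm, Fintype.card_fin]
  exact_mod_cast factorial_le_stab r hr

theorem sum_stab_eq (r : ℕ) (g : Perm (Fin n)) (hg : Perm.sign g = 1) :
    ∑ h : stab n r, ((Finset.univ.filter
      (fun x : Perm (Fin n) => g * x * (h : Perm (Fin n)) = x)).card : ℝ) =
    (intoS (Finset.univ.filter fun x : Fin n => g x = x) r).card := by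
  classical
  simp_rw [Finset.card_filter]
  push_cast
  rw [Finset.sum_comm]
  rw [intoS, Finset.card_filter]
  push_cast
  refine Finset.sum_congr rfl fun x _ => ?_
  have hcand : ∀ h : Perm (Fin n), g * x * h = x ↔ h = x⁻¹ * g⁻¹ * x := by
    intro h
    constructor
    · intro hh
      have h1 : h = (g * x)⁻¹ * x := eq_inv_mul_of_mul_eq hh
      rw [h1, _root_.mul_inv_rev]
    · intro hh
      rw [hh]
      group
  by_cases hx : ∀ j : Fin n, j.val < r → g (x j) = x j
  · rw [if_pos (by simpa using hx)]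
    have hmem : x⁻¹ * g⁻¹ * x ∈ stab n r := by
      rw [mem_stab]
      refine ⟨?_, fun j hj => ?_⟩
      · rw [map_mul, map_mul, Perm.sign_inv, Perm.sign_inv, hg, mul_one, Int.units_mul_self]
      · rw [Perm.mul_apply, Perm.mul_apply, Perm.inv_eq_iff_eq, Perm.inv_eq_iff_eq]
        exact (hx j hj).symm
    rw [Fintype.sum_eq_single (⟨x⁻¹ * g⁻¹ * x, hmem⟩ : stab n r)]
    · rw [if_pos]
      exact (hcand _).2 rfl
    · intro h hne
      rw [if_neg]
      intro hh
      exact hne (Subtype.ext ((hcand _).1 hh))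
  · rw [if_neg (by simpa using hx)]
    refine Finset.sum_eq_zero fun h _ => ?_
    rw [if_neg]
    intro hh
    apply hx
    have h1 := (hcand _).1 hh
    intro j hj
    have h2 := h.2.2 j hj
    rw [h1, Perm.mul_apply, Perm.mul_apply, Perm.inv_eq_iff_eq, Perm.inv_eq_iff_eq] at h2
    exact h2.symm

/-- the even permutations -/
abbrev Alt (n : ℕ) : Subgroup (Perm (Fin n)) := alternatingGroup (Fin n)

theorem mem_Alt {g : Perm (Fin n)} : g ∈ Alt n ↔ Perm.sign g = 1 := Perm.mem_alternatingGroup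

theorem card_Alt (hn : 2 ≤ n) : Fintype.card (Perm (Fin n)) = 2 * Fintype.card (Alt n) := by
  have : Nontrivial (Fin n) := Fin.nontrivial_iff_two_le.2 hn
  exact (two_mul_card_alternatingGroup (α := Fin n)).symm

/-- probability of many fixed points -/
theorem fix_prob (F : PW (Perm (Fin n))) (hn : 2 ≤ n) (r : ℕ) (hr : 20 * r ≤ n)
    (κ : Perm (Fin n) → ℝ) (h0 : ∀ g, 0 ≤ κ g)
    (h1 : ∑ g, κ g = 1) (h2 : ∀ g, g ∉ Alt n → κ g = 0) (δ : ℝ) (hδ : 0 ≤ δ)
    (hlev : ∀ i, ¬ Triv (F.ρ i) (Alt n) → HasFix (F.ρ i) (stab n r) →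
      (trace (wop (F.ρ i) κ)).re ≤ δ * F.D i) :
    ∑ g ∈ Finset.univ.filter (fun g : Perm (Fin n) => n ≤ 10 * fixc g), κ g ≤
      20 ^ r * (2 * (2 / n) ^ r + δ) := by
  classical
  have hn' : (0 : ℝ) < n := by exact_mod_cast (by omega : 0 < n)
  have hB := stepB F (Alt n) (stab n r) κ h1 h2 δ hδ hlev
  have hfac : (0 : ℝ) < n.factorial := by exact_mod_cast Nat.factorial_pos n
  have hA : (0 : ℝ) < Fintype.card (Alt n) := card_pos' (Alt n)
  have hG : (Fintype.card (Perm (Fin n)) : ℝ) = n.factorial := by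
    rw [Fintype.card_perm, Fintype.card_fin]
  have hGA : (Fintype.card (Perm (Fin n)) : ℝ) / Fintype.card (Alt n) = 2 := by
    rw [card_Alt hn]
    push_cast
    field_simp
  rw [hGA, hG] at hB
  have hlow : (∑ g ∈ Finset.univ.filter (fun g : Perm (Fin n) => n ≤ 10 * fixc g), κ g) *
      ((n.factorial : ℝ) * (1 / 20) ^ r) ≤
      ∑ g, κ g * (∑ h : stab n r,
        ((Finset.univ.filter (fun x : Perm (Fin n) => g * x * (h : Perm (Fin n)) = x)).card : ℝ)) := by
    rw [Finset.sum_mul]
    refine (Finset.sum_le_sum fun g hg => ?_).trans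
      (Finset.sum_le_sum_of_subset_of_nonneg (Finset.filter_subset _ _) fun g _ _ => ?_)
    · by_cases hgA : g ∈ Alt n
      · rw [sum_stab_eq r g (mem_Alt.1 hgA)]
        exact mul_le_mul_of_nonneg_left
          (le_intoS _ (Finset.mem_filter.1 hg).2 r hr) (h0 g)
      · rw [h2 g hgA]; simp
    · exact mul_nonneg (h0 g) (Finset.sum_nonneg fun h _ => Nat.cast_nonneg _)
  have hst : (Fintype.card (stab n r) : ℝ) ≤ n.factorial * (2 / n) ^ r := by
    refine le_trans ?_ (fixI_le r (by omega) (by omega))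
    exact_mod_cast card_stab_le r
  have h3 := hlow.trans hB
  have h4 : (∑ g ∈ Finset.univ.filter (fun g : Perm (Fin n) => n ≤ 10 * fixc g), κ g) *
      (1 / 20) ^ r * n.factorial ≤ (2 * (2 / n) ^ r + δ) * n.factorial := by
    calc _ = (∑ g ∈ Finset.univ.filter (fun g : Perm (Fin n) => n ≤ 10 * fixc g), κ g) *
          ((n.factorial : ℝ) * (1 / 20) ^ r) := by ring
      _ ≤ _ := h3
      _ ≤ (n.factorial * (2 / n) ^ r) * 2 + δ * n.factorial := by gcongr
      _ = _ := by ring
  have h5 := le_of_mul_le_mul_right h4 hfac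
  have h6 : (0 : ℝ) < (1 / 20) ^ r := by positivity
  calc (∑ g ∈ Finset.univ.filter (fun g : Perm (Fin n) => n ≤ 10 * fixc g), κ g) =
        20 ^ r * ((∑ g ∈ Finset.univ.filter (fun g : Perm (Fin n) => n ≤ 10 * fixc g), κ g) *
      (1 / 20) ^ r) := by
        rw [one_div, inv_pow]; field_simp
    _ ≤ 20 ^ r * (2 * (2 / n) ^ r + δ) := by gcongr

end Pool.Agent.Helper15.An
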