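import Pool.Agent.Helper15.An.Chern

/-! One stage: near-invariant subspace of a Hermitian contraction against fresh random unitaries. -/

set_option linter.unusedSectionVars false

namespace Pool.Agent.Helper15.An

open Matrix
open scoped ComplexOrder

section vec
variable {d e : Type} [Fintype d] [DecidableEq d] [Fintype e] [DecidableEq e]

/-- squared norm of a complex vector -/
noncomputable def nrm2 (v : d → ℂ) : ℝ := ∑ i, ‖v i‖ ^ 2

/-- real part of the quadratic form -/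
noncomputable def qf (M : Matrix d d ℂ) (v : d → ℂ) : ℝ := (star v ⬝ᵥ (M *ᵥ v)).re

theorem nrm2_nonneg (v : d → ℂ) : 0 ≤ nrm2 v := Finset.sum_nonneg fun i _ => by positivity

theorem nrm2_eq (v : d → ℂ) : nrm2 v = (star v ⬝ᵥ v).re := by
  unfold nrm2 dotProduct
  rw [Complex.re_sum]
  refine Finset.sum_congr rfl fun i _ => ?_
  rw [Pi.star_apply, Complex.star_def, ← Complex.normSq_eq_conj_mul_self, Complex.ofReal_re,
    Complex.normSq_eq_norm_sq]

theorem star_dot_self (v : d → ℂ) : star v ⬝ᵥ v = (nrm2 v : ℂ) := by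
  unfold nrm2 dotProduct
  rw [Complex.ofReal_sum]
  refine Finset.sum_congr rfl fun i _ => ?_
  rw [Pi.star_apply, Complex.star_def, ← Complex.normSq_eq_conj_mul_self,
    Complex.normSq_eq_norm_sq]

theorem nrm2_add3 (p q r : d → ℂ) : nrm2 (p + q + r) ≤ 3 * (nrm2 p + nrm2 q + nrm2 r) := by
  unfold nrm2
  rw [← Finset.sum_add_distrib, ← Finset.sum_add_distrib, Finset.mul_sum]
  refine Finset.sum_le_sum fun i _ => ?_
  have h : ‖(p + q + r) i‖ ≤ ‖p i‖ + ‖q i‖ + ‖r i‖ := by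
    simp only [Pi.add_apply]
    exact (norm_add_le _ _).trans (by gcongr; exact norm_add_le _ _)
  have h0 : 0 ≤ ‖(p + q + r) i‖ := norm_nonneg _
  have h1 : ‖(p + q + r) i‖ ^ 2 ≤ (‖p i‖ + ‖q i‖ + ‖r i‖) ^ 2 := by gcongr
  nlinarith [sq_nonneg (‖p i‖ - ‖q i‖), sq_nonneg (‖p i‖ - ‖r i‖), sq_nonneg (‖q i‖ - ‖r i‖)]

theorem star_mulVec_dot (A : Matrix e d ℂ) (v w : d → ℂ) :
    star (A *ᵥ v) ⬝ᵥ (A *ᵥ w) = star v ⬝ᵥ ((Aᴴ * A) *ᵥ w) := by
  rw [star_mulVec, ← Matrix.dotProduct_mulVec, Matrix.mulVec_mulVec]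

theorem nrm2_mulVec (A : Matrix e d ℂ) (v : d → ℂ) : nrm2 (A *ᵥ v) = qf (Aᴴ * A) v := by
  rw [nrm2_eq, star_mulVec_dot]; rfl

theorem nrm2_unitary {x : Matrix d d ℂ} (hx : xᴴ * x = 1) (v : d → ℂ) :
    nrm2 (x *ᵥ v) = nrm2 v := by
  rw [nrm2_mulVec, hx, qf, Matrix.one_mulVec, nrm2_eq]

theorem qf_sub (M N : Matrix d d ℂ) (v : d → ℂ) : qf (M - N) v = qf M v - qf N v := by
  unfold qf; rw [Matrix.sub_mulVec, dotProduct_sub, Complex.sub_re]

theorem qf_add (M N : Matrix d d ℂ) (v : d → ℂ) : qf (M + N) v = qf M v + qf N v := by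
  unfold qf; rw [Matrix.add_mulVec, dotProduct_add, Complex.add_re]

theorem qf_sum {ι : Type} (s : Finset ι) (M : ι → Matrix d d ℂ) (v : d → ℂ) :
    qf (∑ i ∈ s, M i) v = ∑ i ∈ s, qf (M i) v := by
  classical
  induction s using Finset.induction_on with
  | empty => simp [qf]
  | insert a s ha ih => rw [Finset.sum_insert ha, Finset.sum_insert ha, qf_add, ih]

theorem qf_smul (c : ℝ) (M : Matrix d d ℂ) (v : d → ℂ) : qf (c • M) v = c * qf M v := by
  unfold qf; rw [Matrix.smul_mulVec, dotProduct_smul]; simp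

theorem qf_one (v : d → ℂ) : qf (1 : Matrix d d ℂ) v = nrm2 v := by
  unfold qf; rw [Matrix.one_mulVec, nrm2_eq]

theorem qf_nonneg {M : Matrix d d ℂ} (hM : M.PosSemidef) (v : d → ℂ) : 0 ≤ qf M v :=
  (Complex.nonneg_iff.1 ((Matrix.posSemidef_iff_dotProduct_mulVec.1 hM).2 v)).1

theorem posSemidef_of_qf {M : Matrix d d ℂ} (hM : M.IsHermitian) (h : ∀ v, 0 ≤ qf M v) :
    M.PosSemidef := by
  refine Matrix.posSemidef_iff_dotProduct_mulVec.2 ⟨hM, fun v => ?_⟩
  refine Complex.nonneg_iff.2 ⟨h v, ?_⟩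
  -- the quadratic form of a Hermitian matrix is real
  have h1 : star (star v ⬝ᵥ (M *ᵥ v)) = star v ⬝ᵥ (M *ᵥ v) := by
    rw [← star_dotProduct, star_mulVec, hM.eq, ← dotProduct_mulVec]
  have h2 := congrArg Complex.im h1
  rw [Complex.star_def, Complex.conj_im] at h2
  linarith

theorem qf_conjTranspose (M : Matrix d d ℂ) (v : d → ℂ) : qf Mᴴ v = qf M v := by
  unfold qf
  have h1 : star (star v ⬝ᵥ (M *ᵥ v)) = star v ⬝ᵥ (Mᴴ *ᵥ v) := by
    rw [← star_dotProduct, star_mulVec, ← dotProduct_mulVec]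
  rw [← h1, Complex.star_def, Complex.conj_re]

end vec

section iso
variable {d : Type} [Fintype d] [DecidableEq d] {T : Matrix d d ℂ}

/-- index set of the eigenvalues at least `θ` -/
abbrev TopIdx (hT : T.IsHermitian) (θ : ℝ) : Type := {i : d // θ ≤ hT.eigenvalues i}

noncomputable instance (hT : T.IsHermitian) (θ : ℝ) : Fintype (TopIdx hT θ) :=
  Fintype.ofFinite _

noncomputable instance (hT : T.IsHermitian) (θ : ℝ) : DecidableEq (TopIdx hT θ) :=
  Classical.decEq _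

/-- isometry onto the spectral subspace -/
noncomputable def topIso (hT : T.IsHermitian) (θ : ℝ) : Matrix d (TopIdx hT θ) ℂ :=
  (hT.eigenvectorUnitary : Matrix d d ℂ).submatrix id Subtype.val

theorem topIso_conj_mul (hT : T.IsHermitian) (θ : ℝ) :
    (topIso hT θ)ᴴ * topIso hT θ = 1 := by
  have h := unitary_conj_mul hT.eigenvectorUnitary
  ext i j
  have := congrFun (congrFun h i.1) j.1
  rw [Matrix.mul_apply] at this ⊢
  simp only [topIso, conjTranspose_apply, submatrix_apply, id_eq] at this ⊢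
  rw [this]
  by_cases hij : i = j
  · subst hij; simp
  · rw [Matrix.one_apply_ne hij, Matrix.one_apply_ne (fun h => hij (Subtype.ext h))]

theorem topIso_mul_conj (hT : T.IsHermitian) (θ : ℝ) :
    topIso hT θ * (topIso hT θ)ᴴ = (hT.eigenvectorUnitary : Matrix d d ℂ) *
      diagonal (fun i => (if θ ≤ hT.eigenvalues i then (1 : ℂ) else 0)) *
      (hT.eigenvectorUnitary : Matrix d d ℂ)ᴴ := by
  classical
  ext a b
  rw [Matrix.mul_apply, Matrix.mul_apply]
  simp only [topIso, conjTranspose_apply, submatrix_apply, id_eq, mul_diagonal]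
  have h := Finset.sum_subtype (Finset.univ.filter (fun i => θ ≤ hT.eigenvalues i))
    (p := fun i => θ ≤ hT.eigenvalues i) (F := inferInstanceAs (Fintype (TopIdx hT θ))) (by simp)
    (fun i => (hT.eigenvectorUnitary : Matrix d d ℂ) a i *
      star ((hT.eigenvectorUnitary : Matrix d d ℂ) b i))
  refine h.symm.trans ?_
  rw [Finset.sum_filter]
  refine Finset.sum_congr rfl fun i _ => ?_
  split_ifs <;> simp

/-- conjugating a diagonal matrix -/
theorem conj_diag_add (U : Matrix.unitaryGroup d ℂ) (f g : d → ℂ) :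
    (U : Matrix d d ℂ) * diagonal f * (U : Matrix d d ℂ)ᴴ +
      (U : Matrix d d ℂ) * diagonal g * (U : Matrix d d ℂ)ᴴ =
      (U : Matrix d d ℂ) * diagonal (f + g) * (U : Matrix d d ℂ)ᴴ := by
  rw [← Matrix.add_mul, ← Matrix.mul_add, diagonal_add]; rfl

theorem one_conj_diag (U : Matrix.unitaryGroup d ℂ) :
    (1 : Matrix d d ℂ) = (U : Matrix d d ℂ) * diagonal (fun _ => (1 : ℂ)) *
      (U : Matrix d d ℂ)ᴴ := by
  rw [diagonal_one, Matrix.mul_one, unitary_mul_conj]

theorem conj_diag_real (U : Matrix.unitaryGroup d ℂ) (lam ind : d → ℝ) (θ : ℝ) :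
    ((1 : ℝ) • (1 : Matrix d d ℂ) - (U : Matrix d d ℂ) * diagonal (fun i => ((lam i : ℝ) : ℂ)) *
        (U : Matrix d d ℂ)ᴴ) -
      (1 - θ) • ((1 : Matrix d d ℂ) - (U : Matrix d d ℂ) * diagonal (fun i => ((ind i : ℝ) : ℂ)) *
        (U : Matrix d d ℂ)ᴴ) =
    (U : Matrix d d ℂ) * diagonal (fun i => ((1 - lam i - (1 - θ) * (1 - ind i) : ℝ) : ℂ)) *
        (U : Matrix d d ℂ)ᴴ := by
  conv_lhs => rw [one_conj_diag U]
  rw [← Matrix.smul_mul, ← Matrix.mul_smul, ← Matrix.sub_mul, ← Matrix.mul_sub,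
    ← Matrix.sub_mul, ← Matrix.mul_sub, ← Matrix.smul_mul, ← Matrix.mul_smul,
    ← Matrix.sub_mul, ← Matrix.mul_sub]
  congr 2
  ext i j
  by_cases hij : i = j
  · subst hij
    simp only [Matrix.sub_apply, Matrix.smul_apply, diagonal_apply_eq]
    simp
  · simp [hij]

theorem topIso_mul_conj' (hT : T.IsHermitian) (θ : ℝ) :
    topIso hT θ * (topIso hT θ)ᴴ = (hT.eigenvectorUnitary : Matrix d d ℂ) *
      diagonal (fun i => ((if θ ≤ hT.eigenvalues i then (1 : ℝ) else 0 : ℝ) : ℂ)) *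
      (hT.eigenvectorUnitary : Matrix d d ℂ)ᴴ := by
  rw [topIso_mul_conj]
  congr 3
  ext i
  split_ifs <;> simp

/-- off the spectral subspace, `1 - T` is at least `1 - θ` -/
theorem gap_off_top (hT : T.IsHermitian) (hT1 : ((1 : ℝ) • (1 : Matrix d d ℂ) - T).PosSemidef)
    (θ : ℝ) :
    (((1 : ℝ) • (1 : Matrix d d ℂ) - T) -
      (1 - θ) • ((1 : Matrix d d ℂ) - topIso hT θ * (topIso hT θ)ᴴ)).PosSemidef := by
  have h1 : (((1 : ℝ) • (1 : Matrix d d ℂ) - T) -
      (1 - θ) • ((1 : Matrix d d ℂ) - topIso hT θ * (topIso hT θ)ᴴ)) =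
      (hT.eigenvectorUnitary : Matrix d d ℂ) *
      diagonal (fun i => ((1 - hT.eigenvalues i -
        (1 - θ) * (1 - if θ ≤ hT.eigenvalues i then 1 else 0) : ℝ) : ℂ)) *
      (hT.eigenvectorUnitary : Matrix d d ℂ)ᴴ := by
    rw [topIso_mul_conj']
    have h := conj_diag_real hT.eigenvectorUnitary hT.eigenvalues
      (fun i => if θ ≤ hT.eigenvalues i then (1 : ℝ) else 0) θ
    rw [← h, ← spec_decomp hT]
  rw [h1]
  refine PosSemidef.mul_mul_conjTranspose_same (PosSemidef.diagonal ?_) _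
  intro i
  simp only [Pi.zero_apply]
  have h2 := eigenvalues_le_of hT 1 hT1 i
  have h3 : 0 ≤ 1 - hT.eigenvalues i -
      (1 - θ) * (1 - if θ ≤ hT.eigenvalues i then 1 else 0) := by
    split_ifs with h
    · linarith
    · rw [not_le] at h
      linarith
  exact_mod_cast h3

theorem one_sub_topIso_posSemidef (hT : T.IsHermitian) (θ : ℝ) :
    ((1 : Matrix d d ℂ) - topIso hT θ * (topIso hT θ)ᴴ).PosSemidef := by
  have h1 : ((1 : Matrix d d ℂ) - topIso hT θ * (topIso hT θ)ᴴ) =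
      (hT.eigenvectorUnitary : Matrix d d ℂ) *
      diagonal (fun i => ((1 - if θ ≤ hT.eigenvalues i then 1 else 0 : ℝ) : ℂ)) *
      (hT.eigenvectorUnitary : Matrix d d ℂ)ᴴ := by
    rw [topIso_mul_conj']
    conv_lhs => rw [one_conj_diag hT.eigenvectorUnitary]
    rw [← Matrix.sub_mul, ← Matrix.mul_sub]
    congr 2
    ext i j
    by_cases hij : i = j
    · subst hij
      simp only [Matrix.sub_apply, diagonal_apply_eq]
      push_cast
      ring
    · simp [hij]
  rw [h1]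
  refine PosSemidef.mul_mul_conjTranspose_same (PosSemidef.diagonal ?_) _
  intro i
  simp only [Pi.zero_apply]
  have h3 : (0 : ℝ) ≤ (1 - if θ ≤ hT.eigenvalues i then 1 else 0) := by
    split_ifs <;> norm_num
  exact_mod_cast h3

theorem trace_topIso (hT : T.IsHermitian) (θ : ℝ) :
    trace (topIso hT θ * (topIso hT θ)ᴴ) = (Fintype.card (TopIdx hT θ) : ℂ) := by
  rw [Matrix.trace_mul_comm, topIso_conj_mul, Matrix.trace_one]

end iso

end Pool.Agent.Helper15.An
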