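import Pool.Agent.Helper15.An.Stage

/-! The stage theorem: energy argument and counting. -/

set_option linter.unusedSectionVars false

namespace Pool.Agent.Helper15.An

open Matrix
open scoped ComplexOrder

section energy
variable {d e : Type} [Fintype d] [DecidableEq d] [Fintype e] [DecidableEq e]

/-- average of the real parts of a family of matrices -/
noncomputable def avgRe {m : ℕ} (x : Fin m → Matrix d d ℂ) : Matrix d d ℂ :=
  ((2 * (m : ℝ))⁻¹) • ∑ l, (x l + (x l)ᴴ)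

theorem avgRe_isHermitian {m : ℕ} (x : Fin m → Matrix d d ℂ) : (avgRe x).IsHermitian := by
  unfold avgRe Matrix.IsHermitian
  rw [conjTranspose_smul, conjTranspose_sum]
  congr 1
  refine Finset.sum_congr rfl fun l _ => ?_
  rw [conjTranspose_add, conjTranspose_conjTranspose, add_comm]

theorem qf_avgRe {m : ℕ} (hm : 0 < m) (x : Fin m → Matrix d d ℂ) (v : d → ℂ) :
    (m : ℝ) * qf (avgRe x) v = ∑ l, qf (x l) v := by
  unfold avgRe
  rw [qf_smul, qf_sum]
  have : ∀ l, qf (x l + (x l)ᴴ) v = 2 * qf (x l) v := by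
    intro l
    rw [qf_add, qf_conjTranspose]; ring
  simp_rw [this]
  rw [← Finset.mul_sum]
  have hm' : (m : ℝ) ≠ 0 := by positivity
  field_simp

theorem nrm2_sub_unitary {x : Matrix d d ℂ} (hx : xᴴ * x = 1) (v : d → ℂ) :
    nrm2 (x *ᵥ v - v) = 2 * nrm2 v - 2 * qf x v := by
  have h1 : x *ᵥ v - v = (x - 1) *ᵥ v := by rw [Matrix.sub_mulVec, Matrix.one_mulVec]
  rw [h1, nrm2_mulVec]
  have h2 : (x - 1)ᴴ * (x - 1) = 1 - xᴴ - x + 1 := by
    rw [conjTranspose_sub, conjTranspose_one, Matrix.sub_mul, Matrix.mul_sub, hx]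
    simp only [Matrix.mul_one, Matrix.one_mul]
    abel
  rw [h2, qf_add, qf_sub, qf_sub, qf_conjTranspose, qf_one]
  ring

/-- `1 - J Jᴴ` as a projection: norm identity -/
theorem nrm2_proj {J : Matrix d e ℂ} (hJ : Jᴴ * J = 1) (z : d → ℂ) :
    nrm2 (((1 : Matrix d d ℂ) - J * Jᴴ) *ᵥ z) = nrm2 z - nrm2 (Jᴴ *ᵥ z) := by
  rw [nrm2_mulVec, nrm2_mulVec, ← qf_one z, ← qf_sub]
  congr 1
  rw [conjTranspose_sub, conjTranspose_one, conjTranspose_mul, conjTranspose_conjTranspose,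
    Matrix.sub_mul, Matrix.mul_sub, Matrix.mul_sub, Matrix.one_mul, Matrix.one_mul, Matrix.mul_one]
  have : J * Jᴴ * (J * Jᴴ) = J * Jᴴ := by
    rw [Matrix.mul_assoc, ← Matrix.mul_assoc Jᴴ, hJ, Matrix.one_mul]
  rw [this]
  abel

theorem nrm2_iso {J : Matrix d e ℂ} (hJ : Jᴴ * J = 1) (u : e → ℂ) :
    nrm2 (J *ᵥ u) = nrm2 u := by
  rw [nrm2_mulVec, hJ, qf_one]

/-- Energy argument. -/
theorem energy {J : Matrix d e ℂ} (hJ : Jᴴ * J = 1) {T : Matrix d d ℂ} (hT : T.IsHermitian)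
    (η : ℝ) (hη0 : 0 < η) (hη1 : η ≤ 1 / 8)
    (hgap : (((1 : ℝ) • (1 : Matrix d d ℂ) - T) - η • ((1 : Matrix d d ℂ) - J * Jᴴ)).PosSemidef)
    {m : ℕ} (hm : 0 < m) (x : Fin m → Matrix d d ℂ) (hx : ∀ l, (x l)ᴴ * x l = 1)
    (hS : (((m : ℝ) / 2) • (1 : Matrix e e ℂ) -
      ∑ l, (Jᴴ * x l * J)ᴴ * (Jᴴ * x l * J)).PosSemidef) :
    ((1 - η / 100) • (1 : Matrix d d ℂ) - (1 / 2 : ℝ) • (T + avgRe x)).PosSemidef := by
  have hH : ((1 - η / 100) • (1 : Matrix d d ℂ) - (1 / 2 : ℝ) • (T + avgRe x)).IsHermitian := by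
    unfold Matrix.IsHermitian
    rw [conjTranspose_sub, conjTranspose_smul, conjTranspose_smul, conjTranspose_add,
      (avgRe_isHermitian x).eq, hT.eq, conjTranspose_one]
    simp
  refine posSemidef_of_qf hH fun v => ?_
  set N := nrm2 v with hN
  have hN0 : 0 ≤ N := nrm2_nonneg v
  -- energies
  set e1 := N - qf T v with he1
  set e2 := N - qf (avgRe x) v with he2
  have hq : qf ((1 - η / 100) • (1 : Matrix d d ℂ) - (1 / 2 : ℝ) • (T + avgRe x)) v =
      (e1 + e2) / 2 - η / 100 * N := by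
    rw [qf_sub, qf_smul, qf_smul, qf_add, qf_one]
    rw [he1, he2]; ring
  rw [hq]
  by_contra hneg
  rw [not_le] at hneg
  set w := ((1 : Matrix d d ℂ) - J * Jᴴ) *ᵥ v with hw
  have hw0 : 0 ≤ nrm2 w := nrm2_nonneg w
  -- the quadratic form of the projection
  have hproj : qf ((1 : Matrix d d ℂ) - J * Jᴴ) v = nrm2 w := by
    rw [hw, nrm2_mulVec]
    congr 1
    rw [conjTranspose_sub, conjTranspose_one, conjTranspose_mul, conjTranspose_conjTranspose,
      Matrix.sub_mul, Matrix.mul_sub, Matrix.mul_sub, Matrix.one_mul, Matrix.one_mul,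
      Matrix.mul_one]
    have : J * Jᴴ * (J * Jᴴ) = J * Jᴴ := by
      rw [Matrix.mul_assoc, ← Matrix.mul_assoc Jᴴ, hJ, Matrix.one_mul]
    rw [this]
    abel
  have hgapv := qf_nonneg hgap v
  rw [qf_sub, qf_sub, qf_smul, qf_smul, qf_one, hproj, one_mul] at hgapv
  have hw1 : η * nrm2 w ≤ e1 := by rw [he1]; linarith
  -- second energy is nonnegative
  have hm' : (0 : ℝ) < m := by exact_mod_cast hm
  have hsum2 : ∑ l, nrm2 (x l *ᵥ v - v) = 2 * (m : ℝ) * e2 := by
    have : ∀ l, nrm2 (x l *ᵥ v - v) = 2 * N - 2 * qf (x l) v := fun l =>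
      nrm2_sub_unitary (hx l) v
    simp_rw [this]
    rw [Finset.sum_sub_distrib, ← Finset.mul_sum, ← Finset.mul_sum, ← qf_avgRe hm]
    simp only [Finset.sum_const, Finset.card_univ, Fintype.card_fin, nsmul_eq_mul]
    rw [he2]; ring
  have he2nn : 0 ≤ e2 := by
    have h1 : 0 ≤ ∑ l, nrm2 (x l *ᵥ v - v) := Finset.sum_nonneg fun l _ => nrm2_nonneg _
    rw [hsum2] at h1
    by_contra hc
    rw [not_le] at hc
    nlinarith
  have he1nn : 0 ≤ e1 := le_trans (mul_nonneg hη0.le hw0) hw1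
  have hb1 : e1 < η / 50 * N := by linarith
  have hb2 : e2 < η / 50 * N := by linarith
  have hw2 : nrm2 w ≤ N / 50 := by
    have : η * nrm2 w ≤ η * (N / 50) := by linarith
    exact le_of_mul_le_mul_left this hη0
  -- the part inside the spectral subspace
  set u0 := Jᴴ *ᵥ v with hu0
  have hu : nrm2 u0 = N - nrm2 w := by rw [hw, nrm2_proj hJ]; ring
  have hSv := qf_nonneg hS u0
  rw [qf_sub, qf_smul, qf_one, qf_sum] at hSv
  -- each term
  have hterm : ∀ l, nrm2 u0 - qf ((Jᴴ * x l * J)ᴴ * (Jᴴ * x l * J)) u0 ≤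
      3 * (nrm2 (x l *ᵥ v - v) + nrm2 w + nrm2 w) := by
    intro l
    have h1 : qf ((Jᴴ * x l * J)ᴴ * (Jᴴ * x l * J)) u0 = nrm2 (Jᴴ *ᵥ (x l *ᵥ (J *ᵥ u0))) := by
      rw [← nrm2_mulVec, ← Matrix.mulVec_mulVec, ← Matrix.mulVec_mulVec]
    have h2 : nrm2 u0 = nrm2 (x l *ᵥ (J *ᵥ u0)) := by
      rw [nrm2_unitary (hx l), nrm2_iso hJ]
    rw [h1, h2, ← nrm2_proj hJ]
    -- decomposition
    have h3 : J *ᵥ u0 = v - w := by
      rw [hw, hu0, Matrix.sub_mulVec, Matrix.one_mulVec, Matrix.mulVec_mulVec]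
      abel
    have h4 : ((1 : Matrix d d ℂ) - J * Jᴴ) *ᵥ (x l *ᵥ (J *ᵥ u0)) =
        ((1 : Matrix d d ℂ) - J * Jᴴ) *ᵥ (x l *ᵥ v - v) + w +
          ((1 : Matrix d d ℂ) - J * Jᴴ) *ᵥ (-(x l *ᵥ w)) := by
      rw [h3, Matrix.mulVec_sub, hw, ← Matrix.mulVec_add, ← Matrix.mulVec_add]
      congr 1
      abel
    rw [h4]
    refine (nrm2_add3 _ _ _).trans ?_
    have h5 : ∀ z, nrm2 (((1 : Matrix d d ℂ) - J * Jᴴ) *ᵥ z) ≤ nrm2 z := by
      intro z
      rw [nrm2_proj hJ]
      linarith [nrm2_nonneg (Jᴴ *ᵥ z)]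
    have h6 : nrm2 (-(x l *ᵥ w)) = nrm2 w := by
      have : nrm2 (-(x l *ᵥ w)) = nrm2 (x l *ᵥ w) := by
        unfold nrm2
        refine Finset.sum_congr rfl fun i _ => ?_
        rw [Pi.neg_apply, norm_neg]
      rw [this, nrm2_unitary (hx l)]
    have h7 := h5 (x l *ᵥ v - v)
    have h8 := h5 (-(x l *ᵥ w))
    rw [h6] at h8
    linarith
  have hsum := Finset.sum_le_sum fun l (_ : l ∈ (Finset.univ : Finset (Fin m))) => hterm l
  rw [Finset.sum_sub_distrib, ← Finset.mul_sum, Finset.sum_add_distrib, Finset.sum_add_distrib,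
    hsum2] at hsum
  simp only [Finset.sum_const, Finset.card_univ, Fintype.card_fin, nsmul_eq_mul] at hsum
  -- combine
  have hfin : (m : ℝ) / 2 * nrm2 u0 ≤ 6 * m * e2 + 6 * m * nrm2 w := by nlinarith
  rw [hu] at hfin
  have : (1 : ℝ) / 2 * (N - nrm2 w) ≤ 6 * e2 + 6 * nrm2 w := by
    have h9 : (m : ℝ) * (1 / 2 * (N - nrm2 w)) ≤ m * (6 * e2 + 6 * nrm2 w) := by linarith
    exact le_of_mul_le_mul_left h9 hm'
  have h10 : e2 ≤ N / 400 := by
    have : η / 50 * N ≤ (1 / 8) / 50 * N := by gcongr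
    linarith
  have hNpos : N ≤ 0 := by linarith
  have hN00 : N = 0 := le_antisymm hNpos hN0
  rw [hN00] at hb1
  linarith

end energy

section stage
variable {d : Type} [Fintype d] [DecidableEq d] {Ω : Type} [Fintype Ω] [Nonempty Ω]

/-- The stage theorem for one unitary family with a design property. -/
theorem stage (a : Ω → Matrix d d ℂ) (ha : ∀ ω, (a ω)ᴴ * a ω = 1) (hd : 0 < Fintype.card d)
    (hdes : ∀ M : Matrix d d ℂ, M.PosSemidef →
      ((2 * (Fintype.card Ω : ℝ) * (trace M).re / Fintype.card d) • (1 : Matrix d d ℂ) -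
        ∑ ω, (a ω)ᴴ * M * a ω).PosSemidef)
    {T : Matrix d d ℂ} (hT : T.IsHermitian)
    (hT1 : ((1 : ℝ) • (1 : Matrix d d ℂ) - T).PosSemidef)
    (η : ℝ) (hη0 : 0 < η) (hη1 : η ≤ 1 / 8) (y : ℝ) (hy0 : 0 < y) (hy1 : y ≤ 1)
    (hcard : (Fintype.card (TopIdx hT (1 - η)) : ℝ) ≤ y * Fintype.card d)
    (m : ℕ) (hm : 0 < m) :
    (Nat.card {ω : Fin m → Ω // ¬ ((1 - η / 100) • (1 : Matrix d d ℂ) -
        (1 / 2 : ℝ) • (T + avgRe fun l => a (ω l))).PosSemidef} : ℝ) ≤
      (Fintype.card Ω : ℝ) ^ m * (3 * Real.sqrt y) ^ m * Fintype.card d := by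
  classical
  set J := topIso hT (1 - η) with hJdef
  have hJ : Jᴴ * J = 1 := topIso_conj_mul hT (1 - η)
  set Y : Ω → Matrix (TopIdx hT (1 - η)) (TopIdx hT (1 - η)) ℂ :=
    fun ω => (Jᴴ * a ω * J)ᴴ * (Jᴴ * a ω * J) with hYdef
  have hYpsd : ∀ ω, (Y ω).PosSemidef := fun ω => posSemidef_conjTranspose_mul_self _
  have hYform : ∀ ω, Y ω = Jᴴ * ((a ω)ᴴ * (J * Jᴴ) * a ω) * J := by
    intro ω
    simp only [hYdef, conjTranspose_mul, conjTranspose_conjTranspose, Matrix.mul_assoc]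
  have hPpsd : (J * Jᴴ).PosSemidef := posSemidef_self_mul_conjTranspose _
  have hY1 : ∀ ω, ((1 : ℝ) • (1 : Matrix (TopIdx hT (1 - η)) (TopIdx hT (1 - η)) ℂ) -
      Y ω).PosSemidef := by
    intro ω
    have h1 := (one_sub_topIso_posSemidef hT (1 - η)).conjTranspose_mul_mul_same (a ω * J)
    rw [← hJdef] at h1
    convert h1 using 1
    rw [hYform, Matrix.mul_sub, Matrix.sub_mul, Matrix.mul_one, conjTranspose_mul]
    congr 1
    · rw [Matrix.mul_assoc Jᴴ, ← Matrix.mul_assoc (a ω)ᴴ, ha, Matrix.one_mul, hJ, one_smul]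
    · simp only [Matrix.mul_assoc]
  set c : ℝ := 2 * (Fintype.card (TopIdx hT (1 - η)) : ℝ) / Fintype.card d with hc
  have hd' : (0 : ℝ) < Fintype.card d := by exact_mod_cast hd
  have hc0 : 0 ≤ c := by positivity
  have hav : (((Fintype.card Ω : ℝ) * c) •
      (1 : Matrix (TopIdx hT (1 - η)) (TopIdx hT (1 - η)) ℂ) - ∑ ω, Y ω).PosSemidef := by
    have h1 := (hdes _ hPpsd).conjTranspose_mul_mul_same J
    convert h1 using 1
    rw [Matrix.mul_sub, Matrix.sub_mul, Matrix.mul_smul, Matrix.smul_mul, Matrix.mul_one, hJ,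
      Matrix.mul_sum, Matrix.sum_mul]
    congr 1
    · congr 1
      have h2 : (trace (J * Jᴴ)).re = (Fintype.card (TopIdx hT (1 - η)) : ℝ) := by
        rw [hJdef, trace_topIso]; simp
      rw [h2, hc]
      ring
    · exact Finset.sum_congr rfl fun ω _ => hYform ω
  set s : ℝ := Real.log (1 / y) with hs
  have hs0 : 0 ≤ s := Real.log_nonneg (by rw [le_div_iff₀ hy0]; linarith)
  have hes : Real.exp s = 1 / y := by rw [hs, Real.exp_log (by positivity)]
  have hch := psd_chernoff Y hYpsd hY1 c hc0 hav s hs0 m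
  -- the number of bad tuples
  have hS : ∀ ω : Fin m → Ω, (s • ∑ l, Y (ω l)).IsHermitian := by
    intro ω
    unfold Matrix.IsHermitian
    rw [conjTranspose_smul, conjTranspose_sum]
    simp only [star_trivial]
    congr 1
    exact Finset.sum_congr rfl fun l _ => (hYpsd _).isHermitian
  have hcy : c ≤ 2 * y := by
    rw [hc, div_le_iff₀ hd']
    linarith
  have hbase : 1 + (Real.exp s - 1) * c ≤ 3 := by
    rw [hes]
    have h1 : (1 / y - 1) * c ≤ (1 / y - 1) * (2 * y) := by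
      apply mul_le_mul_of_nonneg_left hcy
      rw [sub_nonneg, le_div_iff₀ hy0]; linarith
    have h2 : (1 / y - 1) * (2 * y) = 2 - 2 * y := by field_simp
    linarith
  have hbase0 : 0 ≤ 1 + (Real.exp s - 1) * c := by
    have : 0 ≤ Real.exp s - 1 := by
      have := Real.one_le_exp hs0
      linarith
    positivity
  -- bad tuples have a large eigenvalue
  have hbad : ∀ ω : Fin m → Ω, ¬ ((1 - η / 100) • (1 : Matrix d d ℂ) -
        (1 / 2 : ℝ) • (T + avgRe fun l => a (ω l))).PosSemidef →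
      Real.exp (s * ((m : ℝ) / 2)) ≤ (trace (NormedSpace.exp (s • ∑ l, Y (ω l)))).re := by
    intro ω hω
    set S := ∑ l, Y (ω l) with hSdef
    have hSH : S.IsHermitian := by
      unfold Matrix.IsHermitian
      rw [hSdef, conjTranspose_sum]
      exact Finset.sum_congr rfl fun l _ => (hYpsd _).isHermitian
    -- otherwise the energy argument applies
    have hex : ∃ i, (m : ℝ) / 2 ≤ hSH.eigenvalues i := by
      by_contra hno
      push Not at hno
      apply hω
      refine energy hJ hT η hη0 hη1 ?_ hm (fun l => a (ω l)) (fun l => ha _) ?_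
      · have := gap_off_top hT hT1 (1 - η)
        rw [← hJdef] at this
        convert this using 3
        ring
      · exact posSemidef_of_eigenvalues_le hSH _ fun i => (hno i).le
    obtain ⟨i, hi⟩ := hex
    rw [trace_exp_smul hSH]
    refine le_trans ?_ (Finset.single_le_sum (f := fun i => Real.exp (s * hSH.eigenvalues i))
      (fun i _ => (Real.exp_pos _).le) (Finset.mem_univ i))
    exact Real.exp_le_exp.2 (mul_le_mul_of_nonneg_left hi hs0)
  rw [Nat.card_eq_fintype_card, Fintype.card_subtype]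
  set B := Finset.univ.filter (fun ω : Fin m → Ω => ¬ ((1 - η / 100) • (1 : Matrix d d ℂ) -
        (1 / 2 : ℝ) • (T + avgRe fun l => a (ω l))).PosSemidef) with hB
  have hcount : (B.card : ℝ) * Real.exp (s * ((m : ℝ) / 2)) ≤
      ((Fintype.card Ω : ℝ) * (1 + (Real.exp s - 1) * c)) ^ m *
        Fintype.card (TopIdx hT (1 - η)) := by
    refine le_trans ?_ hch
    rw [← nsmul_eq_mul, ← Finset.sum_const]
    refine (Finset.sum_le_sum fun ω hω => hbad ω (Finset.mem_filter.1 hω).2).trans ?_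
    refine Finset.sum_le_sum_of_subset_of_nonneg (Finset.filter_subset _ _) fun ω _ _ => ?_
    have hSH : (∑ l, Y (ω l)).IsHermitian := by
      unfold Matrix.IsHermitian
      rw [conjTranspose_sum]
      exact Finset.sum_congr rfl fun l _ => (hYpsd _).isHermitian
    rw [trace_exp_smul hSH]
    exact Finset.sum_nonneg fun i _ => (Real.exp_pos _).le
  -- final estimate
  have hsy : Real.exp (s * ((m : ℝ) / 2)) * Real.sqrt y ^ m = 1 := by
    have h1 : Real.exp (s * ((m : ℝ) / 2)) = Real.exp (s / 2) ^ m := by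
      rw [← Real.exp_nat_mul]; congr 1; ring
    rw [h1, ← mul_pow]
    have h2 : Real.exp (s / 2) * Real.sqrt y = 1 := by
      have h3 : Real.exp (s / 2) = Real.sqrt (1 / y) := by
        rw [← hes, Real.exp_half]
      rw [h3, ← Real.sqrt_mul (by positivity)]
      rw [one_div, inv_mul_cancel₀ hy0.ne', Real.sqrt_one]
    rw [h2, one_pow]
  have hI : (Fintype.card (TopIdx hT (1 - η)) : ℝ) ≤ Fintype.card d := by
    refine hcard.trans ?_
    have : y * (Fintype.card d : ℝ) ≤ 1 * Fintype.card d := by gcongr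
    linarith
  calc (B.card : ℝ) = (B.card : ℝ) * Real.exp (s * ((m : ℝ) / 2)) * Real.sqrt y ^ m := by
        rw [mul_assoc, hsy, mul_one]
    _ ≤ (((Fintype.card Ω : ℝ) * (1 + (Real.exp s - 1) * c)) ^ m *
        Fintype.card (TopIdx hT (1 - η))) * Real.sqrt y ^ m := by gcongr
    _ ≤ (((Fintype.card Ω : ℝ) * 3) ^ m * Fintype.card d) * Real.sqrt y ^ m := by gcongr
    _ = (Fintype.card Ω : ℝ) ^ m * (3 * Real.sqrt y) ^ m * Fintype.card d := by
        rw [mul_pow, mul_pow]; ring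

end stage

end Pool.Agent.Helper15.An
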