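import Pool.Agent.Helper15.An.Good

/-! The stage step for the alternating group. -/

set_option linter.unusedSectionVars false

namespace Pool.Agent.Helper15.An

open Matrix Equiv
open scoped ComplexOrder

variable {n : ℕ}

/-- union bound over the representations -/
theorem union_bound (F : PW (Perm (Fin n))) {X : Type} [Fintype X] (p : ℕ) (hp : p ≤ n)
    (bad : Fin F.c → X → Prop) (B : ℝ) (hB : 0 ≤ B)
    (h : ∀ i, ¬ Triv (F.ρ i) (Alt n) → HasFix (F.ρ i) (stab n p) →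
      (Nat.card {x : X // bad i x} : ℝ) ≤ B * F.D i) :
    (Nat.card {x : X // ∃ i, ¬ Triv (F.ρ i) (Alt n) ∧ HasFix (F.ρ i) (stab n p) ∧ bad i x} : ℝ) ≤
      B * (2 * (n : ℝ) ^ p) := by
  classical
  set S : Finset (Fin F.c) := Finset.univ.filter fun i =>
    ¬ Triv (F.ρ i) (Alt n) ∧ HasFix (F.ρ i) (stab n p) with hS
  have h1 : (Nat.card {x : X // ∃ i, ¬ Triv (F.ρ i) (Alt n) ∧ HasFix (F.ρ i) (stab n p) ∧
      bad i x} : ℝ) ≤ ∑ i ∈ S, (Nat.card {x : X // bad i x} : ℝ) := by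
    rw [Nat.card_eq_fintype_card, Fintype.card_subtype]
    have h2 : (Finset.univ.filter fun x : X => ∃ i, ¬ Triv (F.ρ i) (Alt n) ∧
        HasFix (F.ρ i) (stab n p) ∧ bad i x) ⊆
        S.biUnion fun i => Finset.univ.filter fun x : X => bad i x := by
      intro x hx
      obtain ⟨i, h3, h4, h5⟩ := (Finset.mem_filter.1 hx).2
      rw [Finset.mem_biUnion]
      exact ⟨i, Finset.mem_filter.2 ⟨Finset.mem_univ i, h3, h4⟩,
        Finset.mem_filter.2 ⟨Finset.mem_univ x, h5⟩⟩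
    have h3 := (Finset.card_le_card h2).trans Finset.card_biUnion_le
    refine (Nat.cast_le.2 h3).trans ?_
    push_cast
    refine Finset.sum_le_sum fun i _ => ?_
    rw [Nat.card_eq_fintype_card, Fintype.card_subtype]
  refine h1.trans ?_
  have h2 : ∀ i ∈ S, (Nat.card {x : X // bad i x} : ℝ) ≤ B * F.D i := fun i hi =>
    h i (Finset.mem_filter.1 hi).2.1 (Finset.mem_filter.1 hi).2.2
  refine (Finset.sum_le_sum h2).trans ?_
  rw [← Finset.mul_sum]
  refine mul_le_mul_of_nonneg_left ?_ hB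
  refine (sum_dim_hasFix_le F (stab n p) S fun i hi => (Finset.mem_filter.1 hi).2.2).trans ?_
  exact index_stab_le p hp

/-- trace of a weight with few fixed points -/
theorem trace_wop_le {D : ℕ} (ρ : Perm (Fin n) →* Matrix (Fin D) (Fin D) ℂ)
    (hu : ∀ g, (ρ g)ᴴ * ρ g = 1) (κ : Perm (Fin n) → ℝ) (h0 : ∀ g, 0 ≤ κ g)
    (h1 : ∑ g, κ g = 1) (P ψ : ℝ) (hψ0 : 0 ≤ ψ)
    (hP : ∑ g ∈ Finset.univ.filter (fun g : Perm (Fin n) => n ≤ 10 * fixc g), κ g ≤ P)
    (hψ : ∀ g : Perm (Fin n), 10 * fixc g < n → ‖Matrix.trace (ρ g)‖ ≤ ψ * D) :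
    (Matrix.trace (wop ρ κ)).re ≤ D * (P + ψ) := by
  classical
  have htr : ∀ g : Perm (Fin n), ‖Matrix.trace (ρ g)‖ ≤ D := by
    intro g
    -- entries of a unitary matrix are bounded by one
    have hent : ∀ i, ‖ρ g i i‖ ≤ 1 := by
      intro i
      have h2 := congrFun (congrFun (hu g) i) i
      rw [Matrix.mul_apply, Matrix.one_apply_eq] at h2
      have h3 : ∑ j, ‖ρ g j i‖ ^ 2 = 1 := by
        have h4 : ∑ j, (ρ g)ᴴ i j * ρ g j i = ((∑ j, ‖ρ g j i‖ ^ 2 : ℝ) : ℂ) := by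
          push_cast
          refine Finset.sum_congr rfl fun j _ => ?_
          rw [conjTranspose_apply, Complex.star_def, ← Complex.normSq_eq_conj_mul_self,
            Complex.normSq_eq_norm_sq]
          push_cast
          rfl
        rw [h4] at h2
        exact_mod_cast h2
      have h5 : ‖ρ g i i‖ ^ 2 ≤ 1 := by
        rw [← h3]
        exact Finset.single_le_sum (f := fun j => ‖ρ g j i‖ ^ 2) (fun j _ => by positivity)
          (Finset.mem_univ i)
      nlinarith [norm_nonneg (ρ g i i)]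
    unfold Matrix.trace
    refine (norm_sum_le _ _).trans ?_
    calc ∑ i, ‖(ρ g).diag i‖ ≤ ∑ _i : Fin D, (1 : ℝ) := Finset.sum_le_sum fun i _ => hent i
      _ = D := by simp
  have hre : (Matrix.trace (wop ρ κ)).re = ∑ g, κ g * (Matrix.trace (ρ g)).re := by
    unfold wop
    rw [trace_sum, Complex.re_sum]
    refine Finset.sum_congr rfl fun g _ => ?_
    rw [trace_smul, Complex.real_smul, Complex.re_ofReal_mul]
  rw [hre, ← Finset.sum_filter_add_sum_filter_not Finset.univ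
    (fun g : Perm (Fin n) => n ≤ 10 * fixc g)]
  have hD : (0 : ℝ) ≤ D := Nat.cast_nonneg _
  have hA : ∑ g ∈ Finset.univ.filter (fun g : Perm (Fin n) => n ≤ 10 * fixc g),
      κ g * (Matrix.trace (ρ g)).re ≤ D * P := by
    have h2 : ∀ g ∈ Finset.univ.filter (fun g : Perm (Fin n) => n ≤ 10 * fixc g),
        κ g * (Matrix.trace (ρ g)).re ≤ κ g * D := fun g _ =>
      mul_le_mul_of_nonneg_left ((Complex.re_le_norm _).trans (htr g)) (h0 g)
    refine (Finset.sum_le_sum h2).trans ?_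
    rw [← Finset.sum_mul, mul_comm]
    exact mul_le_mul_of_nonneg_left hP hD
  have hB : ∑ g ∈ Finset.univ.filter (fun g : Perm (Fin n) => ¬ n ≤ 10 * fixc g),
      κ g * (Matrix.trace (ρ g)).re ≤ D * ψ := by
    have h2 : ∀ g ∈ Finset.univ.filter (fun g : Perm (Fin n) => ¬ n ≤ 10 * fixc g),
        κ g * (Matrix.trace (ρ g)).re ≤ κ g * (ψ * D) := fun g hg =>
      mul_le_mul_of_nonneg_left ((Complex.re_le_norm _).trans
        (hψ g (not_le.1 (Finset.mem_filter.1 hg).2))) (h0 g)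
    refine (Finset.sum_le_sum h2).trans ?_
    rw [← Finset.sum_mul]
    have h3 : ∑ g ∈ Finset.univ.filter (fun g : Perm (Fin n) => ¬ n ≤ 10 * fixc g), κ g ≤ 1 := by
      rw [← h1]
      exact Finset.sum_le_sum_of_subset_of_nonneg (Finset.filter_subset _ _) fun g _ _ => h0 g
    have h4 : 0 ≤ ψ * D := mul_nonneg hψ0 hD
    nlinarith
  linarith

/-- the abstract stage step: `y` bounds the density of large eigenvalues -/
theorem step_abs (F : PW (Perm (Fin n))) (hn : 2 ≤ n) (μ : Perm (Fin n) → ℝ)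
    (hμ : IsSP (Alt n : Set (Perm (Fin n))) μ) (ε : ℝ) (hε0 : 0 < ε) (hε1 : ε ≤ 1)
    (y : ℝ) (hy0 : 0 < y) (hy1 : y ≤ 1)
    (hy : ∀ i, ¬ Triv (F.ρ i) (Alt n) →
      (Fintype.card (TopIdx (wop_isHermitian (F.ρ i) (F.irr i).unit hμ) (1 - ε / 8)) : ℝ) ≤
        y * F.D i) (m : ℕ) (hm : 0 < m) (p : ℕ) (hp : p ≤ n) :
    (Nat.card {x : Fin m → Alt n // ¬ Good F (mixW μ (tupW x)) p (ε / 800)} : ℝ) ≤
      (Fintype.card (Alt n) : ℝ) ^ m * (3 * Real.sqrt y) ^ m * (2 * (n : ℝ) ^ p) := by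
  classical
  have h1 := union_bound F p hp (X := Fin m → Alt n)
    (fun i x => ¬ ((1 - ε / 8 / 100) • (1 : Matrix (Fin (F.D i)) (Fin (F.D i)) ℂ) -
        (1 / 2 : ℝ) • (wop (F.ρ i) μ + avgRe fun l => F.ρ i (x l : Perm (Fin n)))).PosSemidef)
    ((Fintype.card (Alt n) : ℝ) ^ m * (3 * Real.sqrt y) ^ m) (by positivity)
    (fun i hi _ => by
      have h2 := stage (Ω := Alt n) (fun ω => F.ρ i (ω : Perm (Fin n)))
        (fun ω => (F.irr i).unit _) (by rw [Fintype.card_fin]; exact (F.irr i).pos)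
        (fun M hM => design (F.irr i) (Alt n) (card_Alt hn) M hM)
        (wop_isHermitian (F.ρ i) (F.irr i).unit hμ) (one_sub_wop (F.ρ i) (F.irr i).unit hμ)
        (ε / 8) (by positivity) (by linarith) y hy0 hy1
        (by rw [Fintype.card_fin]; exact hy i hi) m hm
      rw [Fintype.card_fin] at h2
      exact h2)
  refine le_trans ?_ h1
  have h3 : Nat.card {x : Fin m → Alt n // ¬ Good F (mixW μ (tupW x)) p (ε / 800)} =
      Nat.card {x : Fin m → Alt n // ∃ i, ¬ Triv (F.ρ i) (Alt n) ∧ HasFix (F.ρ i) (stab n p) ∧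
        ¬ ((1 - ε / 8 / 100) • (1 : Matrix (Fin (F.D i)) (Fin (F.D i)) ℂ) -
        (1 / 2 : ℝ) • (wop (F.ρ i) μ +
          avgRe fun l => F.ρ i (x l : Perm (Fin n)))).PosSemidef} := by
    refine Nat.card_congr (Equiv.subtypeEquivRight fun x => ?_)
    unfold Good
    push Not
    refine exists_congr fun i => ?_
    rw [wop_mixW, wop_tupW (F.ρ i) (F.irr i).unit]
    have : 1 - ε / 800 = 1 - ε / 8 / 100 := by ring
    rw [this]
  rw [h3]

end Pool.Agent.Helper15.An
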