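import Pool.Agent.Helper15.An.Main

/-! From blocks to tuples, and from representations to functions on the group. -/

set_option linter.unusedSectionVars false

namespace Pool.Agent.Helper15.An

open Matrix Equiv Filter
open scoped ComplexOrder

variable {n : ℕ}

theorem avgRe_energy {d : Type} [Fintype d] [DecidableEq d] {m : ℕ} (hm : 0 < m)
    (x : Fin m → Matrix d d ℂ) :
    (2 * (m : ℝ)) • ((1 : Matrix d d ℂ) - avgRe x) =
      ∑ l, ((2 : ℝ) • (1 : Matrix d d ℂ) - (x l + (x l)ᴴ)) := by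
  have hm' : (2 * (m : ℝ)) ≠ 0 := by positivity
  unfold avgRe
  rw [smul_sub, smul_smul, mul_inv_cancel₀ hm', one_smul, Finset.sum_sub_distrib,
    Finset.sum_const, Finset.card_univ, Fintype.card_fin, ← Nat.cast_smul_eq_nsmul ℝ, smul_smul,
    mul_comm (2 : ℝ)]

theorem energy_psd {D : ℕ} (ρ : Perm (Fin n) →* Matrix (Fin D) (Fin D) ℂ)
    (hu : ∀ g, (ρ g)ᴴ * ρ g = 1) (g : Perm (Fin n)) :
    ((2 : ℝ) • (1 : Matrix (Fin D) (Fin D) ℂ) - (ρ g + (ρ g)ᴴ)).PosSemidef := by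
  have h1 : (2 : ℝ) • (1 : Matrix (Fin D) (Fin D) ℂ) - (ρ g + (ρ g)ᴴ) =
      (1 - ρ g)ᴴ * (1 - ρ g) := by
    rw [conjTranspose_sub, conjTranspose_one, Matrix.sub_mul, Matrix.mul_sub, Matrix.mul_sub,
      hu g]
    simp only [Matrix.one_mul, Matrix.mul_one]
    module
  rw [h1]
  exact posSemidef_conjTranspose_mul_self _

/-- the blocks of a tuple -/
def blk {K m t : ℕ} {Y : Type} (z : Fin (K * m + t) → Y) : Fin K → Fin m → Y :=
  fun j l => z (Fin.castAdd t (finProdFinEquiv (j, l)))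

theorem sum_blk {M : Type} [AddCommMonoid M] {K m t : ℕ} {Y : Type} (z : Fin (K * m + t) → Y)
    (E : Y → M) : ∑ l, E (z l) = (∑ j, ∑ l, E (blk z j l)) +
      ∑ b : Fin t, E (z (Fin.natAdd (K * m) b)) := by
  rw [Fin.sum_univ_add]
  congr 1
  rw [← Equiv.sum_comp finProdFinEquiv, Fintype.sum_prod_type]
  rfl

theorem gap_transfer {d : Type} [Fintype d] [DecidableEq d] (A T R : Matrix d d ℂ) (k c : ℝ)
    (hk : 0 < k) (hrel : (2 * k) • ((1 : Matrix d d ℂ) - A) =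
      (2 * c) • ((1 : Matrix d d ℂ) - T) + R) (hR : R.PosSemidef)
    (hT : ((1 - 1 / 5 : ℝ) • (1 : Matrix d d ℂ) - T).PosSemidef) (hc : 0 ≤ c) (hck : k ≤ 2 * c) :
    ((1 - 1 / 10 : ℝ) • (1 : Matrix d d ℂ) - A).PosSemidef := by
  have h7 := hT.smul (show (0 : ℝ) ≤ 2 * c by positivity)
  have h8 : ((2 * c * (1 / 5) - 2 * k * (1 / 10)) • (1 : Matrix d d ℂ)).PosSemidef := by
    refine Matrix.PosSemidef.one.smul ?_
    linarith
  have h9 := ((hR.add h7).add h8).smul (show (0 : ℝ) ≤ (2 * k)⁻¹ by positivity)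
  have hk2 : (2 * k) ≠ 0 := by positivity
  have h12 : (2 * k) • ((1 - 1 / 10 : ℝ) • (1 : Matrix d d ℂ) - A) =
      R + (2 * c) • ((1 - 1 / 5 : ℝ) • (1 : Matrix d d ℂ) - T) +
        (2 * c * (1 / 5) - 2 * k * (1 / 10)) • (1 : Matrix d d ℂ) := by
    have h13 : R = (2 * k) • ((1 : Matrix d d ℂ) - A) - (2 * c) • ((1 : Matrix d d ℂ) - T) := by
      rw [hrel]; abel
    rw [h13]
    module
  have h14 : (1 - 1 / 10 : ℝ) • (1 : Matrix d d ℂ) - A = (2 * k)⁻¹ •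
      (R + (2 * c) • ((1 - 1 / 5 : ℝ) • (1 : Matrix d d ℂ) - T) +
        (2 * c * (1 / 5) - 2 * k * (1 / 10)) • (1 : Matrix d d ℂ)) := by
    rw [← h12, smul_smul, inv_mul_cancel₀ hk2, one_smul]
  rw [h14]
  exact h9

theorem rel_blocks1 {D : ℕ} (ρ : Perm (Fin n) →* Matrix (Fin D) (Fin D) ℂ)
    (hu : ∀ g, (ρ g)ᴴ * ρ g = 1) {K m : ℕ} (hK : 0 < K) (hm : 0 < m)
    (x : Fin K → Fin m → Alt n) :
    ∑ j, ∑ l, ((2 : ℝ) • (1 : Matrix (Fin D) (Fin D) ℂ) -
      (ρ (x j l : Perm (Fin n)) + (ρ (x j l : Perm (Fin n)))ᴴ)) = (2 * ((m : ℝ) * K)) •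
        ((1 : Matrix (Fin D) (Fin D) ℂ) - wop ρ (wI x Finset.univ)) := by
  have hKr : (K : ℝ) ≠ 0 := by positivity
  have h4 : ∀ j, ∑ l, ((2 : ℝ) • (1 : Matrix (Fin D) (Fin D) ℂ) -
      (ρ (x j l : Perm (Fin n)) + (ρ (x j l : Perm (Fin n)))ᴴ)) = (2 * (m : ℝ)) •
      ((1 : Matrix (Fin D) (Fin D) ℂ) - avgRe fun l => ρ (x j l : Perm (Fin n))) :=
    fun j => (avgRe_energy hm _).symm
  rw [Finset.sum_congr rfl fun j _ => h4 j, ← Finset.smul_sum, Finset.sum_sub_distrib,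
    Finset.sum_const, Finset.card_univ, Fintype.card_fin, ← Nat.cast_smul_eq_nsmul ℝ,
    wop_wI ρ hu, Finset.card_univ, Fintype.card_fin, ← mul_assoc, mul_smul (2 * (m : ℝ)),
    smul_sub (K : ℝ), smul_smul (K : ℝ), mul_inv_cancel₀ hKr, one_smul]

theorem rel_blocks {D : ℕ} (ρ : Perm (Fin n) →* Matrix (Fin D) (Fin D) ℂ)
    (hu : ∀ g, (ρ g)ᴴ * ρ g = 1) {K m t k : ℕ} (hK : 0 < K) (hm : 0 < m) (hk : K * m + t = k)
    (z : Fin (K * m + t) → Alt n) (w : Fin k → Matrix (Fin D) (Fin D) ℂ)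
    (hw : w = fun l => ρ (z (Fin.cast hk.symm l) : Perm (Fin n))) :
    (2 * (k : ℝ)) • ((1 : Matrix (Fin D) (Fin D) ℂ) - avgRe w) =
    (2 * ((m : ℝ) * K)) • ((1 : Matrix (Fin D) (Fin D) ℂ) - wop ρ (wI (blk z) Finset.univ)) +
      ∑ b : Fin t, ((2 : ℝ) • (1 : Matrix (Fin D) (Fin D) ℂ) -
        (ρ (z (Fin.natAdd (K * m) b) : Perm (Fin n)) +
          (ρ (z (Fin.natAdd (K * m) b) : Perm (Fin n)))ᴴ)) := by
  subst hk
  have hk : 0 < K * m + t := by
    have := Nat.mul_pos hK hm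
    omega
  rw [← rel_blocks1 ρ hu hK hm]
  have h1 := sum_blk z (fun y : Alt n => (2 : ℝ) • (1 : Matrix (Fin D) (Fin D) ℂ) -
    (ρ (y : Perm (Fin n)) + (ρ (y : Perm (Fin n)))ᴴ))
  have h2 := avgRe_energy hk w
  rw [h2, hw]
  exact h1

theorem good_of_blocks (F : PW (Perm (Fin n))) {K m t : ℕ} (hK : 0 < K) (hm : 0 < m)
    (ht : t ≤ K * m) (z : Fin (K * m + t) → Alt n)
    (h : Good F (wI (blk z) Finset.univ) n (1 / 5)) : Good F (tupW z) n (1 / 10) := by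
  intro i hi hf
  have hu := (F.irr i).unit
  rw [wop_tupW (F.ρ i) hu]
  have hKm : 0 < K * m := Nat.mul_pos hK hm
  have hk : 0 < K * m + t := by omega
  have hkr : (0 : ℝ) < ((K * m + t : ℕ) : ℝ) := by exact_mod_cast hk
  refine gap_transfer _ _ _ ((K * m + t : ℕ) : ℝ) ((m : ℝ) * K) hkr
    (rel_blocks (F.ρ i) hu hK hm rfl z _ rfl)
    (posSemidef_sum _ fun b _ => energy_psd (F.ρ i) hu _)
    (h i hi hf) (by positivity) ?_
  have : K * m + t ≤ 2 * (m * K) := by nlinarith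
  exact_mod_cast this

theorem count_tuples (F : PW (Perm (Fin n))) {K m t : ℕ} (hK : 0 < K) (hm : 0 < m)
    (ht : t ≤ K * m) :
    (Nat.card {z : Fin (K * m + t) → Alt n // ¬ Good F (tupW z) n (1 / 10)} : ℝ) ≤
      (Nat.card {x : Fin K → Fin m → Alt n // ¬ Good F (wI x Finset.univ) n (1 / 5)} : ℝ) *
        (Fintype.card (Alt n) : ℝ) ^ t := by
  have h1 : Nat.card {z : Fin (K * m + t) → Alt n // ¬ Good F (tupW z) n (1 / 10)} ≤
      Nat.card ({x : Fin K → Fin m → Alt n // ¬ Good F (wI x Finset.univ) n (1 / 5)} ×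
        (Fin t → Alt n)) := by
    refine Nat.card_le_card_of_injective
      (fun z => (⟨blk z.1, fun h => z.2 (good_of_blocks F hK hm ht z.1 h)⟩,
        fun b => z.1 (Fin.natAdd (K * m) b))) ?_
    rintro ⟨z, hz⟩ ⟨w, hw⟩ h
    simp only [Prod.mk.injEq, Subtype.mk.injEq] at h
    obtain ⟨h2, h3⟩ := h
    refine Subtype.ext (funext fun l => ?_)
    refine Fin.addCases (fun a => ?_) (fun b => ?_) l
    · have h4 := congrFun (congrFun h2 (finProdFinEquiv.symm a).1) (finProdFinEquiv.symm a).2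
      unfold blk at h4
      rw [show ((finProdFinEquiv.symm a).1, (finProdFinEquiv.symm a).2) =
        finProdFinEquiv.symm a from rfl, Equiv.apply_symm_apply] at h4
      exact h4
    · exact congrFun h3 b
  rw [Nat.card_prod] at h1
  have h2 : Nat.card (Fin t → Alt n) = Fintype.card (Alt n) ^ t := by
    rw [Nat.card_eq_fintype_card, Fintype.card_fun, Fintype.card_fin]
  rw [h2] at h1
  exact_mod_cast h1

/-- few bad tuples -/
theorem count_bad (hn : Big n) (F : PW (Perm (Fin n))) (k : ℕ)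
    (hk : (bigC + 1) * Real.log n ^ 4 ≤ k) :
    (Nat.card {z : Fin k → Alt n // ¬ Good F (tupW z) n (1 / 10)} : ℝ) ≤
      4 / n * (Fintype.card (Alt n) : ℝ) ^ k := by
  set L := Real.log n with hL
  set K := 5 * stJ n with hKdef
  have hL1 : 1 ≤ L := le_trans (by norm_num) hn.log_big
  have hC : 0 ≤ bigC := le_trans (by norm_num) bigC_ge
  -- positivity of K from the case of a huge block
  obtain ⟨m0, hm0⟩ := exists_nat_ge (bigC * L ^ 3)
  obtain ⟨hK1, hKL, -⟩ := main_blocks hn F m0 hm0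
  have hKpos : 0 < K := hK1
  have hKr : (0 : ℝ) < K := by exact_mod_cast hKpos
  set m := k / K with hm
  obtain ⟨t, ht, htK⟩ : ∃ t, k = K * m + t ∧ t < K :=
    ⟨k % K, (Nat.div_add_mod k K).symm, Nat.mod_lt _ hKpos⟩
  have hmL : bigC * L ^ 3 ≤ m := by
    have h1 : (k : ℝ) = K * m + t := by exact_mod_cast ht
    have h2 : (t : ℝ) ≤ K := by exact_mod_cast htK.le
    have h3 : (bigC + 1) * L ^ 3 ≤ m + 1 := by
      have h4 : K * ((bigC + 1) * L ^ 3) ≤ K * ((m : ℝ) + 1) := by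
        calc K * ((bigC + 1) * L ^ 3) ≤ L * ((bigC + 1) * L ^ 3) := by
              gcongr
          _ = (bigC + 1) * L ^ 4 := by ring
          _ ≤ k := hk
          _ ≤ K * ((m : ℝ) + 1) := by rw [h1]; linarith
      exact le_of_mul_le_mul_left h4 hKr
    have h5 : 1 ≤ L ^ 3 := one_le_pow₀ hL1
    linarith
  have hmpos : 0 < m := by
    have h5 : 1 ≤ L ^ 3 := one_le_pow₀ hL1
    have h6 : (1 : ℝ) ≤ bigC := le_trans (by norm_num) bigC_ge
    have : (0 : ℝ) < m := by nlinarith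
    exact_mod_cast this
  obtain ⟨-, -, hmain⟩ := main_blocks hn F m hmL
  rw [← hKdef] at hmain
  have htKm : t ≤ K * m := by nlinarith
  clear_value m
  subst ht
  refine (count_tuples F hKpos hmpos htKm).trans ?_
  calc (Nat.card {x : Fin K → Fin m → Alt n // ¬ Good F (wI x Finset.univ) n (1 / 5)} : ℝ) *
        (Fintype.card (Alt n) : ℝ) ^ t ≤
      (4 / n * ((Fintype.card (Alt n) : ℝ) ^ m) ^ K) * (Fintype.card (Alt n) : ℝ) ^ t := by
        gcongr
    _ = 4 / n * (Fintype.card (Alt n) : ℝ) ^ (K * m + t) := by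
        have h1 : ((Fintype.card (Alt n) : ℝ) ^ m) ^ K = (Fintype.card (Alt n) : ℝ) ^ (K * m) := by
          rw [← pow_mul, mul_comm]
        rw [h1, pow_add]; ring

end Pool.Agent.Helper15.An
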