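import Pool.Agent.Helper15.An.Stage2

/-! Base case of the Chernoff bound, and traces of powers of the lazy walk. -/

set_option linter.unusedSectionVars false

namespace Pool.Agent.Helper15.An

open Matrix
open scoped ComplexOrder

section base
variable {d : Type} [Fintype d] [DecidableEq d] {Ω : Type} [Fintype Ω] [Nonempty Ω]

theorem num_bound : Real.cosh (1 / 2) * Real.exp (-(1 / 4)) ≤ 9 / 10 := by
  have h1 : Real.cosh (1 / 2) * Real.exp (-(1 / 4)) =
      (Real.exp (1 / 4) + (Real.exp (3 / 4))⁻¹) / 2 := by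
    rw [Real.cosh_eq, ← Real.exp_neg, div_mul_eq_mul_div, add_mul, ← Real.exp_add, ← Real.exp_add]
    norm_num
  have he1 := Real.exp_one_lt_d9
  have he2 := Real.exp_one_gt_d9
  have h2 : Real.exp (1 / 4) ≤ 1.2841 := by
    have h3 : Real.exp (1 / 4) ^ 4 ≤ 1.2841 ^ 4 := by
      rw [← Real.exp_nat_mul]
      norm_num
      norm_num at he1
      linarith
    exact le_of_pow_le_pow_left₀ (by norm_num) (by norm_num) h3
  have h4 : 2.1 ≤ Real.exp (3 / 4) := by
    have h5 : 2.1 ^ 4 ≤ Real.exp (3 / 4) ^ 4 := by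
      rw [← Real.exp_nat_mul]
      have h6 : ((4 : ℕ) : ℝ) * (3 / 4) = ((3 : ℕ) : ℝ) * 1 := by norm_num
      rw [h6, Real.exp_nat_mul]
      have h7 : (2.7182818283 : ℝ) ^ 3 ≤ Real.exp 1 ^ 3 := by gcongr
      norm_num at h7 ⊢
      linarith
    exact le_of_pow_le_pow_left₀ (by norm_num) (Real.exp_pos _).le h5
  have h8 : (Real.exp (3 / 4))⁻¹ ≤ (2.1)⁻¹ := by gcongr
  rw [h1]
  norm_num at h8 h2 ⊢
  linarith

theorem base_bound (a : Ω → Matrix d d ℂ) (ha : ∀ ω, (a ω)ᴴ * a ω = 1)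
    (hav : ∑ ω, a ω = 0) (m : ℕ) (hm : 0 < m) :
    (Nat.card {ω : Fin m → Ω // ¬ ((1 / 2 : ℝ) • (1 : Matrix d d ℂ) -
        avgRe fun l => a (ω l)).PosSemidef} : ℝ) ≤
      (Fintype.card Ω : ℝ) ^ m * (9 / 10) ^ m * Fintype.card d := by
  classical
  set X : Ω → Matrix d d ℂ := fun ω => (1 / 2 : ℝ) • (a ω + (a ω)ᴴ) with hX
  have hXH : ∀ ω, (X ω).IsHermitian := by
    intro ω
    simp only [hX]
    unfold Matrix.IsHermitian
    rw [conjTranspose_smul, conjTranspose_add, conjTranspose_conjTranspose, add_comm]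
    simp
  have ha' : ∀ ω, a ω * (a ω)ᴴ = 1 := fun ω => mul_eq_one_comm.1 (ha ω)
  have hX1 : ∀ ω, ((1 : ℝ) • (1 : Matrix d d ℂ) - X ω).PosSemidef := by
    intro ω
    have h1 : ((1 : ℝ) • (1 : Matrix d d ℂ) - X ω) = (1 / 2 : ℝ) • ((1 - a ω)ᴴ * (1 - a ω)) := by
      rw [conjTranspose_sub, conjTranspose_one, Matrix.sub_mul, Matrix.mul_sub, Matrix.mul_sub,
        ha ω]
      simp only [hX, Matrix.one_mul, Matrix.mul_one]
      module
    rw [h1]
    exact (posSemidef_conjTranspose_mul_self _).smul (by norm_num)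
  have hX2 : ∀ ω, (X ω - (-1 : ℝ) • (1 : Matrix d d ℂ)).PosSemidef := by
    intro ω
    have h1 : (X ω - (-1 : ℝ) • (1 : Matrix d d ℂ)) = (1 / 2 : ℝ) • ((1 + a ω)ᴴ * (1 + a ω)) := by
      rw [conjTranspose_add, conjTranspose_one, Matrix.add_mul, Matrix.mul_add, Matrix.mul_add,
        ha ω]
      simp only [hX, Matrix.one_mul, Matrix.mul_one]
      module
    rw [h1]
    exact (posSemidef_conjTranspose_mul_self _).smul (by norm_num)
  have hXav : ∑ ω, X ω = 0 := by
    simp only [hX]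
    rw [← Finset.smul_sum, Finset.sum_add_distrib, hav, ← conjTranspose_sum, hav]
    simp
  have hch := centred_chernoff X hXH hX1 hX2 hXav (1 / 2) m
  rw [Nat.card_eq_fintype_card, Fintype.card_subtype]
  set B := Finset.univ.filter (fun ω : Fin m → Ω => ¬ ((1 / 2 : ℝ) • (1 : Matrix d d ℂ) -
        avgRe fun l => a (ω l)).PosSemidef) with hB
  have hm' : (0 : ℝ) < m := by exact_mod_cast hm
  have hbad : ∀ ω : Fin m → Ω, ¬ ((1 / 2 : ℝ) • (1 : Matrix d d ℂ) -
        avgRe fun l => a (ω l)).PosSemidef →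
      Real.exp (1 / 2 * ((m : ℝ) / 2)) ≤
        (trace (NormedSpace.exp ((1 / 2 : ℝ) • ∑ l, X (ω l)))).re := by
    intro ω hω
    have hSH : (∑ l, X (ω l)).IsHermitian := by
      unfold Matrix.IsHermitian
      rw [conjTranspose_sum]
      exact Finset.sum_congr rfl fun l _ => hXH _
    have hex : ∃ i, (m : ℝ) / 2 ≤ hSH.eigenvalues i := by
      by_contra hno
      push Not at hno
      apply hω
      have h1 := posSemidef_of_eigenvalues_le hSH ((m : ℝ) / 2) fun i => (hno i).le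
      have h2 := h1.smul (show (0 : ℝ) ≤ (m : ℝ)⁻¹ by positivity)
      convert h2 using 1
      rw [smul_sub, smul_smul]
      congr 1
      · congr 1; field_simp
      · unfold avgRe
        simp only [hX]
        rw [← Finset.smul_sum, smul_smul]
        congr 1
        rw [mul_inv]; ring
    obtain ⟨i, hi⟩ := hex
    rw [trace_exp_smul hSH]
    refine le_trans ?_ (Finset.single_le_sum (f := fun i => Real.exp (1 / 2 * hSH.eigenvalues i))
      (fun i _ => (Real.exp_pos _).le) (Finset.mem_univ i))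
    exact Real.exp_le_exp.2 (mul_le_mul_of_nonneg_left hi (by norm_num))
  have hcount : (B.card : ℝ) * Real.exp (1 / 2 * ((m : ℝ) / 2)) ≤
      ((Fintype.card Ω : ℝ) * Real.cosh (1 / 2)) ^ m * Fintype.card d := by
    refine le_trans ?_ hch
    rw [← nsmul_eq_mul, ← Finset.sum_const]
    refine (Finset.sum_le_sum fun ω hω => hbad ω (Finset.mem_filter.1 hω).2).trans ?_
    refine Finset.sum_le_sum_of_subset_of_nonneg (Finset.filter_subset _ _) fun ω _ _ => ?_
    have hSH : (∑ l, X (ω l)).IsHermitian := by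
      unfold Matrix.IsHermitian
      rw [conjTranspose_sum]
      exact Finset.sum_congr rfl fun l _ => hXH _
    rw [trace_exp_smul hSH]
    exact Finset.sum_nonneg fun i _ => (Real.exp_pos _).le
  have he : Real.exp (1 / 2 * ((m : ℝ) / 2)) * Real.exp (-(1 / 4)) ^ m = 1 := by
    rw [← Real.exp_nat_mul, ← Real.exp_add]
    rw [show (1 : ℝ) / 2 * ((m : ℝ) / 2) + (m : ℝ) * -(1 / 4) = 0 by ring, Real.exp_zero]
  have hcosh := Real.cosh_pos (1 / 2)
  calc (B.card : ℝ) = (B.card : ℝ) * Real.exp (1 / 2 * ((m : ℝ) / 2)) *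
          Real.exp (-(1 / 4)) ^ m := by rw [mul_assoc, he, mul_one]
    _ ≤ (((Fintype.card Ω : ℝ) * Real.cosh (1 / 2)) ^ m * Fintype.card d) *
          Real.exp (-(1 / 4)) ^ m := by gcongr
    _ = (Fintype.card Ω : ℝ) ^ m * (Real.cosh (1 / 2) * Real.exp (-(1 / 4))) ^ m *
          Fintype.card d := by rw [mul_pow, mul_pow]; ring
    _ ≤ (Fintype.card Ω : ℝ) ^ m * (9 / 10) ^ m * Fintype.card d := by
        gcongr
        exact num_bound

end base

section lazy
variable {d : Type} [Fintype d] [DecidableEq d]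

theorem conj_diag_pow (U : Matrix.unitaryGroup d ℂ) (f : d → ℂ) (l : ℕ) :
    ((U : Matrix d d ℂ) * diagonal f * (U : Matrix d d ℂ)ᴴ) ^ l =
      (U : Matrix d d ℂ) * diagonal (fun i => f i ^ l) * (U : Matrix d d ℂ)ᴴ := by
  induction l with
  | zero => rw [pow_zero, one_conj_diag U]; simp
  | succ l ih =>
    rw [pow_succ, ih]
    calc (U : Matrix d d ℂ) * diagonal (fun i => f i ^ l) * (U : Matrix d d ℂ)ᴴ *
          ((U : Matrix d d ℂ) * diagonal f * (U : Matrix d d ℂ)ᴴ) =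
        (U : Matrix d d ℂ) * diagonal (fun i => f i ^ l) *
          ((U : Matrix d d ℂ)ᴴ * (U : Matrix d d ℂ)) * diagonal f * (U : Matrix d d ℂ)ᴴ := by
          simp only [Matrix.mul_assoc]
      _ = (U : Matrix d d ℂ) * diagonal (fun i => f i ^ (l + 1)) * (U : Matrix d d ℂ)ᴴ := by
          rw [unitary_conj_mul, Matrix.mul_one, Matrix.mul_assoc (U : Matrix d d ℂ),
            diagonal_mul_diagonal]
          simp only [pow_succ]

theorem trace_lazy_pow {T : Matrix d d ℂ} (hT : T.IsHermitian) (l : ℕ) :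
    (trace (((1 / 2 : ℝ) • ((1 : Matrix d d ℂ) + T)) ^ l)).re =
      ∑ i, ((1 + hT.eigenvalues i) / 2) ^ l := by
  have h1 : (1 / 2 : ℝ) • ((1 : Matrix d d ℂ) + T) = (1 / 2 : ℝ) • (1 : Matrix d d ℂ) +
      (1 / 2 : ℝ) • T := by rw [smul_add]
  rw [h1, affine_spec hT, conj_diag_pow, Matrix.trace_mul_comm, ← Matrix.mul_assoc,
    unitary_conj_mul, Matrix.one_mul, Matrix.trace_diagonal]
  rw [Complex.re_sum]
  refine Finset.sum_congr rfl fun i _ => ?_
  rw [← Complex.ofReal_pow, Complex.ofReal_re]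
  congr 1
  ring

/-- upper bound for the trace of a power of the lazy walk -/
theorem trace_lazy_le {T : Matrix d d ℂ} (hT : T.IsHermitian) (ε : ℝ)
    (h0 : (T - (-1 : ℝ) • (1 : Matrix d d ℂ)).PosSemidef)
    (h1 : ((1 - ε) • (1 : Matrix d d ℂ) - T).PosSemidef) (l : ℕ) :
    (trace (((1 / 2 : ℝ) • ((1 : Matrix d d ℂ) + T)) ^ l)).re ≤
      (1 - ε / 2) ^ l * Fintype.card d := by
  rw [trace_lazy_pow hT, mul_comm, ← nsmul_eq_mul]
  refine Finset.sum_le_card_nsmul _ _ _ fun i _ => ?_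
  have h2 := eigenvalues_le_of hT _ h1 i
  have h3 := le_eigenvalues_of hT _ h0 i
  apply pow_le_pow_left₀ (by linarith)
  linarith

/-- lower bound by the number of large eigenvalues -/
theorem card_top_le {T : Matrix d d ℂ} (hT : T.IsHermitian) (η : ℝ) (hη : η ≤ 1)
    (h0 : (T - (-1 : ℝ) • (1 : Matrix d d ℂ)).PosSemidef) (l : ℕ) :
    (Fintype.card (TopIdx hT (1 - η)) : ℝ) * (1 - η / 2) ^ l ≤
      (trace (((1 / 2 : ℝ) • ((1 : Matrix d d ℂ) + T)) ^ l)).re := by
  classical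
  rw [trace_lazy_pow hT]
  have h1 : Fintype.card (TopIdx hT (1 - η)) =
      (Finset.univ.filter (fun i => 1 - η ≤ hT.eigenvalues i)).card := by
    rw [← Fintype.card_subtype]
  rw [h1, ← nsmul_eq_mul]
  refine (Finset.card_nsmul_le_sum _ _ _ fun i hi => ?_).trans
    (Finset.sum_le_sum_of_subset_of_nonneg (Finset.filter_subset _ _) fun i _ _ => ?_)
  · have := (Finset.mem_filter.1 hi).2
    apply pow_le_pow_left₀ (by linarith)
    linarith
  · have h3 := le_eigenvalues_of hT _ h0 i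
    apply pow_nonneg
    linarith

end lazy

end Pool.Agent.Helper15.An
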